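import Pool.Agent.Run7.h893.MX.Tup
import Pool.Agent.Run7.h893.HO.Odd

/-!
# Instances
-/

set_option autoImplicit false

open Polynomial
open Pool.Agent.Y119.HZ (Hp QD_QB)
open Pool.Agent.Y119.HY (QD Jm QB cm Am Bm)

namespace Run7.h893.MX

open Run7.h893.HO

variable {m s : ℕ}

/-- odd order -/
theorem famR_odd (hm : 1 ≤ m) {β : Fin m → ℚ} (hβ : ∀ j, ∀ a : ℤ, β j ≠ a + 1 / 2) {r : Fin s → ℚ}
    (hinj : Function.Injective r) (hr : ∀ j, 0 < r j ∧ r j < 1) (hne : ∀ j, ∀ l : ℕ, (QP β).eval ((l : ℚ) + r j) ≠ 0) :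
    FamR (2 * m + 1) (QP β) (cm (J0m (2 * m + 1))) (Bz (cm (J0m (2 * m + 1))) (cm (J1m (2 * m + 1) (QP β)))) r where
  toFamX := FamX.ofO (QO_QP hm hβ) (fam_odd hm hβ)
  pos := hr
  inj := hinj
  ne := hne
  wsd := by
    intro j i hi
    have h1 := (QO_QP hm hβ).toQG
    rw [QP_eq] at h1 ⊢
    exact sdc_wps card_exps h1 (hr j).1 hi.le

/-- the exponents of even order -/
def expe (β : Fin m → ℚ) : Fin m ⊕ Fin m → ℚ
  | .inl j => β j
  | .inr j => -β j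

lemma QB_eq (β : Fin m → ℚ) : QB β = QA (expe β) := by
  unfold QB QA
  rw [Fintype.prod_sum_type, ← Finset.prod_mul_distrib]
  refine Finset.prod_congr rfl fun j _ => ?_
  show X ^ 2 - C (β j ^ 2) = (X + C (β j)) * (X + C (-β j))
  rw [C_pow, C_neg]
  ring

/-- even order -/
theorem famR_even (hm : 1 ≤ m) {β : Fin m → ℚ} (hβ : ∀ j, ∀ a : ℤ, β j ≠ a) {r : Fin s → ℚ}
    (hinj : Function.Injective r) (hr : ∀ j, 0 < r j ∧ r j < 1) (hne : ∀ j, ∀ l : ℕ, (QB β).eval ((l : ℚ) + r j) ≠ 0) :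
    FamR (2 * m) (QB β) (cm (Jm (2 * m) (QB β))) (fun _ => cm (Jm (2 * m) (QB β))) r := by
  have hβ' : ∀ j, ∀ l : ℕ, (l : ℚ) + β j ≠ 0 ∧ (l : ℚ) + -β j ≠ 0 := by
    intro j l
    constructor
    · intro h
      apply hβ j (-(l : ℤ))
      push_cast
      linear_combination h
    · intro h
      apply hβ j (l : ℤ)
      push_cast
      linear_combination -h
  have hF := fam_even hm hβ
  refine ⟨FamX.ofD (QD_QB hm hβ') hF, hr, hinj, hne, ?_⟩
  intro j i hi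
  have h1 := hF.g
  rw [QB_eq] at h1 ⊢
  exact sdc_wps (by simp [two_mul]) h1 (hr j).1 hi.le

end Run7.h893.MX
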