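import Pool.Agent.Run7.h893.HO.Fam

/-!
# Extensions of differential systems: the algebra of functions and the group of the relations
-/

set_option autoImplicit false

open Filter Topology Matrix Polynomial Pool.Agent.Y119.HY

namespace Run7.h893.MX

open Run7.h893.HO (ZC)

variable {n s : ℕ}

/-- the points: a number `u`, a matrix and `s` vectors -/
abbrev Dm (n s : ℕ) : Type := ℂ × Matrix (Fin n) (Fin n) ℂ × (Fin s → Fin n → ℂ)

/-- the coordinate functions, and the inverse of the first one -/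
noncomputable def co : Option (Option ((Fin n × Fin n) ⊕ (Fin s × Fin n))) → Dm n s → ℂ
  | none, d => d.1
  | some none, d => d.1⁻¹
  | some (some (.inl p)), d => d.2.1 p.1 p.2
  | some (some (.inr p)), d => d.2.2 p.1 p.2

/-- the algebra generated by the coordinate functions -/
noncomputable def Fn (n s : ℕ) : Subalgebra ℂ (Dm n s → ℂ) := Algebra.adjoin ℂ (Set.range co)

lemma Fn_comp {T : Type*} (ψ : T → Dm n s) (𝓑 : Subalgebra ℂ (T → ℂ)) (h : ∀ v, (fun t => co v (ψ t)) ∈ 𝓑)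
    {F : Dm n s → ℂ} (hF : F ∈ Fn n s) : (fun t => F (ψ t)) ∈ 𝓑 := by
  induction hF using Algebra.adjoin_induction with
  | mem x hx =>
    obtain ⟨v, rfl⟩ := hx
    exact h v
  | algebraMap r => exact 𝓑.algebraMap_mem r
  | add x y _ _ hx hy => exact 𝓑.add_mem hx hy
  | mul x y _ _ hx hy => exact 𝓑.mul_mem hx hy

lemma co_mem (v : Option (Option ((Fin n × Fin n) ⊕ (Fin s × Fin n)))) : co v ∈ Fn n s :=
  Algebra.subset_adjoin ⟨v, rfl⟩

lemma const_mem {T : Type*} (𝓑 : Subalgebra ℂ (T → ℂ)) (a : ℂ) : (fun _ => a) ∈ 𝓑 := 𝓑.algebraMap_mem a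

lemma sum_mem' {T ι : Type*} (𝓑 : Subalgebra ℂ (T → ℂ)) (S : Finset ι) {f : ι → T → ℂ} (h : ∀ i ∈ S, f i ∈ 𝓑) :
    (fun t => ∑ i ∈ S, f i t) ∈ 𝓑 := by
  have h1 := 𝓑.sum_mem h
  have h2 : (∑ i ∈ S, f i) = fun t => ∑ i ∈ S, f i t := by
    funext t
    rw [Finset.sum_apply]
  rwa [h2] at h1

lemma pow_mem' {T : Type*} (𝓑 : Subalgebra ℂ (T → ℂ)) {f : T → ℂ} (h : f ∈ 𝓑) (k : ℕ) : (fun t => f t ^ k) ∈ 𝓑 :=
  𝓑.pow_mem h k

/-- the analytic functions -/
def AnA (U : Set ℂ) : Subalgebra ℂ (ℂ → ℂ) where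
  carrier := {f | AnalyticOnNhd ℂ f U}
  mul_mem' := fun hf hg => AnalyticOnNhd.mul hf hg
  add_mem' := fun hf hg => AnalyticOnNhd.add hf hg
  algebraMap_mem' := fun _ => analyticOnNhd_const

/-- polynomials in the second variable with meromorphic coefficients -/
def LoA : Subalgebra ℂ (ℂ × ℂ → ℂ) where
  carrier := {f | ∃ (D : ℕ) (p : ℂ → ℂ[X]), PA (Metric.ball 0 1) p ∧ ∀ u, u ≠ 0 → ‖u‖ < 1 → ∀ c,
    (p u).eval c = u ^ D * f (u, c)}
  mul_mem' := by
    rintro f g ⟨D, p, hp, h1⟩ ⟨D', p', hp', h2⟩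
    refine ⟨D + D', fun u => p u * p' u, hp.mul hp', fun u hu hu1 c => ?_⟩
    rw [eval_mul, h1 u hu hu1, h2 u hu hu1, Pi.mul_apply]
    ring
  add_mem' := by
    rintro f g ⟨D, p, hp, h1⟩ ⟨D', p', hp', h2⟩
    refine ⟨D + D', fun u => C (u ^ D') * p u + C (u ^ D) * p' u,
      ((PA.ofFun (analyticOnNhd_id.pow _)).mul hp).add ((PA.ofFun (analyticOnNhd_id.pow _)).mul hp'), fun u hu hu1 c => ?_⟩
    rw [eval_add, eval_mul, eval_mul, eval_C, eval_C, h1 u hu hu1, h2 u hu hu1, Pi.add_apply]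
    ring
  algebraMap_mem' := fun r => ⟨0, fun _ => C r, PA.const _, fun u _ _ c => by
    rw [eval_C, pow_zero, one_mul]
    rfl⟩

/-- rational functions with a power of `d` as denominator -/
def RaA (d : ℂ[X]) : Subalgebra ℂ (ℂ → ℂ) where
  carrier := {f | ∃ (D : ℕ) (p : ℂ[X]), ∀ c, d.eval c ≠ 0 → p.eval c = (d.eval c) ^ D * f c}
  mul_mem' := by
    rintro f g ⟨D, p, h1⟩ ⟨D', p', h2⟩
    refine ⟨D + D', p * p', fun c hc => ?_⟩
    rw [eval_mul, h1 c hc, h2 c hc, Pi.mul_apply]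
    ring
  add_mem' := by
    rintro f g ⟨D, p, h1⟩ ⟨D', p', h2⟩
    refine ⟨D + D', d ^ D' * p + d ^ D * p', fun c hc => ?_⟩
    rw [eval_add, eval_mul, eval_mul, eval_pow, eval_pow, h1 c hc, h2 c hc, Pi.add_apply]
    ring
  algebraMap_mem' := fun r => ⟨0, C r, fun c _ => by
    rw [eval_C, pow_zero, one_mul]
    rfl⟩

lemma RaA_poly (d p : ℂ[X]) : (fun c => p.eval c) ∈ RaA d := ⟨0, p, fun c _ => by rw [pow_zero, one_mul]⟩

lemma RaA_inv (d : ℂ[X]) : (fun c => (d.eval c)⁻¹) ∈ RaA d := ⟨1, 1, fun c hc => by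
  rw [eval_one, pow_one, mul_inv_cancel₀ hc]⟩

lemma RaA_zero {d : ℂ[X]} {f : ℂ → ℂ} (hf : f ∈ RaA d) {T : Set ℂ} (hT : T.Infinite)
    (h : ∀ c ∈ T, d.eval c ≠ 0 ∧ f c = 0) {c : ℂ} (hc : d.eval c ≠ 0) : f c = 0 := by
  obtain ⟨D, p, hp⟩ := hf
  have h0 : p = 0 := by
    refine Polynomial.eq_zero_of_infinite_isRoot p (hT.mono ?_)
    intro c hc
    obtain ⟨h1, h2⟩ := h c hc
    show p.eval c = 0
    rw [hp c h1, h2, mul_zero]
  have h1 := hp c hc
  rw [h0, eval_zero] at h1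
  exact (mul_eq_zero.1 h1.symm).resolve_left (pow_ne_zero _ hc)

section grp

variable (q : ℕ) (ρ : Fin s → ℕ) (H : ℂ → Matrix (Fin n) (Fin n) ℂ) (w : Fin s → Fin n → ℂ → ℂ)

/-- the point `u, H(u^q), w(u^q)` translated by `g` and `a` -/
noncomputable def mv (g : Matrix (Fin n) (Fin n) ℂ) (a : Fin s → Fin n → ℂ) (u : ℂ) : Dm n s :=
  (u, H (u ^ q) * g, fun j i => w j i (u ^ q) + (u ^ ρ j)⁻¹ * (H (u ^ q) *ᵥ a j) i)

/-- the relations -/
def Rl : Set (Dm n s → ℂ) := {F | F ∈ Fn n s ∧ ∀ u, u ≠ 0 → ‖u‖ < 1 → F (u, H (u ^ q), fun j i => w j i (u ^ q)) = 0}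

/-- the pairs which preserve the relations -/
def InG (g : Matrix (Fin n) (Fin n) ℂ) (a : Fin s → Fin n → ℂ) : Prop :=
  ∀ F ∈ Rl q H w, ∀ u, u ≠ 0 → ‖u‖ < 1 → F (mv q ρ H w g a u) = 0

variable {q ρ H w}

lemma InG.one : InG q ρ H w 1 0 := by
  intro F hF u hu hu1
  have h1 := hF.2 u hu hu1
  unfold mv
  simp only [mul_one, Pi.zero_apply, mulVec_zero, mul_zero, add_zero]
  exact h1

lemma InG.mul {g g' : Matrix (Fin n) (Fin n) ℂ} {a a' : Fin s → Fin n → ℂ} (h : InG q ρ H w g a) (h' : InG q ρ H w g' a') :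
    InG q ρ H w (g * g') (fun j => a j + g *ᵥ a' j) := by
  intro F hF u hu hu1
  set φ : Dm n s → Dm n s := fun d => (d.1, d.2.1 * g', fun j i => d.2.2 j i + (d.1 ^ ρ j)⁻¹ * (d.2.1 *ᵥ a' j) i) with hφ
  have hX : ∀ i j : Fin n, (fun d : Dm n s => d.2.1 i j) ∈ Fn n s := fun i j => co_mem (some (some (.inl (i, j))))
  have hmem : (fun d => F (φ d)) ∈ Fn n s := by
    refine Fn_comp φ (Fn n s) (fun v => ?_) hF.1
    rcases v with _ | _ | ⟨i, j⟩ | ⟨j, i⟩
    · exact co_mem none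
    · exact co_mem (some none)
    · show (fun d : Dm n s => (d.2.1 * g') i j) ∈ Fn n s
      simp only [Matrix.mul_apply]
      exact sum_mem' _ _ fun k _ => (Fn n s).mul_mem (hX i k) (const_mem _ _)
    · show (fun d : Dm n s => d.2.2 j i + (d.1 ^ ρ j)⁻¹ * (d.2.1 *ᵥ a' j) i) ∈ Fn n s
      refine (Fn n s).add_mem (co_mem (some (some (.inr (j, i))))) ((Fn n s).mul_mem ?_ ?_)
      · have h1 := pow_mem' (Fn n s) (co_mem (some none)) (ρ j)
        refine (congrArg (· ∈ Fn n s) ?_).mp h1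
        funext d
        show (d.1⁻¹) ^ ρ j = (d.1 ^ ρ j)⁻¹
        rw [inv_pow]
      · simp only [Matrix.mulVec, dotProduct]
        exact sum_mem' _ _ fun k _ => (Fn n s).mul_mem (hX i k) (const_mem _ _)
  have hRl : (fun d => F (φ d)) ∈ Rl q H w := ⟨hmem, fun v hv hv1 => h' F hF v hv hv1⟩
  have h1 := h _ hRl u hu hu1
  refine Eq.trans (congrArg F ?_) h1
  unfold mv
  refine Prod.ext rfl (Prod.ext ?_ ?_)
  · show H (u ^ q) * (g * g') = H (u ^ q) * g * g'
    rw [Matrix.mul_assoc]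
  · funext j i
    show w j i (u ^ q) + (u ^ ρ j)⁻¹ * (H (u ^ q) *ᵥ (a j + g *ᵥ a' j)) i =
      w j i (u ^ q) + (u ^ ρ j)⁻¹ * (H (u ^ q) *ᵥ a j) i + (u ^ ρ j)⁻¹ * ((H (u ^ q) * g) *ᵥ a' j) i
    rw [mulVec_add, mulVec_mulVec, Pi.add_apply]
    ring

/-- **closedness** -/
lemma InG.closed (M : Matrix (Fin n) (Fin n) ℂ[X]) (a : Fin s → Fin n → ℂ[X]) (d : ℂ[X]) {T : Set ℂ} (hT : T.Infinite)
    (h : ∀ c ∈ T, d.eval c ≠ 0 ∧ InG q ρ H w ((d.eval c)⁻¹ • M.map (Polynomial.eval c))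
      (fun j i => (d.eval c)⁻¹ * (a j i).eval c)) {c : ℂ} (hc : d.eval c ≠ 0) :
    InG q ρ H w ((d.eval c)⁻¹ • M.map (Polynomial.eval c)) (fun j i => (d.eval c)⁻¹ * (a j i).eval c) := by
  intro F hF u hu hu1
  have hmem : (fun c => F (mv q ρ H w ((d.eval c)⁻¹ • M.map (Polynomial.eval c))
      (fun j i => (d.eval c)⁻¹ * (a j i).eval c) u)) ∈ RaA d := by
    refine Fn_comp _ (RaA d) (fun v => ?_) hF.1
    rcases v with _ | _ | ⟨i, j⟩ | ⟨j, i⟩
    · exact const_mem _ u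
    · exact const_mem _ u⁻¹
    · show (fun c => (H (u ^ q) * ((d.eval c)⁻¹ • M.map (Polynomial.eval c))) i j) ∈ RaA d
      simp only [Matrix.mul_apply, Matrix.smul_apply, Matrix.map_apply, smul_eq_mul]
      exact sum_mem' _ _ fun k _ => (RaA d).mul_mem (const_mem _ _) ((RaA d).mul_mem (RaA_inv d) (RaA_poly d _))
    · show (fun c => w j i (u ^ q) + (u ^ ρ j)⁻¹ * (H (u ^ q) *ᵥ fun i => (d.eval c)⁻¹ * (a j i).eval c) i) ∈ RaA d
      simp only [Matrix.mulVec, dotProduct]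
      refine (RaA d).add_mem (const_mem _ _) ((RaA d).mul_mem (const_mem _ _) (sum_mem' _ _ fun k _ => ?_))
      exact (RaA d).mul_mem (const_mem _ _) ((RaA d).mul_mem (RaA_inv d) (RaA_poly d _))
  exact RaA_zero hmem hT (fun c hc => ⟨(h c hc).1, (h c hc).2 F hF u hu hu1⟩) hc

/-- the translations -/
def Tr (q : ℕ) (ρ : Fin s → ℕ) (H : ℂ → Matrix (Fin n) (Fin n) ℂ) (w : Fin s → Fin n → ℂ → ℂ) :
    Submodule ℂ (Fin s → Fin n → ℂ) where
  carrier := {a | InG q ρ H w 1 a}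
  add_mem' := by
    intro a b ha hb
    have h1 := InG.mul ha hb
    rw [one_mul] at h1
    simp only [one_mulVec] at h1
    exact h1
  zero_mem' := InG.one
  smul_mem' := by
    intro c a ha
    have hnat : ∀ m : ℕ, InG q ρ H w 1 (fun j i => (m : ℂ) * a j i) := by
      intro m
      induction m with
      | zero =>
        have h1 := InG.one (q := q) (ρ := ρ) (H := H) (w := w)
        refine (congrArg (InG q ρ H w 1) ?_).mp h1
        funext j i
        simp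
      | succ m ih =>
        have h1 := InG.mul ih ha
        rw [one_mul] at h1
        simp only [one_mulVec] at h1
        refine (congrArg (InG q ρ H w 1) ?_).mp h1
        funext j i
        simp only [Pi.add_apply]
        push_cast
        ring
    have h2 := InG.closed (q := q) (ρ := ρ) (H := H) (w := w) (1 : Matrix (Fin n) (Fin n) ℂ[X])
      (fun j i => X * C (a j i)) 1 (T := Set.range fun m : ℕ => (m : ℂ)) (Set.infinite_range_of_injective Nat.cast_injective)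
      (fun c hc => by
        obtain ⟨m, rfl⟩ := hc
        refine ⟨by simp, ?_⟩
        have h3 := hnat m
        rw [eval_one, inv_one, one_smul]
        have h4 : (1 : Matrix (Fin n) (Fin n) ℂ[X]).map (Polynomial.eval (m : ℂ)) = 1 := by
          rw [Matrix.map_one]
          · simp
          · simp
        rw [h4]
        refine (congrArg (InG q ρ H w 1) ?_).mp h3
        funext j i
        rw [one_mul, eval_mul, eval_X, eval_C]) (c := c) (by simp)
    rw [eval_one, inv_one, one_smul] at h2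
    have h4 : (1 : Matrix (Fin n) (Fin n) ℂ[X]).map (Polynomial.eval c) = 1 := by
      rw [Matrix.map_one]
      · simp
      · simp
    rw [h4] at h2
    refine (congrArg (InG q ρ H w 1) ?_).mp h2
    funext j i
    rw [one_mul, eval_mul, eval_X, eval_C]
    rfl

lemma mem_Tr {a : Fin s → Fin n → ℂ} : a ∈ Tr q ρ H w ↔ InG q ρ H w 1 a := Iff.rfl

end grp

end Run7.h893.MX
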