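import Pool.Agent.Run7.h893.MX.FamX

/-!
# The inhomogeneous hypergeometric equation: arithmetic of the coefficients
-/

set_option autoImplicit false

open PowerSeries
open Pool.Agent.Y113 hiding Bm
open Pool.Agent.Y119.HZ
open Pool.Agent.Y119.HY (poch_int sdc_of PG.exp GP)

namespace Run7.h893.MX

open Run7.h893.HO

variable {n : ℕ} {Q : Polynomial ℚ} {r : ℚ}

/-! ### partial fractions -/

/-- the values `k! / (x (x + 1) ⋯ (x + k))` have the denominators of the `1 / (x + j)` -/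
lemma pf_int {L : ℕ} (k : ℕ) (x : ℚ) (hx : ∀ j ≤ k, x + j ≠ 0) (hL : ∀ j ≤ k, ∃ a : ℤ, (L : ℚ) / (x + j) = a) :
    ∃ a : ℤ, (L : ℚ) * ((k.factorial : ℚ) / ∏ l ∈ Finset.range (k + 1), (x + l)) = a := by
  induction k generalizing x with
  | zero =>
    obtain ⟨a, ha⟩ := hL 0 le_rfl
    refine ⟨a, ?_⟩
    rw [← ha]
    simp [div_eq_mul_inv]
  | succ k ih =>
    obtain ⟨a, ha⟩ := ih x (fun j hj => hx j (by omega)) fun j hj => hL j (by omega)
    obtain ⟨b, hb⟩ := ih (x + 1) (fun j hj => by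
      have := hx (j + 1) (by omega)
      push_cast at this
      intro h0
      apply this
      linear_combination h0) fun j hj => by
        obtain ⟨c, hc⟩ := hL (j + 1) (by omega)
        refine ⟨c, ?_⟩
        rw [← hc]
        push_cast
        congr 1
        ring
    refine ⟨a - b, ?_⟩
    push_cast
    rw [← ha, ← hb, ← mul_sub]
    congr 1
    have h0 : x ≠ 0 := by
      have := hx 0 (by omega)
      simpa using this
    have h1 : x + ((k + 1 : ℕ) : ℚ) ≠ 0 := hx (k + 1) le_rfl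
    have e1 : ∏ l ∈ Finset.range (k + 1 + 1), (x + (l : ℚ)) =
        (∏ l ∈ Finset.range (k + 1), (x + (l : ℚ))) * (x + ((k + 1 : ℕ) : ℚ)) := Finset.prod_range_succ _ _
    have e2 : ∏ l ∈ Finset.range (k + 1 + 1), (x + (l : ℚ)) =
        (∏ l ∈ Finset.range (k + 1), (x + 1 + (l : ℚ))) * x := by
      rw [Finset.prod_range_succ']
      congr 1
      · refine Finset.prod_congr rfl fun l _ => ?_
        push_cast
        ring
      · simp
    have hP1 : ∏ l ∈ Finset.range (k + 1), (x + (l : ℚ)) ≠ 0 :=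
      Finset.prod_ne_zero_iff.2 fun l hl => hx l (by have := Finset.mem_range.1 hl; omega)
    have hP2 : ∏ l ∈ Finset.range (k + 1), (x + 1 + (l : ℚ)) ≠ 0 := by
      refine Finset.prod_ne_zero_iff.2 fun l hl => ?_
      have := hx (l + 1) (by have := Finset.mem_range.1 hl; omega)
      push_cast at this
      intro h0
      apply this
      linear_combination h0
    have e3 : (∏ l ∈ Finset.range (k + 1), (x + (l : ℚ))) * (x + ((k + 1 : ℕ) : ℚ)) =
        (∏ l ∈ Finset.range (k + 1), (x + 1 + (l : ℚ))) * x := by rw [← e1, e2]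
    rw [e1, Nat.factorial_succ]
    set P1 := ∏ l ∈ Finset.range (k + 1), (x + (l : ℚ))
    set P2 := ∏ l ∈ Finset.range (k + 1), (x + 1 + (l : ℚ))
    have e4 : P2 = P1 * (x + ((k + 1 : ℕ) : ℚ)) / x := by
      rw [e3]
      field_simp
    rw [e4]
    push_cast at h1 ⊢
    field_simp
    ring

/-- the quotients `k! / (1 + r)_k` -/
lemma v_int (hr : 0 < r) (K : ℕ) : ∀ k ≤ K, ∃ a : ℤ, ((Nat.lcmUpto (r.num.natAbs + r.den * K) * 1 : ℕ) : ℚ) *
    (∏ l ∈ Finset.range k, (((l : ℚ) + 1) / ((l : ℚ) + 1 + r))) * r.den = a := by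
  intro k hk
  set L : ℕ := Nat.lcmUpto (r.num.natAbs + r.den * K) with hL
  have hden : (r.den : ℚ) ≠ 0 := by exact_mod_cast r.den_nz
  have hnum : 0 < r.num := Rat.num_pos.2 hr
  have hrnum : (r.num.natAbs : ℚ) = r * r.den := by
    rw [Rat.mul_den_eq_num]
    have h1 : ((r.num.natAbs : ℕ) : ℤ) = r.num := Int.natAbs_of_nonneg hnum.le
    rw [← Int.cast_natCast, h1]
  have hx : ∀ j ≤ k, r + j ≠ 0 := fun j _ => by positivity
  obtain ⟨a, ha⟩ := pf_int (L := L) k r hx fun j hj => by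
    have h1 : 1 ≤ r.num.natAbs + r.den * j := by
      have : 0 < r.num.natAbs := Int.natAbs_pos.2 hnum.ne'
      omega
    have h2 : r.num.natAbs + r.den * j ≤ r.num.natAbs + r.den * K := by
      have := Nat.mul_le_mul_left r.den (hj.trans hk)
      omega
    obtain ⟨c, hc⟩ := dvd_lcmUpto h1 h2
    refine ⟨c * r.den, ?_⟩
    rw [hL, hc]
    push_cast
    rw [hrnum]
    have h3 : r + (j : ℚ) ≠ 0 := hx j hj
    have h4 : r * r.den + r.den * (j : ℚ) = (r + j) * r.den := by ring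
    rw [h4]
    field_simp
  refine ⟨a * r.num, ?_⟩
  push_cast
  rw [← ha, mul_one]
  have h5 : (r.num : ℚ) = r * r.den := (Rat.mul_den_eq_num r).symm
  rw [h5]
  have e1 : ∏ l ∈ Finset.range k, (((l : ℚ) + 1) / ((l : ℚ) + 1 + r)) = r * ((k.factorial : ℚ) / ∏ l ∈ Finset.range (k + 1), (r + (l : ℚ))) := by
    rw [Finset.prod_div_distrib, Finset.prod_range_succ']
    have h6 : ∏ l ∈ Finset.range k, ((l : ℚ) + 1) = (k.factorial : ℚ) := by
      rw [← Finset.prod_range_add_one_eq_factorial]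
      push_cast
      rfl
    have h7 : ∏ l ∈ Finset.range k, ((l : ℚ) + 1 + r) = ∏ l ∈ Finset.range k, (r + ((l + 1 : ℕ) : ℚ)) := by
      refine Finset.prod_congr rfl fun l _ => ?_
      push_cast
      ring
    rw [h6, h7]
    have h8 : ∏ l ∈ Finset.range k, (r + ((l + 1 : ℕ) : ℚ)) ≠ 0 :=
      Finset.prod_ne_zero_iff.2 fun l _ => by positivity
    rw [Nat.cast_zero, add_zero]
    field_simp
  rw [e1]
  ring

/-- the power series -/
noncomputable def wps (n : ℕ) (Q : Polynomial ℚ) (r : ℚ) (i : ℕ) : ℚ⟦X⟧ := PowerSeries.mk (wq n Q r i)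

lemma coeff_wps (i k : ℕ) : coeff k (wps n Q r i) = wq n Q r i k := by
  unfold wps
  rw [coeff_mk]

lemma wps_up (i : ℕ) : X * d⁄dX ℚ (wps n Q r i) + C r * wps n Q r i = wps n Q r (i + 1) := by
  ext k
  rw [map_add, coeff_X_deriv, coeff_C_mul, coeff_wps, coeff_wps, ← wq_up]
  ring

lemma wps_last (hQ : QG n Q) (hr : 0 < r) : (1 - X) * wps n Q r n =
    X * ∑ l ∈ Finset.range n, C (Q.coeff l) * wps n Q r l + C (r ^ n) := by
  ext k
  rw [sub_mul, one_mul, map_sub, map_add, coeff_C]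
  rcases k with _ | k
  · rw [coeff_zero_X_mul, coeff_zero_X_mul, coeff_wps, if_pos rfl]
    unfold wq
    rw [gq_zero]
    simp
  · rw [coeff_succ_X_mul, coeff_succ_X_mul, coeff_wps, coeff_wps, if_neg (by omega), add_zero, wq_last hQ hr, map_sum]
    rw [add_sub_cancel_left]
    refine Finset.sum_congr rfl fun l _ => ?_
    rw [coeff_C_mul, coeff_wps]

/-- **arithmetic of the coefficients** -/
theorem sdc_wps {ι : Type} [Fintype ι] (hn : Fintype.card ι = n) {α : ι → ℚ} (hQ : QG n (QA α)) (hr : 0 < r)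
    {i : ℕ} (hi : i ≤ n) : SDc (wps n (QA α) r i) := by
  refine sdc_of ?_ ?_
  · obtain ⟨A, hA⟩ := (wq_PG hQ hr i).exp
    refine ⟨A, fun k => ?_⟩
    have h1 := hA k
    rw [coeff_wps]
    have e1 : ((wq n (QA α) r i k : ℚ) : ℂ) = (((wq n (QA α) r i k : ℚ) : ℝ) : ℂ) := by push_cast; rfl
    rw [e1, Complex.norm_real, Real.norm_eq_abs] at h1
    exact h1
  · set M : ℕ := ∏ i, (r + α i).den ^ 2 with hM
    have hM1 : 1 ≤ M := by
      rw [hM]
      refine Nat.succ_le_of_lt (Finset.prod_pos fun i _ => ?_)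
      have := (r + α i).den_pos
      positivity
    have hd1 : 1 ≤ r.den := r.den_pos
    refine ⟨(M : ℝ) * (((2 ^ 8) ^ (r.num.natAbs + r.den) * r.den) ^ n) * r.den ^ n, fun K => ?_⟩
    set L : ℕ := Nat.lcmUpto (r.num.natAbs + r.den * K) with hL
    have hL0 : 0 < L := Nat.lcmUpto_pos _
    refine ⟨M ^ K * (L * r.den) ^ n * r.den ^ n, ?_, ?_, fun k hk => ?_⟩
    · have := r.den_pos
      positivity
    · push_cast
      have h1 : (L : ℝ) ≤ (2 ^ 8) ^ (r.num.natAbs + r.den * K) := lcm_bound _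
      have hM1' : (1 : ℝ) ≤ M := by exact_mod_cast hM1
      have hd1' : (1 : ℝ) ≤ r.den := by exact_mod_cast hd1
      have hB : (1 : ℝ) ≤ 2 ^ 8 := by norm_num
      have h2 : (L : ℝ) ≤ ((2 ^ 8) ^ (r.num.natAbs + r.den)) ^ (K + 1) := by
        refine h1.trans ?_
        generalize ((2 : ℝ) ^ 8) = B at hB ⊢
        rw [← pow_mul]
        exact pow_le_pow_right₀ hB (by nlinarith [Nat.zero_le r.num.natAbs, Nat.zero_le (r.num.natAbs * K)])
      have h3 : (r.den : ℝ) ≤ (r.den : ℝ) ^ (K + 1) := le_self_pow₀ hd1' (by omega)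
      calc (M : ℝ) ^ K * ((L : ℝ) * r.den) ^ n * (r.den : ℝ) ^ n ≤ (M : ℝ) ^ (K + 1) *
            (((2 ^ 8) ^ (r.num.natAbs + r.den)) ^ (K + 1) * (r.den : ℝ) ^ (K + 1)) ^ n * ((r.den : ℝ) ^ (K + 1)) ^ n := by
            refine mul_le_mul (mul_le_mul (pow_le_pow_right₀ hM1' (Nat.le_succ K)) (pow_le_pow_left₀ (by positivity)
              (mul_le_mul h2 h3 (by positivity) (by positivity)) _) (by positivity) (by positivity))
              (pow_le_pow_left₀ (by positivity) h3 _) (by positivity) (by positivity)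
        _ = _ := by
            generalize ((2 : ℝ) ^ 8) = B
            rw [mul_pow, mul_pow, ← pow_mul, ← pow_mul, ← pow_mul, ← pow_mul, mul_pow, mul_pow, mul_pow]
            ring
    · rw [coeff_wps]
      -- the factors
      obtain ⟨v, hv⟩ := v_int hr K k hk
      rw [← hL, mul_one] at hv
      set vk : ℚ := ∏ l ∈ Finset.range k, (((l : ℚ) + 1) / ((l : ℚ) + 1 + r)) with hvk
      choose a ha using fun i => poch_int (r + α i) k
      have hg : gq n (QA α) r k = (∏ i, ∏ l ∈ Finset.range k, (((l : ℚ) + (r + α i)) / ((l : ℚ) + 1))) * vk ^ n := by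
        unfold gq QA
        rw [Finset.prod_comm, hvk, ← Finset.prod_pow, ← Finset.prod_mul_distrib]
        refine Finset.prod_congr rfl fun l _ => ?_
        rw [Polynomial.eval_prod, Finset.prod_div_distrib, Finset.prod_const, Finset.card_univ, hn]
        have h1 : ((l : ℚ) + 1) ≠ 0 := by positivity
        have h2 : ((l : ℚ) + 1 + r) ≠ 0 := by positivity
        have h3 : ∏ j, (Polynomial.X + Polynomial.C (α j)).eval ((l : ℚ) + r) = ∏ i, ((l : ℚ) + (r + α i)) := by
          refine Finset.prod_congr rfl fun i _ => ?_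
          rw [Polynomial.eval_add, Polynomial.eval_X, Polynomial.eval_C]
          ring
        rw [h3, div_pow]
        field_simp
      have hden : (r.den : ℚ) ≠ 0 := by exact_mod_cast r.den_nz
      refine ⟨(M : ℤ) ^ (K - k) * (∏ i, a i) * v ^ n * ((k * r.den + r.num) ^ i * r.den ^ (n - i)), ?_⟩
      unfold wq
      rw [hg]
      push_cast
      rw [← hv]
      have e1 : (M : ℚ) ^ K = (M : ℚ) ^ (K - k) * (M : ℚ) ^ k := by rw [← pow_add]; congr 1; omega
      have e2 : (r.den : ℚ) ^ n = (r.den : ℚ) ^ (n - i) * (r.den : ℚ) ^ i := by rw [← pow_add]; congr 1; omega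
      have e3 : (M : ℚ) ^ k * ∏ i, ∏ l ∈ Finset.range k, (((l : ℚ) + (r + α i)) / ((l : ℚ) + 1)) = ∏ i, (a i : ℚ) := by
        rw [hM]
        push_cast
        rw [← Finset.prod_pow, ← Finset.prod_mul_distrib]
        exact Finset.prod_congr rfl fun i _ => by rw [← ha i]
      have e4 : (k : ℚ) * r.den + r.num = ((k : ℚ) + r) * r.den := by
        rw [← Rat.mul_den_eq_num r]
        ring
      rw [e4, ← e3, mul_pow ((k : ℚ) + r), mul_pow (L : ℚ) (r.den : ℚ), mul_pow ((L : ℚ) * vk), mul_pow (L : ℚ) vk, e1]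
      have e5 : (r.den : ℚ) ^ n * (r.den : ℚ) ^ n = (r.den : ℚ) ^ n * ((r.den : ℚ) ^ (n - i) * (r.den : ℚ) ^ i) := by rw [← e2]
      calc _ = (M : ℚ) ^ (K - k) * (M : ℚ) ^ k * (L : ℚ) ^ n * ((r.den : ℚ) ^ n * (r.den : ℚ) ^ n) * (((k : ℚ) + r) ^ i *
            ((∏ i, ∏ l ∈ Finset.range k, (((l : ℚ) + (r + α i)) / ((l : ℚ) + 1))) * vk ^ n)) := by ring
        _ = _ := by
          rw [e5]
          ring

/-! ### the binomial coefficients -/

/-- `binomial(-r, s)` -/
noncomputable def cr (r : ℚ) (s : ℕ) : ℚ := (-1) ^ s * ∏ l ∈ Finset.range s, (((l : ℚ) + r) / ((l : ℚ) + 1))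

lemma cr_succ (s : ℕ) : ((s : ℚ) + 1) * cr r (s + 1) = -(r + s) * cr r s := by
  unfold cr
  rw [Finset.prod_range_succ, pow_succ]
  have : ((s : ℚ) + 1) ≠ 0 := by positivity
  field_simp
  ring

lemma cr_zero : cr r 0 = 1 := by
  unfold cr
  simp

lemma cr_GP (hr : 0 < r) (hr1 : r < 1) : GP 0 fun s => Polynomial.C (cr r s) := by
  refine Pool.Agent.Y119.HY.GP.const ⟨1, fun s => ?_⟩ ⟨((r.den : ℝ) ^ 2), fun k => ?_⟩
  · unfold cr
    push_cast
    rw [abs_mul, abs_pow, abs_neg, abs_one, one_pow, one_mul, one_pow, Finset.abs_prod]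
    refine Finset.prod_le_one (fun l _ => abs_nonneg _) fun l _ => ?_
    have hr' : (0 : ℝ) < r := by exact_mod_cast hr
    have hr1' : (r : ℝ) < 1 := by exact_mod_cast hr1
    have hl : (0 : ℝ) ≤ l := Nat.cast_nonneg l
    rw [abs_of_nonneg (by positivity), div_le_one (by positivity)]
    linarith
  · have hd : 0 < r.den := r.den_pos
    have hd1 : (1 : ℝ) ≤ (r.den : ℝ) ^ 2 := one_le_pow₀ (by exact_mod_cast hd)
    refine ⟨(r.den ^ 2) ^ k, by positivity, ?_, fun s hs => ?_⟩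
    · push_cast
      exact pow_le_pow_right₀ hd1 (Nat.le_succ k)
    · obtain ⟨a, ha⟩ := poch_int r s
      refine ⟨(r.den ^ 2) ^ (k - s) * (-1) ^ s * a, ?_⟩
      unfold cr
      push_cast
      rw [← ha]
      have e1 : ((r.den : ℚ) ^ 2) ^ k = ((r.den : ℚ) ^ 2) ^ (k - s) * ((r.den : ℚ) ^ 2) ^ s := by
        rw [← pow_add]
        congr 1
        omega
      rw [e1]
      ring

end Run7.h893.MX
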