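import Pool.Agent.Run7.h893.MX.Alg

/-!
# Extensions of differential systems: the group of the relations is as large as possible
-/

set_option autoImplicit false

open Filter Topology Matrix Polynomial Pool.Agent.Y119.HY

namespace Run7.h893.MX

open Run7.h893.HO (ZC)

variable {n s : ℕ}

/-- the half plane -/
def HPl : Set ℂ := {t | 0 < t.re}

/-- The homogeneous system with the local structure at the point `1`: `Z` is the pull back of the solution matrix under
`t ↦ 1 - exp (-2 t)`. -/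
structure Core (A B J0 : Matrix (Fin n) (Fin n) ℂ) (H : ℕ → Matrix (Fin n) (Fin n) ℂ) (v ψ : Fin n → ℂ)
    (R R' : Matrix (Fin n) (Fin n) ℂ) (Z : ℂ → Matrix (Fin n) (Fin n) ℂ) : Prop where
  nil : A ^ n = 0
  sol : Sol A B H
  an : ∀ i j, AnalyticOnNhd ℂ (fun t => Z t i j) HPl
  real : ∀ t : ℝ, 0 < t → Z t = Yf A H (1 - Complex.exp (-2 * t))
  shift : ∀ t : ℝ, 0 < t → Z (t + Complex.I * Real.pi) = Yf A H (1 - Complex.exp (-2 * t)) * R
  shift' : ∀ t : ℝ, 0 < t → Z (t + -(Complex.I * Real.pi)) = Yf A H (1 - Complex.exp (-2 * t)) * R'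
  RR : R * R' = 1
  rank : R = 1 + vecMulVec v ψ
  cyc : (A ^ (n - 1)) *ᵥ v ≠ 0
  ker : ∀ b : Fin n → ℂ, ψ ⬝ᵥ b = 0 → ∀ i, ∃ g : ℂ → ℂ, AnalyticOnNhd ℂ g (Metric.ball 1 1) ∧
    ∀ z ∈ Lens, (Yf A H z *ᵥ b) i = g z
  gen : ∀ S : Submonoid (Matrix (Fin n) (Fin n) ℂ), ZC (S : Set (Matrix (Fin n) (Fin n) ℂ)) →
    (∀ c : ℂ, ∀ g ∈ S, E A c * g * E A (-c) ∈ S) → R ∈ S → R' ∈ S → ∀ g, g.transpose * J0 * g = J0 → g ∈ S
  const : ∀ X : ℂ → Matrix (Fin n) (Fin n) ℂ, (∀ z ∈ Lens, HD X (Gm A B z * X z) z) →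
    ∃ c, ∀ z ∈ Lens, X z = Yf A H z * c

/-- **Extension of the relations to all the points**: the group of the pairs. -/
theorem all_pairs {A J0 : Matrix (Fin n) (Fin n) ℂ} {q : ℕ} {ρ : Fin s → ℕ} {H : ℂ → Matrix (Fin n) (Fin n) ℂ}
    {w : Fin s → Fin n → ℂ → ℂ} (hn : 1 ≤ n) (hA : A ^ n = 0) {v ψ : Fin n → ℂ} {R R' : Matrix (Fin n) (Fin n) ℂ}
    (hRR : R * R' = 1) (hrank : R = 1 + vecMulVec v ψ) (hcyc : (A ^ (n - 1)) *ᵥ v ≠ 0)
    (hgen : ∀ S : Submonoid (Matrix (Fin n) (Fin n) ℂ), ZC (S : Set (Matrix (Fin n) (Fin n) ℂ)) →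
      (∀ c : ℂ, ∀ g ∈ S, E A c * g * E A (-c) ∈ S) → R ∈ S → R' ∈ S → ∀ g, g.transpose * J0 * g = J0 → g ∈ S)
    (ω : Fin s → ℂ) (hω : Function.Injective ω) (hω1 : ∀ j, ω j ≠ 1) (b : Fin s → Fin n → ℂ)
    (hb : ∀ j, ψ ⬝ᵥ b j ≠ 0)
    (hR : ∀ (c : ℂ) (k : ℕ), InG q ρ H w (E A c * R * E A (-c)) (fun j => ω j ^ k • (E A c *ᵥ (R *ᵥ b j - b j))))
    (hR' : ∀ c : ℂ, InG q ρ H w (E A c * R' * E A (-c)) (fun j => E A c *ᵥ (R' *ᵥ b j - b j)))
    (g : Matrix (Fin n) (Fin n) ℂ) (hg : g.transpose * J0 * g = J0) (a : Fin s → Fin n → ℂ) : InG q ρ H w g a := by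
  classical
  have hEE : ∀ c, E A c * E A (-c) = 1 := fun c => E_mul_neg hA c
  have hEE' : ∀ c, E A (-c) * E A c = 1 := fun c => by
    have := hEE (-c)
    rwa [neg_neg] at this
  have hR'R : R' * R = 1 := mul_eq_one_comm.1 hRR
  -- the vectors
  have hRb : ∀ j, R *ᵥ b j - b j = (ψ ⬝ᵥ b j) • v := by
    intro j
    rw [hrank, add_mulVec, one_mulVec, add_sub_cancel_left, vecMulVec_mulVec]
    ext i
    simp [mul_comm]
  -- translations
  have hT : ∀ (c : ℂ) (k : ℕ), (fun j => (ω j ^ k - 1) • ((ψ ⬝ᵥ b j) • (E A c *ᵥ v))) ∈ Tr q ρ H w := by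
    intro c k
    have h1 := InG.mul (hR c k) (hR' c)
    have e1 : E A c * R * E A (-c) * (E A c * R' * E A (-c)) = 1 := by
      calc _ = E A c * R * (E A (-c) * E A c) * R' * E A (-c) := by simp only [Matrix.mul_assoc]
        _ = E A c * (R * R') * E A (-c) := by rw [hEE', mul_one, Matrix.mul_assoc (E A c)]
        _ = 1 := by rw [hRR, mul_one, hEE]
    rw [e1] at h1
    refine (congrArg (InG q ρ H w 1) ?_).mp h1
    funext j
    have e2 : (E A c * R * E A (-c)) *ᵥ (E A c *ᵥ (R' *ᵥ b j - b j)) = -(E A c *ᵥ (R *ᵥ b j - b j)) := by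
      rw [mulVec_mulVec, Matrix.mul_assoc, hEE', mul_one, ← mulVec_mulVec, mulVec_sub R, mulVec_mulVec, hRR, one_mulVec,
        ← mulVec_neg, neg_sub]
    rw [e2, hRb, mulVec_smul]
    rw [sub_smul, one_smul, sub_eq_add_neg]
  -- separation of the indices
  have hsep : ∀ (j0 : Fin s) (c : ℂ), Pi.single j0 (E A c *ᵥ v) ∈ Tr q ρ H w := by
    intro j0 c
    set p : ℂ[X] := (X - C 1) * ∏ j ∈ Finset.univ.erase j0, (X - C (ω j)) with hp
    have hp1 : p.eval 1 = 0 := by
      rw [hp, eval_mul, eval_sub, eval_X, eval_C, sub_self, zero_mul]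
    have hpj : ∀ j, j ≠ j0 → p.eval (ω j) = 0 := by
      intro j hj
      rw [hp, eval_mul, eval_prod, Finset.prod_eq_zero (Finset.mem_erase.2 ⟨hj, Finset.mem_univ _⟩), mul_zero]
      rw [eval_sub, eval_X, eval_C, sub_self]
    have hp0 : p.eval (ω j0) ≠ 0 := by
      rw [hp, eval_mul, eval_prod, eval_sub, eval_X, eval_C]
      refine mul_ne_zero (sub_ne_zero.2 (hω1 j0)) (Finset.prod_ne_zero_iff.2 fun j hj => ?_)
      rw [eval_sub, eval_X, eval_C]
      exact sub_ne_zero.2 fun h => (Finset.mem_erase.1 hj).1 (hω h).symm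
    have h1 : ∑ k ∈ Finset.range (p.natDegree + 1), p.coeff k •
        (fun j => (ω j ^ k - 1) • ((ψ ⬝ᵥ b j) • (E A c *ᵥ v))) ∈ Tr q ρ H w :=
      Submodule.sum_mem _ fun k _ => Submodule.smul_mem _ _ (hT c k)
    have h2 : (p.eval (ω j0) * (ψ ⬝ᵥ b j0))⁻¹ • (∑ k ∈ Finset.range (p.natDegree + 1), p.coeff k •
        (fun j => (ω j ^ k - 1) • ((ψ ⬝ᵥ b j) • (E A c *ᵥ v)))) = Pi.single j0 (E A c *ᵥ v) := by
      funext j
      have e1 : (∑ k ∈ Finset.range (p.natDegree + 1), p.coeff k •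
          (fun j => (ω j ^ k - 1) • ((ψ ⬝ᵥ b j) • (E A c *ᵥ v)))) j = p.eval (ω j) • ((ψ ⬝ᵥ b j) • (E A c *ᵥ v)) := by
        rw [Finset.sum_apply]
        simp only [Pi.smul_apply, smul_smul, ← Finset.sum_smul]
        congr 1
        have e2 : p.eval (ω j) - p.eval 1 = ∑ k ∈ Finset.range (p.natDegree + 1), p.coeff k * (ω j ^ k - 1) := by
          rw [eval_eq_sum_range, eval_eq_sum_range, ← Finset.sum_sub_distrib]
          refine Finset.sum_congr rfl fun k _ => ?_
          rw [one_pow]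
          ring
        rw [hp1, sub_zero] at e2
        rw [e2, Finset.sum_mul]
        exact Finset.sum_congr rfl fun k _ => by ring
      rw [Pi.smul_apply, e1]
      by_cases hj : j = j0
      · subst hj
        rw [Pi.single_eq_same, smul_smul, smul_smul, mul_assoc, inv_mul_cancel₀ (mul_ne_zero hp0 (hb j)), one_smul]
      · rw [hpj j hj, zero_smul, smul_zero, Pi.single_eq_of_ne hj]
    rw [← h2]
    exact Submodule.smul_mem _ _ h1
  -- all translations
  have hall : ∀ a : Fin s → Fin n → ℂ, InG q ρ H w 1 a := by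
    intro a
    have h1 : ∀ (j0 : Fin s) (x : Fin n → ℂ), Pi.single j0 x ∈ Tr q ρ H w := by
      intro j0 x
      set U : Submodule ℂ (Fin n → ℂ) := (Tr q ρ H w).comap (LinearMap.single ℂ (fun _ => Fin n → ℂ) j0) with hU
      have hUtop : U = ⊤ := by
        by_contra hne
        obtain ⟨l, hl0, hl⟩ := Submodule.exists_le_ker_of_lt_top U (lt_top_iff_ne_top.2 hne)
        refine pl_ne hA hcyc hl0 ?_
        refine Polynomial.funext fun c => ?_
        rw [pl_eval, eval_zero]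
        exact hl (hsep j0 c)
      have h2 : x ∈ U := by rw [hUtop]; exact Submodule.mem_top
      exact h2
    have h2 : a = ∑ j, Pi.single j (a j) := (Finset.univ_sum_single a).symm
    rw [← mem_Tr, h2]
    exact Submodule.sum_mem _ fun j _ => h1 j (a j)
  have hany : ∀ {g : Matrix (Fin n) (Fin n) ℂ} {a : Fin s → Fin n → ℂ}, InG q ρ H w g a → ∀ a', InG q ρ H w g a' := by
    intro g a h a'
    have h1 := InG.mul (hall (fun j => a' j - a j)) h
    rw [one_mul] at h1
    simp only [one_mulVec, sub_add_cancel] at h1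
    exact h1
  -- the submonoid
  set S : Submonoid (Matrix (Fin n) (Fin n) ℂ) :=
    { carrier := {g | ∀ c, InG q ρ H w (E A c * g * E A (-c)) 0}
      mul_mem' := by
        intro g g' hg hg' c
        have h1 := InG.mul (hg c) (hg' c)
        have e1 : E A c * g * E A (-c) * (E A c * g' * E A (-c)) = E A c * (g * g') * E A (-c) := by
          calc _ = E A c * g * (E A (-c) * E A c) * g' * E A (-c) := by simp only [Matrix.mul_assoc]
            _ = _ := by rw [hEE', mul_one]; simp only [Matrix.mul_assoc]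
        rw [e1] at h1
        exact hany h1 0
      one_mem' := by
        intro c
        rw [mul_one, hEE]
        exact InG.one } with hS
  have hSmem : ∀ g, g ∈ S ↔ ∀ c, InG q ρ H w (E A c * g * E A (-c)) 0 := fun g => Iff.rfl
  have hSZC : ZC (S : Set (Matrix (Fin n) (Fin n) ℂ)) := by
    intro M d T hT h c hc
    intro t
    have hmap : ∀ c, E A t * ((d.eval c)⁻¹ • M.map (Polynomial.eval c)) * E A (-t) =
        (d.eval c)⁻¹ • ((E A t).map C * M * (E A (-t)).map C).map (Polynomial.eval c) := by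
      intro c
      rw [map_mul_eval, map_mul_eval, map_C_eval, map_C_eval, mul_smul_comm, smul_mul_assoc]
    have h1 := InG.closed (q := q) (ρ := ρ) (H := H) (w := w) ((E A t).map C * M * (E A (-t)).map C) (fun _ _ => 0) d hT
      (fun c hc => by
        refine ⟨(h c hc).1, ?_⟩
        have h2 := (h c hc).2 t
        rw [hmap] at h2
        refine (congrArg (InG q ρ H w _) ?_).mp h2
        funext j i
        simp) hc
    rw [hmap]
    refine (congrArg (InG q ρ H w _) ?_).mp h1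
    funext j i
    simp
  have hconj : ∀ c : ℂ, ∀ g ∈ S, E A c * g * E A (-c) ∈ S := by
    intro c g hg t
    have h1 := hg (t + c)
    have e1 : E A (t + c) = E A t * E A c := E_add hA t c
    have e2 : E A (-(t + c)) = E A (-c) * E A (-t) := by
      rw [neg_add_rev, E_add hA]
    rw [e1, e2] at h1
    refine (congrArg (fun X => InG q ρ H w X 0) ?_).mp h1
    simp only [Matrix.mul_assoc]
  have hRS : R ∈ S := fun c => by
    have h1 := hR c 0
    exact hany h1 0
  have hR'S : R' ∈ S := fun c => hany (hR' c) 0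
  have h1 := hgen S hSZC hconj hRS hR'S g hg 0
  have h2 : E A 0 = 1 := E_zero hA
  rw [neg_zero, h2, one_mul, mul_one] at h1
  exact hany h1 a

end Run7.h893.MX
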