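import Pool.Agent.Run7.h893.MX.Mono

/-!
# The local structure at the point `1`: reflections and transvections
-/

set_option autoImplicit false

open Filter Topology Matrix Polynomial Pool.Agent.Y119.HY

namespace Run7.h893.MX

open Run7.h893.HO

variable {n : ℕ} {J0 J1 A B : Matrix (Fin n) (Fin n) ℂ} {H : ℕ → Matrix (Fin n) (Fin n) ℂ}

lemma one_sub_an {K : ℕ → Matrix (Fin n) (Fin n) ℂ} (hK : ∀ i j, PG fun k => K k i j) (x : Fin n → ℂ) (i : Fin n) :
    AnalyticOnNhd ℂ (fun z => (Hf K (1 - z) *ᵥ x) i) (Metric.ball 1 1) := by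
  simp only [Matrix.mulVec, dotProduct]
  refine Finset.analyticOnNhd_fun_sum _ fun j _ => AnalyticOnNhd.mul ?_ analyticOnNhd_const
  intro z hz
  have h3 : AnalyticAt ℂ (fun w => Hf K w i j) (1 - z) := ps_an (hK i j) (1 - z) (by
    rw [Metric.mem_ball, dist_comm, dist_eq_norm] at hz
    rwa [Metric.mem_ball, dist_zero_right])
  have h4 : AnalyticAt ℂ (fun w : ℂ => 1 - w) z := analyticAt_const.sub analyticAt_id
  exact h3.fun_comp h4

lemma exp_an {K : ℕ → Matrix (Fin n) (Fin n) ℂ} (hK : ∀ i j, PG fun k => K k i j) (i j : Fin n) :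
    (fun t => Hf K (Complex.exp (-2 * t)) i j) ∈ AnA HPl := by
  intro t ht
  have h3 : AnalyticAt ℂ (fun w => Hf K w i j) (Complex.exp (-2 * t)) := ps_an (hK i j) _ (by
    rw [Metric.mem_ball, dist_zero_right]
    exact exp_HPl ht)
  exact AnalyticAt.fun_comp (g := fun w => Hf K w i j) (f := fun t : ℂ => Complex.exp (-2 * t)) h3
    ((analyticAt_const.mul analyticAt_id).cexp)

lemma exp_Lens {t : ℝ} (ht : 0 < t) : (1 - Complex.exp (-2 * t)) ∈ Lens ∧
    (((1 - Real.exp (-2 * t) : ℝ)) : ℂ) = 1 - Complex.exp (-2 * t) := by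
  have h1 : 0 < 1 - Real.exp (-2 * t) := by
    have : Real.exp (-2 * t) < 1 := by rw [Real.exp_lt_one_iff]; linarith
    linarith
  have h2 : 1 - Real.exp (-2 * t) < 1 := by linarith [Real.exp_pos (-2 * t)]
  have h3 := real_mem_Lens h1 h2
  have h4 : (((1 - Real.exp (-2 * t) : ℝ)) : ℂ) = 1 - Complex.exp (-2 * t) := by push_cast; rfl
  exact ⟨h4 ▸ h3, h4⟩

lemma const_of_comp (h : Comp J0 J1 A B) (hH : Sol A B H) (X : ℂ → Matrix (Fin n) (Fin n) ℂ)
    (hX : ∀ z ∈ Lens, HD X (Gm A B z * X z) z) : ∃ c, ∀ z ∈ Lens, X z = Yf A H z * c := by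
  have hhalf : ((1 / 2 : ℝ) : ℂ) ∈ Lens := real_mem_Lens (by norm_num) (by norm_num)
  have hu : IsUnit J0.det := Ne.isUnit h.det
  have hYd : ∀ z ∈ Lens, HD (Yf A H) (Gm A B z * Yf A H z) z := fun z hz =>
    Yf_ode hH h.nil (mem_Lens.1 hz).1 (slit_Lens hz)
  set W := (Yf A H ((1 / 2 : ℝ) : ℂ)).transpose * Bz J0 J1 ((1 / 2 : ℝ) : ℂ) * X ((1 / 2 : ℝ) : ℂ) with hW
  have hWc : ∀ z ∈ Lens, (Yf A H z).transpose * Bz J0 J1 z * X z = W := fun z hz =>
    const_Lens (F := fun z => (Yf A H z).transpose * Bz J0 J1 z * X z)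
      (fun x hx => h.pair (Lens_ne hx).1 (Lens_ne hx).2 (hYd x hx) (hX x hx)) hz hhalf
  have hinv : ∀ z ∈ Lens, Yf A H z * (J0⁻¹ * (Yf A H z).transpose * Bz J0 J1 z) = 1 := by
    intro z hz
    have h1 : (J0⁻¹ * (Yf A H z).transpose * Bz J0 J1 z) * Yf A H z = 1 := by
      rw [Matrix.mul_assoc, Matrix.mul_assoc, ← Matrix.mul_assoc _ (Bz J0 J1 z), self_pair' h hH hz,
        nonsing_inv_mul _ hu]
    exact mul_eq_one_comm.1 h1
  refine ⟨J0⁻¹ * W, fun z hz => ?_⟩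
  rw [← hWc z hz]
  calc X z = Yf A H z * (J0⁻¹ * (Yf A H z).transpose * Bz J0 J1 z) * X z := by rw [hinv z hz, one_mul]
    _ = _ := by simp only [Matrix.mul_assoc]

/-- **odd order** -/
theorem core_odd (h : Comp J0 J1 A B) {p : ℕ} (hp : Odd p) {u φ e : Fin n → ℂ} (hφu : φ ⬝ᵥ u = 1)
    (hB : B = ((p : ℂ) / 2) • vecMulVec u φ) (hH : Sol A B H) (hAe : A *ᵥ e = 0)
    (hcyc : ∀ v, om J0 v e ≠ 0 → (A ^ (n - 1)) *ᵥ v ≠ 0) (i0 : Fin n)
    (hsing : ∀ g : ℂ → ℂ, AnalyticOnNhd ℂ g (Metric.ball 1 1) → (∀ z ∈ Lens, (Hf H z *ᵥ e) i0 = g z) → False) :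
    ∃ (v ψ : Fin n → ℂ) (R : Matrix (Fin n) (Fin n) ℂ) (Z : ℂ → Matrix (Fin n) (Fin n) ℂ),
      Core A B J0 H v ψ R R Z := by
  set P : Matrix (Fin n) (Fin n) ℂ := vecMulVec u φ with hPd
  have hP : P * P = P := by
    rw [hPd, vecMulVec_mul_vecMulVec, hφu, one_smul]
  have hB' : -B = (-(p : ℂ) / 2) • P := by rw [hB, ← neg_smul, neg_div]
  have hBB : (-B) * (-B) = (-(p : ℂ) / 2) • (-B) := by
    rw [hB', smul_mul_smul_comm, hP, smul_smul]
  obtain ⟨K, hK⟩ := exists_sol' hp hBB (-A)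
  have hKg : ∀ i j, PG fun k => K k i j := fun i j => growth' hK hp hBB i j
  obtain ⟨M, Mi, hMMi, hMiM, hconn⟩ := connect' h hP hB hH hK hKg
  have hform : ∀ x : ℝ, 0 < x → x < 1 → (Yf A H x).transpose * Bz J0 J1 x * Yf A H x = J0 := fun x hx hx1 =>
    self_pair' h hH (real_mem_Lens hx hx1)
  have hRmem : Mi * Sf P (-1) * M ∈ Gal (Yf A H) :=
    refl_mem_Gal hp hP hKg hMMi fun x hx hx1 => hconn x (real_mem_Lens hx hx1)
  set v : Fin n → ℂ := Mi *ᵥ u with hv
  set ψ : Fin n → ℂ := φ ᵥ* M with hψ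
  have e1 : Mi * Sf P (-1) * M = 1 + (-2 : ℂ) • vecMulVec v ψ := by
    unfold Sf
    rw [mul_add, mul_one, add_mul, hMiM, mul_smul_comm, smul_mul_assoc, hPd, mul_vecMulVec, vecMulVec_mul]
    norm_num
    rfl
  have hR : ∀ x : Fin n → ℂ, (Mi * Sf P (-1) * M) *ᵥ x = x - (2 * (ψ ⬝ᵥ x)) • v := by
    intro x
    rw [e1, add_mulVec, one_mulVec, smul_mulVec, vecMulVec_mulVec]
    ext i
    simp only [Pi.add_apply, Pi.sub_apply, Pi.smul_apply, MulOpposite.smul_eq_mul_unop, MulOpposite.unop_op, smul_eq_mul]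
    ring
  have hψv : ψ ⬝ᵥ v = 1 := by
    rw [hψ, hv, ← dotProduct_mulVec, mulVec_mulVec, hMMi, one_mulVec, hφu]
  have hRJ := Gal_form hform hRmem
  have hsub : ∀ (x y : Fin n → ℂ) (c : ℂ), om J0 (x - c • v) y = om J0 x y - c * om J0 v y := by
    intro x y c
    rw [sub_eq_add_neg, ← neg_smul, om_add_left, om_smul_left]
    ring
  have hsub' : ∀ (x y : Fin n → ℂ) (c : ℂ), om J0 x (y - c • v) = om J0 x y - c * om J0 x v := by
    intro x y c
    rw [sub_eq_add_neg, ← neg_smul, om_add, om_smul]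
    ring
  have hrel : ∀ x : Fin n → ℂ, (ψ ⬝ᵥ x) * om J0 v v = om J0 v x := by
    intro x
    have h1 := om_isom hRJ x v
    rw [hR, hR, hψv, hsub, hsub', hsub', om_symm h.symm v x] at h1
    linear_combination (1 / 2 : ℂ) * h1
  have hv0 : v ≠ 0 := by
    intro h0
    rw [h0, dotProduct_zero] at hψv
    exact zero_ne_one hψv
  have hvv : om J0 v v ≠ 0 := by
    intro h0
    apply hv0
    apply Matrix.eq_zero_of_vecMul_eq_zero h.det
    funext j
    have h1 := hrel (Pi.single j 1)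
    rw [h0, mul_zero, om_eq, dotProduct_single, mul_one] at h1
    exact h1.symm
  have hRrf : Mi * Sf P (-1) * M = rf J0 v := by
    apply Matrix.toLin'.injective
    refine LinearMap.ext fun x => ?_
    rw [toLin'_apply, toLin'_apply, hR, rf_mulVec, ← hrel x]
    congr 2
    field_simp
  have hRR : (Mi * Sf P (-1) * M) * (Mi * Sf P (-1) * M) = 1 := by
    calc _ = Mi * Sf P (-1) * (M * Mi) * Sf P (-1) * M := by simp only [Matrix.mul_assoc]
      _ = Mi * (Sf P (-1) * Sf P (-1)) * M := by rw [hMMi, mul_one, Matrix.mul_assoc Mi]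
      _ = 1 := by rw [Sf_mul hP, neg_one_mul, neg_neg, Sf_one, mul_one, hMiM]
  have hPb : ∀ b : Fin n → ℂ, ψ ⬝ᵥ b = 0 → ∀ a : ℂ, Sf P a *ᵥ (M *ᵥ b) = M *ᵥ b := by
    intro b hb a
    have h1 : φ ⬝ᵥ (M *ᵥ b) = 0 := by rw [dotProduct_mulVec]; exact hb
    unfold Sf
    rw [add_mulVec, one_mulVec, smul_mulVec, hPd, vecMulVec_mulVec, h1]
    simp
  have hker : ∀ b : Fin n → ℂ, ψ ⬝ᵥ b = 0 → ∀ z ∈ Lens, Yf A H z *ᵥ b = Hf K (1 - z) *ᵥ (M *ᵥ b) := by
    intro b hb z hz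
    rw [hconn z hz]
    unfold Zf
    rw [← mulVec_mulVec, ← mulVec_mulVec, hPb b hb]
  set Z : ℂ → Matrix (Fin n) (Fin n) ℂ := fun t => Hf K (Complex.exp (-2 * t)) * Sf P (Complex.exp (p * t)) * M with hZd
  have hreal : ∀ t : ℝ, 0 < t → Z t = Yf A H (1 - Complex.exp (-2 * t)) := by
    intro t ht
    obtain ⟨h1, h2⟩ := exp_Lens ht
    rw [hconn _ h1, sub_sub_cancel]
    have h3 : Complex.exp (-2 * (t : ℂ)) = ((Real.exp (-2 * t) : ℝ) : ℂ) := by push_cast; rfl
    rw [h3, Zf_real]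
  have hshift : ∀ τ : ℂ, Complex.exp (-2 * τ) = 1 → Complex.exp (p * τ) = -1 → ∀ t : ℝ, 0 < t →
      Z (t + τ) = Yf A H (1 - Complex.exp (-2 * t)) * (Mi * Sf P (-1) * M) := by
    intro τ h1 h2 t ht
    rw [← hreal t ht, hZd]
    simp only
    rw [mul_add, Complex.exp_add, h1, mul_one, mul_add, Complex.exp_add, h2]
    calc _ = Hf K (Complex.exp (-2 * t)) * (Sf P (Complex.exp (p * t)) * Sf P (-1)) * M := by rw [Sf_mul hP]
      _ = Hf K (Complex.exp (-2 * t)) * Sf P (Complex.exp (p * t)) * (M * Mi) * Sf P (-1) * M := by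
        rw [hMMi, mul_one]
        simp only [Matrix.mul_assoc]
      _ = _ := by simp only [Matrix.mul_assoc]
  refine ⟨v, (-2 : ℂ) • ψ, Mi * Sf P (-1) * M, Z, ⟨h.nil, hH, fun i j => ?_, hreal, hshift _ ?_ ?_, hshift _ ?_ ?_, hRR, ?_,
    hcyc v ?_, fun b hb i => ?_, fun S hS hE hRS _ g hg => ?_, fun X hX => const_of_comp h hH X hX⟩⟩
  · show (fun t => (Hf K (Complex.exp (-2 * t)) * Sf P (Complex.exp (p * t)) * M) i j) ∈ AnA HPl
    simp only [Matrix.mul_apply]
    refine sum_mem' _ _ fun l _ => (AnA HPl).mul_mem (sum_mem' _ _ fun k _ => (AnA HPl).mul_mem (exp_an hKg i k) ?_)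
      (const_mem _ _)
    unfold Sf
    simp only [Matrix.add_apply, Matrix.smul_apply, smul_eq_mul]
    refine (AnA HPl).add_mem (const_mem _ _) ((AnA HPl).mul_mem ?_ (const_mem _ _))
    exact fun u _ => ((analyticAt_const.mul analyticAt_id).cexp).sub analyticAt_const
  · have : -2 * (Complex.I * Real.pi) = -(2 * Real.pi * Complex.I) := by ring
    rw [this, Complex.exp_neg, Complex.exp_two_pi_mul_I, inv_one]
  · rw [Complex.exp_nat_mul, mul_comm Complex.I, Complex.exp_pi_mul_I]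
    exact hp.neg_one_pow
  · have : -2 * -(Complex.I * Real.pi) = 2 * Real.pi * Complex.I := by ring
    rw [this, Complex.exp_two_pi_mul_I]
  · rw [Complex.exp_nat_mul, mul_comm Complex.I, Complex.exp_neg, Complex.exp_pi_mul_I, inv_neg, inv_one]
    exact hp.neg_one_pow
  · rw [e1, vecMulVec_smul]
  · intro h0
    have h2 := hrel e
    rw [h0] at h2
    have h3 : ψ ⬝ᵥ e = 0 := (mul_eq_zero.1 h2).resolve_right hvv
    refine hsing (fun z => (Hf K (1 - z) *ᵥ (M *ᵥ e)) i0) (one_sub_an hKg _ _) fun z hz => ?_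
    have h4 := hker e h3 z hz
    unfold Yf at h4
    rw [← mulVec_mulVec, E_fix hAe] at h4
    rw [h4]
  · have hb' : ψ ⬝ᵥ b = 0 := by
      rw [smul_dotProduct, smul_eq_mul] at hb
      exact (mul_eq_zero.1 hb).resolve_left (by norm_num)
    exact ⟨_, one_sub_an hKg (M *ᵥ b) i, fun z hz => by rw [hker b hb' z hz]⟩
  · rw [hRrf] at hRS
    refine o_all h.symm h.det S hS h.nil h.zero (hcyc v ?_) hvv hE hRS g hg
    intro h0
    have h2 := hrel e
    rw [h0] at h2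
    have h3 : ψ ⬝ᵥ e = 0 := (mul_eq_zero.1 h2).resolve_right hvv
    refine hsing (fun z => (Hf K (1 - z) *ᵥ (M *ᵥ e)) i0) (one_sub_an hKg _ _) fun z hz => ?_
    have h4 := hker e h3 z hz
    unfold Yf at h4
    rw [← mulVec_mulVec, E_fix hAe] at h4
    rw [h4]

lemma const_of_skew {J : Matrix (Fin n) (Fin n) ℂ} (hdet : J.det ≠ 0) (hA : A ^ n = 0)
    (hAJ : A.transpose * J + J * A = 0) (hBJ : B.transpose * J + J * B = 0) (hH : Sol A B H)
    (X : ℂ → Matrix (Fin n) (Fin n) ℂ) (hX : ∀ z ∈ Lens, HD X (Gm A B z * X z) z) : ∃ c, ∀ z ∈ Lens, X z = Yf A H z * c := by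
  have hhalf : ((1 / 2 : ℝ) : ℂ) ∈ Lens := real_mem_Lens (by norm_num) (by norm_num)
  have hu : IsUnit J.det := Ne.isUnit hdet
  have hYd : ∀ z ∈ Lens, HD (Yf A H) (Gm A B z * Yf A H z) z := fun z hz =>
    Yf_ode hH hA (mem_Lens.1 hz).1 (slit_Lens hz)
  set W := (Yf A H ((1 / 2 : ℝ) : ℂ)).transpose * J * X ((1 / 2 : ℝ) : ℂ) with hW
  have hWc : ∀ z ∈ Lens, (Yf A H z).transpose * J * X z = W := fun z hz =>
    const_Lens (F := fun z => (Yf A H z).transpose * J * X z)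
      (fun x hx => pair_HD (Gm_skew hAJ hBJ x) (hYd x hx) (hX x hx)) hz hhalf
  have hinv : ∀ z ∈ Lens, Yf A H z * (J⁻¹ * (Yf A H z).transpose * J) = 1 := by
    intro z hz
    have h1 : (J⁻¹ * (Yf A H z).transpose * J) * Yf A H z = 1 := by
      rw [Matrix.mul_assoc, Matrix.mul_assoc, ← Matrix.mul_assoc _ J, self_pair hA hAJ hBJ hH hz,
        nonsing_inv_mul _ hu]
    exact mul_eq_one_comm.1 h1
  refine ⟨J⁻¹ * W, fun z hz => ?_⟩
  rw [← hWc z hz]
  calc X z = Yf A H z * (J⁻¹ * (Yf A H z).transpose * J) * X z := by rw [hinv z hz, one_mul]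
    _ = _ := by simp only [Matrix.mul_assoc]

/-- **even order** -/
theorem core_even {J A : Matrix (Fin n) (Fin n) ℂ} {u e : Fin n → ℂ} {H : ℕ → Matrix (Fin n) (Fin n) ℂ} (hn : 2 ≤ n)
    (hJ : J.transpose = -J) (hdet : J.det ≠ 0) (hA : A ^ n = 0) (hAJ : A.transpose * J + J * A = 0)
    (hH : Sol A (-vecMulVec u (u ᵥ* J)) H) (hAe : A *ᵥ e = 0)
    (hcyc : ∀ v, om J v e ≠ 0 → om J v ((A ^ (n - 1)) *ᵥ v) ≠ 0) (i0 : Fin n)
    (hsing : ∀ g : ℂ → ℂ, AnalyticOnNhd ℂ g (Metric.ball 1 1) → (∀ z ∈ Lens, (Hf H z *ᵥ e) i0 = g z) → False) :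
    ∃ (v ψ : Fin n → ℂ) (R R' : Matrix (Fin n) (Fin n) ℂ) (Z : ℂ → Matrix (Fin n) (Fin n) ℂ),
      Core A (-vecMulVec u (u ᵥ* J)) J H v ψ R R' Z := by
  set B : Matrix (Fin n) (Fin n) ℂ := -vecMulVec u (u ᵥ* J) with hBdef
  have hnB : -B = vecMulVec u (u ᵥ* J) := by rw [hBdef, neg_neg]
  have hB : (-B) ^ n = 0 := by rw [hnB]; exact tv_pow hJ u hn
  have hBJ : B.transpose * J + J * B = 0 := by
    rw [hBdef, transpose_neg, neg_mul, mul_neg, ← neg_add, tv_skew hJ, neg_zero]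
  obtain ⟨K, hK⟩ := exists_sol hB (-A)
  have hKg : ∀ i j, PG fun k => K k i j := fun i j => hK.growth hB i j
  obtain ⟨M, Mi, hMMi, hMiM, hMJ, hconn⟩ := connect hdet hA hAJ hB hBJ hH hK
  have hMiJ : Mi.transpose * J * Mi = J := by
    calc Mi.transpose * J * Mi = Mi.transpose * (M.transpose * J * M) * Mi := by rw [hMJ]
      _ = (M * Mi).transpose * J * (M * Mi) := by rw [transpose_mul]; simp only [Matrix.mul_assoc]
      _ = J := by rw [hMMi, transpose_one, one_mul, mul_one]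
  set v : Fin n → ℂ := Mi *ᵥ u with hv
  have hEtv : ∀ s, Mi * E (-B) s * M = tv J v s := by
    intro s
    rw [hnB, E_tv hn hJ, tv_conj Mi M hMiM hMiJ]
  -- vectors orthogonal to `v`
  have hom : ∀ b, om J v b = 0 → ∀ s, E (-B) s *ᵥ (M *ᵥ b) = M *ᵥ b := by
    intro b hb s
    have h2 : om J u (M *ᵥ b) = 0 := by
      have h3 : om J (Mi *ᵥ u) (Mi *ᵥ (M *ᵥ b)) = om J u (M *ᵥ b) := by
        unfold om
        rw [mulVec_mulVec, ← vecMul_transpose, ← dotProduct_mulVec, mulVec_mulVec, ← Matrix.mul_assoc, hMiJ]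
      rw [← h3, mulVec_mulVec b Mi M, hMiM, one_mulVec]
      exact hb
    refine E_fix ?_ s
    rw [hnB, vecMulVec_mulVec, ← om_eq, h2]
    simp
  have hker : ∀ b : Fin n → ℂ, om J v b = 0 → ∀ z ∈ Lens, Yf A H z *ᵥ b = Hf K (1 - z) *ᵥ (M *ᵥ b) := by
    intro b hb z hz
    rw [hconn z hz]
    unfold Yf
    rw [← mulVec_mulVec, ← mulVec_mulVec, hom b hb]
  have hve : om J v e ≠ 0 := by
    intro h3
    refine hsing (fun z => (Hf K (1 - z) *ᵥ (M *ᵥ e)) i0) (one_sub_an hKg _ _) fun z hz => ?_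
    have h4 := hker e h3 z hz
    unfold Yf at h4
    rw [← mulVec_mulVec, E_fix hAe] at h4
    rw [h4]
  have hpi : (-(2 * Real.pi * Complex.I) : ℂ) ≠ 0 := by
    have := Complex.two_pi_I_ne_zero
    exact neg_ne_zero.2 this
  set Z : ℂ → Matrix (Fin n) (Fin n) ℂ := fun t => Hf K (Complex.exp (-2 * t)) * E (-B) (-2 * t) * M with hZd
  have hreal : ∀ t : ℝ, 0 < t → Z t = Yf A H (1 - Complex.exp (-2 * t)) := by
    intro t ht
    obtain ⟨h1, h2⟩ := exp_Lens ht
    rw [hconn _ h1, sub_sub_cancel]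
    unfold Yf
    have h3 : Complex.exp (-2 * (t : ℂ)) = ((Real.exp (-2 * t) : ℝ) : ℂ) := by push_cast; rfl
    have h4 : Complex.log (Complex.exp (-2 * (t : ℂ))) = -2 * t := by
      rw [h3, ← Complex.ofReal_log (Real.exp_pos _).le, Real.log_exp]
      push_cast
      rfl
    rw [h4]
  have hshift : ∀ τ : ℂ, Complex.exp (-2 * τ) = 1 → ∀ t : ℝ, 0 < t →
      Z (t + τ) = Yf A H (1 - Complex.exp (-2 * t)) * tv J v (-2 * τ) := by
    intro τ h1 t ht
    rw [← hreal t ht, hZd, ← hEtv]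
    simp only
    rw [mul_add, Complex.exp_add, h1, mul_one, E_add hB]
    calc _ = Hf K (Complex.exp (-2 * t)) * (E (-B) (-2 * t) * (M * Mi) * E (-B) (-2 * τ)) * M := by rw [hMMi, mul_one]
      _ = _ := by simp only [Matrix.mul_assoc]
  refine ⟨v, (-(2 * Real.pi * Complex.I) : ℂ) • (v ᵥ* J), tv J v (-(2 * Real.pi * Complex.I)), tv J v (2 * Real.pi * Complex.I), Z,
    ⟨hA, hH, fun i j => ?_, hreal, fun t ht => ?_, fun t ht => ?_, ?_, ?_, ?_, fun b hb i => ?_,
      fun S hS hE hRS hRS' g hg => ?_, fun X hX => const_of_skew hdet hA hAJ hBJ hH X hX⟩⟩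
  · show (fun t => (Hf K (Complex.exp (-2 * t)) * E (-B) (-2 * t) * M) i j) ∈ AnA HPl
    simp only [Matrix.mul_apply]
    refine sum_mem' _ _ fun l _ => (AnA HPl).mul_mem (sum_mem' _ _ fun k _ => (AnA HPl).mul_mem (exp_an hKg i k) ?_)
      (const_mem _ _)
    exact E_mem (AnA HPl) (f := fun t => -2 * t) (fun t _ => analyticAt_const.mul analyticAt_id) _ _ _
  · rw [hshift _ (by
      have : -2 * (Complex.I * Real.pi) = -(2 * Real.pi * Complex.I) := by ring
      rw [this, Complex.exp_neg, Complex.exp_two_pi_mul_I, inv_one]) t ht]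
    congr 2
    ring
  · rw [hshift _ (by
      have : -2 * -(Complex.I * Real.pi) = 2 * Real.pi * Complex.I := by ring
      rw [this, Complex.exp_two_pi_mul_I]) t ht]
    congr 2
    ring
  · have h1 := tv_mul_neg hJ v (-(2 * Real.pi * Complex.I))
    rwa [neg_neg] at h1
  · unfold tv
    rw [vecMulVec_smul]
  · intro h0
    apply hcyc v hve
    rw [h0]
    unfold om
    simp
  · have hb' : om J v b = 0 := by
      rw [smul_dotProduct, smul_eq_mul, ← om_eq] at hb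
      exact (mul_eq_zero.1 hb).resolve_left hpi
    exact ⟨_, one_sub_an hKg (M *ᵥ b) i, fun z hz => by rw [hker b hb' z hz]⟩
  · have hMe : ∀ c : ℂ, (1 + (X : ℂ[X]) • (vecMulVec v (v ᵥ* J)).map C : Matrix (Fin n) (Fin n) ℂ[X]).map (Polynomial.eval c) =
        tv J v c := by
      intro c
      ext l k
      unfold tv
      simp only [Matrix.map_apply, Matrix.add_apply, Matrix.smul_apply, smul_eq_mul, Polynomial.eval_add,
        Polynomial.eval_mul, Polynomial.eval_X, Polynomial.eval_C]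
      congr 1
      rw [Matrix.one_apply, Matrix.one_apply]
      split_ifs <;> simp
    have hpow : ∀ m : ℕ, tv J v ((m : ℂ) * -(2 * Real.pi * Complex.I)) ∈ S := by
      intro m
      induction m with
      | zero =>
        have : tv J v (((0 : ℕ) : ℂ) * -(2 * Real.pi * Complex.I)) = 1 := by
          unfold tv
          simp
        rw [this]
        exact one_mem _
      | succ m ih =>
        have : tv J v (((m + 1 : ℕ) : ℂ) * -(2 * Real.pi * Complex.I)) =
            tv J v ((m : ℂ) * -(2 * Real.pi * Complex.I)) * tv J v (-(2 * Real.pi * Complex.I)) := by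
          rw [← hEtv, ← hEtv, ← hEtv]
          have e1 : ((m + 1 : ℕ) : ℂ) * -(2 * Real.pi * Complex.I) = (m : ℂ) * -(2 * Real.pi * Complex.I) +
              -(2 * Real.pi * Complex.I) := by push_cast; ring
          rw [e1, E_add hB]
          calc _ = Mi * (E (-B) ((m : ℂ) * -(2 * Real.pi * Complex.I)) * (M * Mi) * E (-B) (-(2 * Real.pi * Complex.I))) * M := by
                rw [hMMi, mul_one]
            _ = _ := by simp only [Matrix.mul_assoc]
        rw [this]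
        exact mul_mem ih hRS
    have hall : ∀ c, tv J v c ∈ S := by
      intro c
      have h1 := hS (1 + (X : ℂ[X]) • (vecMulVec v (v ᵥ* J)).map C) 1
        (Set.range fun m : ℕ => (m : ℂ) * -(2 * Real.pi * Complex.I)) (Set.infinite_range_of_injective fun a b hab => by
          have := mul_right_cancel₀ hpi hab
          exact_mod_cast this) (fun c hc => by
          obtain ⟨m, rfl⟩ := hc
          refine ⟨by simp, ?_⟩
          rw [eval_one, inv_one, one_smul, hMe]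
          exact hpow m) c (by simp)
      rw [eval_one, inv_one, one_smul, hMe] at h1
      exact h1
    refine sp_all hJ hA hAJ (hcyc v hve) S hE hall (fun N hN => ?_) hdet g hg
    have h1 := hS N 1 {0}ᶜ (Set.finite_singleton (0 : ℂ)).infinite_compl (fun c hc => by
      refine ⟨by simp, ?_⟩
      rw [eval_one, inv_one, one_smul]
      exact hN c hc) 0 (by simp)
    rw [eval_one, inv_one, one_smul] at h1
    exact h1

end Run7.h893.MX
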