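import Pool.Agent.Run7.h893.MX.Part

/-!
# Self-dual hypergeometric families with inhomogeneous solutions
-/

set_option autoImplicit false

open Filter Topology Matrix Pool.Agent.Y119.HY

namespace Run7.h893.MX

open Run7.h893.HO
open Pool.Agent.Y119.HZ (Hp QD_QB)

variable {n : ℕ} {Q : Polynomial ℚ} {J0 : Matrix (Fin n) (Fin n) ℂ} {B : ℂ → Matrix (Fin n) (Fin n) ℂ}

/-- self-dual families with the local structure at `1` -/
structure FamX (n : ℕ) (Q : Polynomial ℚ) (J0 : Matrix (Fin n) (Fin n) ℂ) (B : ℂ → Matrix (Fin n) (Fin n) ℂ) : Prop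
    extends Fam n Q J0 B where
  core : ∃ (v ψ : Fin n → ℂ) (R R' : Matrix (Fin n) (Fin n) ℂ) (Z : ℂ → Matrix (Fin n) (Fin n) ℂ),
    Core (cm (Am n)) (cm (Bm n Q)) J0 (Hc n Q) v ψ R R' Z
  part : ∀ r : ℚ, ∃ K : ℕ → Matrix (Fin (n + 1)) (Fin (n + 1)) ℂ, Sol (-Bx n Q r) (-Ax n r) K ∧ ∀ i j, PG fun k => K k i j

theorem FamX.ofD {n : ℕ} {Q : Polynomial ℚ} (hQ : QD n Q) (hF : Fam n Q (cm (Jm n Q)) (fun _ => cm (Jm n Q))) :
    FamX n Q (cm (Jm n Q)) (fun _ => cm (Jm n Q)) where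
  toFam := hF
  core := by
    have hn := hQ.two
    have hs := sol_c hQ
    rw [cm_Bm hQ] at hs ⊢
    refine core_even hn (Jc_skew hQ) (Jc_det hQ) Ac_nil Jc_rel hs (Ac_ec n) (fun v hv => ?_) ⟨0, by omega⟩
      (fun g hg hext => sing hQ g hg hext)
    have h1 := hv
    rw [om_ec hQ] at h1
    rw [Ac_last hn, om_smul]
    exact mul_ne_zero (left_ne_zero_of_mul h1) hv
  part := by
    intro r
    have hn := hQ.two
    have hodd : Q.coeff (n - 1) = 0 := by
      refine hQ.sym _ ?_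
      obtain ⟨m, hm⟩ := hQ.even
      exact ⟨m - 1, by omega⟩
    have hnil : (-Bx n Q r) ^ (n + 1) = 0 := by
      have h1 : (-Bx n Q r) ^ 2 = 0 := by
        rw [sq, neg_mul_neg, Bx_sq hn, hodd, Rat.cast_zero, zero_smul]
      exact pow_eq_zero_of_le (by omega) h1
    obtain ⟨K, hK⟩ := exists_sol hnil (-Ax n r)
    exact ⟨K, hK, fun i j => hK.growth hnil i j⟩

theorem FamX.ofO {n : ℕ} {Q : Polynomial ℚ} (hQ : QO n Q)
    (hF : Fam n Q (cm (J0m n)) (Bz (cm (J0m n)) (cm (J1m n Q)))) :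
    FamX n Q (cm (J0m n)) (Bz (cm (J0m n)) (cm (J1m n Q))) where
  toFam := hF
  core := by
    have hn := hQ.two
    obtain ⟨v, ψ, R, Z, h⟩ := core_odd (comp_q hQ) hQ.odd (phi_uc hQ) (Bm_phi hQ) (sol_c_g hQ.toQG) (Ac_ec n) (fun v hv => by
      rw [Ac_last hn]
      rw [om_e0 (by omega)] at hv
      intro h0
      rcases smul_eq_zero.1 h0 with h1 | h1
      · rw [h1, zero_mul] at hv
        exact hv rfl
      · have h2 := congrFun h1 ⟨0, by omega⟩
        unfold ec at h2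
        simp at h2) ⟨0, by omega⟩ (fun g hg hext => sing_g hQ.toQG g hg hext)
    exact ⟨v, ψ, R, R, Z, h⟩
  part := by
    intro r
    have hn := hQ.two
    have hBB : (-Bx n Q r) * (-Bx n Q r) = (-(n : ℂ) / 2) • (-Bx n Q r) := by
      rw [neg_mul_neg, Bx_sq hn, hQ.half, smul_neg, ← neg_smul]
      congr 1
      push_cast
      ring
    obtain ⟨K, hK⟩ := exists_sol' hQ.odd hBB (-Ax n r)
    exact ⟨K, hK, fun i j => growth' hK hQ.odd hBB i j⟩

/-- **the decomposition of the inhomogeneous solutions** -/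
theorem FamX.inh (hF : FamX n Q J0 B) {s q : ℕ} (hq : 1 ≤ q) {ρ : Fin s → ℕ} {r : Fin s → ℚ} (hr : ∀ j, r j = (ρ j : ℚ) / q)
    (hρ : ∀ j, 0 < ρ j)
    (hconst : ∀ X : ℂ → Matrix (Fin n) (Fin n) ℂ, (∀ z ∈ Lens, HD X (Gm (cm (Am n)) (cm (Bm n Q)) z * X z) z) →
      ∃ c, ∀ z ∈ Lens, X z = Yf (cm (Am n)) (Hc n Q) z * c) :
    ∃ (U : Fin s → Fin n → ℂ → ℂ) (b : Fin s → Fin n → ℂ),
      Inh (cm (Am n)) (Hc n Q) q ρ (fun j i => wf n Q (r j) i) U b := by
  have hQ := hF.g
  have hn := hQ.two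
  have hq0 : (0 : ℚ) < q := by exact_mod_cast hq
  have hr0 : ∀ j, 0 < r j := fun j => by
    rw [hr j]
    have : (0 : ℚ) < ρ j := by exact_mod_cast hρ j
    positivity
  have hex : ∀ j, ∃ (U : ℕ → ℂ → ℂ) (b : Fin n → ℂ), (∀ i, AnalyticOnNhd ℂ (U i) (Metric.ball 1 1)) ∧
      ∀ i : Fin n, ∀ z ∈ Lens, Complex.exp (((r j : ℚ) : ℂ) * Complex.log z) * wf n Q (r j) i z = U i z +
        (Yf (cm (Am n)) (Hc n Q) z *ᵥ b) i := by
    intro j
    obtain ⟨K, hK, hKg⟩ := hF.part (r j)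
    obtain ⟨U, hU, hUd⟩ := exists_part hQ hK hKg
    set X : ℂ → Matrix (Fin n) (Fin n) ℂ := fun z => Matrix.of fun i _ =>
      Complex.exp (((r j : ℚ) : ℂ) * Complex.log z) * wf n Q (r j) i z - U i z with hX
    have hXd : ∀ z ∈ Lens, HD X (Gm (cm (Am n)) (cm (Bm n Q)) z * X z) z := by
      intro z hz i l
      have hz1 := (mem_Lens.1 hz).1
      have hz0 := (Lens_ne hz).1
      have hz2 := (Lens_ne hz).2
      have hwd : HasDerivAt (wf n Q (r j) i) (deriv (wf n Q (r j) i) z) z :=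
        (wf_an hQ (hr0 j) i z (by rwa [Metric.mem_ball, dist_zero_right])).differentiableAt.hasDerivAt
      have hed : HasDerivAt (fun z => Complex.exp (((r j : ℚ) : ℂ) * Complex.log z))
          (Complex.exp (((r j : ℚ) : ℂ) * Complex.log z) * (((r j : ℚ) : ℂ) * z⁻¹)) z :=
        ((Complex.hasDerivAt_log (slit_Lens hz)).const_mul _).cexp
      have h1 := (hed.mul hwd).sub (hUd i i.2 z hz)
      refine h1.congr_deriv ?_
      set e := Complex.exp (((r j : ℚ) : ℂ) * Complex.log z) with he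
      have hup := wf_up hQ (hr0 j) i hz1
      have hA : ∑ k, cm (Am n) i k * X z k l = if (i : ℕ) + 1 < n then e * wf n Q (r j) ((i : ℕ) + 1) z - U ((i : ℕ) + 1) z
          else 0 := by
        by_cases h2 : (i : ℕ) + 1 < n
        · rw [if_pos h2, Finset.sum_eq_single ⟨(i : ℕ) + 1, h2⟩]
          · rw [cm_apply]
            unfold Am
            rw [Matrix.of_apply, if_pos rfl, Rat.cast_one, one_mul]
            rfl
          · intro k _ hk
            rw [cm_apply]
            unfold Am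
            rw [Matrix.of_apply, if_neg, Rat.cast_zero, zero_mul]
            intro h3
            exact hk (Fin.ext h3)
          · intro h3
            exact absurd (Finset.mem_univ _) h3
        · rw [if_neg h2]
          refine Finset.sum_eq_zero fun k _ => ?_
          rw [cm_apply]
          unfold Am
          rw [Matrix.of_apply, if_neg, Rat.cast_zero, zero_mul]
          have := k.2
          omega
      have hB : ∑ k, cm (Bm n Q) i k * X z k l = if (i : ℕ) + 1 = n then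
          e * (∑ k ∈ Finset.range n, ((Q.coeff k : ℚ) : ℂ) * wf n Q (r j) k z) - ∑ k ∈ Finset.range n, ((Q.coeff k : ℚ) : ℂ) * U k z
          else 0 := by
        by_cases h2 : (i : ℕ) + 1 = n
        · rw [if_pos h2, Finset.mul_sum, ← Finset.sum_sub_distrib, Finset.sum_range]
          refine Finset.sum_congr rfl fun k _ => ?_
          rw [cm_apply]
          unfold Bm
          rw [Matrix.of_apply, if_pos h2]
          show ((Q.coeff k : ℚ) : ℂ) * (e * wf n Q (r j) k z - U k z) = _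
          ring
        · rw [if_neg h2]
          refine Finset.sum_eq_zero fun k _ => ?_
          rw [cm_apply]
          unfold Bm
          rw [Matrix.of_apply, if_neg h2, Rat.cast_zero, zero_mul]
      have hR : (Gm (cm (Am n)) (cm (Bm n Q)) z * X z) i l = (1 / z) * ∑ k, cm (Am n) i k * X z k l +
          (1 / (1 - z)) * ∑ k, cm (Bm n Q) i k * X z k l := by
        unfold Gm
        rw [add_mul, smul_mul_assoc, smul_mul_assoc, Matrix.add_apply, Matrix.smul_apply, Matrix.smul_apply, Matrix.mul_apply,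
          Matrix.mul_apply, smul_eq_mul, smul_eq_mul]
      rw [hR, hA, hB]
      by_cases h2 : (i : ℕ) + 1 < n
      · rw [if_pos h2, if_pos h2, if_neg (by omega), mul_zero, add_zero, ← hup]
        field_simp
        ring
      · have h3 : (i : ℕ) + 1 = n := by have := i.2; omega
        rw [if_neg h2, if_neg h2, if_pos h3, mul_zero, zero_add]
        have hlast := wf_last hQ (hr0 j) hz1
        rw [h3] at hup
        rw [← hup] at hlast
        field_simp
        linear_combination e * hlast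
    obtain ⟨c, hc⟩ := hconst X hXd
    refine ⟨U, fun i => c i ⟨0, by omega⟩, hU, fun i z hz => ?_⟩
    have h1 := congrFun (congrFun (hc z hz) i) ⟨0, by omega⟩
    have h2 : (Yf (cm (Am n)) (Hc n Q) z * c) i ⟨0, by omega⟩ = (Yf (cm (Am n)) (Hc n Q) z *ᵥ fun i => c i ⟨0, by omega⟩) i := by
      rw [Matrix.mul_apply, mv_apply]
    rw [h2] at h1
    rw [← h1]
    show _ = U i z + (Complex.exp (((r j : ℚ) : ℂ) * Complex.log z) * wf n Q (r j) i z - U i z)
    ring
  choose U b hU hUb using hex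
  refine ⟨fun j i => U j i, b, ⟨hq, fun j i => wf_an hQ (hr0 j) i, fun j i => hU j i, fun j i z hz => ?_⟩⟩
  have h1 := hUb j i z hz
  have h2 : (((r j : ℚ)) : ℂ) = (ρ j : ℂ) / q := by
    rw [hr j]
    push_cast
    rfl
  rw [h2] at h1
  exact h1

/-- **Invariance of the relations**: the values. -/
theorem FamX.val (hF : FamX n Q J0 B) {s q : ℕ} (hq : 1 ≤ q) {ρ : Fin s → ℕ} {r : Fin s → ℚ} (hr : ∀ j, r j = (ρ j : ℚ) / q)
    (hρ : Function.Injective ρ) (hρ1 : ∀ j, 0 < ρ j ∧ ρ j < q) (hne : ∀ j, ∀ l : ℕ, Q.eval ((l : ℚ) + r j) ≠ 0)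
    {F : Dm n s → ℂ} (hRl : F ∈ Rl q (Hf (Hc n Q)) (fun j i => wf n Q (r j) i)) {u : ℝ} (hu : 0 < u) (hu1 : u < 1)
    {g : Matrix (Fin n) (Fin n) ℂ} (hg : g.transpose * J0 * g = J0) (y : Fin s → Fin n → ℂ) :
    F ((u : ℂ), Hf (Hc n Q) ((u : ℂ) ^ q) * g, y) = 0 := by
  obtain ⟨v, ψ, R, R', Z, hC⟩ := hF.core
  obtain ⟨U, b, hI⟩ := hF.inh hq hr (fun j => (hρ1 j).1) hC.const
  have hn := hF.g.two
  have hq0 : (0 : ℚ) < q := by exact_mod_cast hq
  have hr0 : ∀ j, 0 < r j := fun j => by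
    rw [hr j]
    have : (0 : ℚ) < ρ j := by exact_mod_cast (hρ1 j).1
    positivity
  have huc : (u : ℂ) ≠ 0 := by exact_mod_cast hu.ne'
  have hun : ‖(u : ℂ)‖ < 1 := by rwa [Complex.norm_real, Real.norm_of_nonneg hu.le]
  refine mix_val (by omega) hC hI hρ hρ1 ⟨0, by omega⟩ (fun j g hg hext => sing_r hF.g (hr0 j) (hne j) g hg hext) hRl huc hun
    ?_ g hg y
  -- the determinant
  have hx : 0 < u ^ q := by positivity
  have hx1 : u ^ q < 1 := pow_lt_one₀ hu.le hu1 (by omega)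
  have h1 := hF.form (u ^ q) hx hx1
  intro h0
  have h2 := congrArg Matrix.det h1
  rw [det_mul, det_mul] at h2
  unfold Yf at h2
  rw [det_mul (Hf (Hc n Q) ((u ^ q : ℝ) : ℂ))] at h2
  have h3 : ((u ^ q : ℝ) : ℂ) = (u : ℂ) ^ q := by push_cast; rfl
  rw [h3, h0, zero_mul, mul_zero] at h2
  exact hF.det h2.symm

end Run7.h893.MX
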