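import Pool.Agent.Run7.h893.MX.Ari

/-!
# Galochkin's condition for inhomogeneous systems
-/

set_option autoImplicit false

open PowerSeries Finset.HasAntidiagonal
open Pool.Agent.Y113 hiding Bm
open Pool.Agent.Y113.HGG
open Pool.Agent.Y119.HZ
open Pool.Agent.Y119.HY (GP)

namespace Run7.h893.MX

variable {n : ℕ} {N : Matrix (Fin n) (Fin n) ℚ} {H W : Matrix (Fin n) (Fin n) ℚ⟦X⟧}
  {T₁ R₁ : Polynomial ℤ} {A : Fin n → Fin n → Polynomial ℤ} {S : Fin n → Polynomial ℤ} {w : Fin n → ℚ⟦X⟧} {r : ℚ}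

/-- the extended matrix -/
noncomputable def Aw (R₁ : Polynomial ℤ) (A : Fin n → Fin n → Polynomial ℤ) (S : Fin n → Polynomial ℤ) (i j : Fin (n + 1)) :
    Polynomial ℤ :=
  if hi : (i : ℕ) < n then (if hj : (j : ℕ) < n then A ⟨i, hi⟩ ⟨j, hj⟩ - (if (i : ℕ) = j then R₁ else 0) else S ⟨i, hi⟩) else 0

/-- the extended vector -/
noncomputable def bw (w : Fin n → ℚ⟦X⟧) (i : Fin (n + 1)) : ℚ⟦X⟧ := if hi : (i : ℕ) < n then w ⟨i, hi⟩ else 1

lemma Aw_cc (i j : Fin n) : Aw R₁ A S i.castSucc j.castSucc = A i j - (if i = j then R₁ else 0) := by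
  unfold Aw
  rw [dif_pos (by simp), dif_pos (by simp)]
  congr 1
  simp [Fin.ext_iff]

lemma Aw_cl (i : Fin n) : Aw R₁ A S i.castSucc (Fin.last n) = S i := by
  unfold Aw
  rw [dif_pos (by simp), dif_neg (by simp)]
  rfl

lemma Aw_l (j : Fin (n + 1)) : Aw R₁ A S (Fin.last n) j = 0 := by
  unfold Aw
  rw [dif_neg (by simp)]

lemma bw_c (i : Fin n) : bw w i.castSucc = w i := by
  unfold bw
  rw [dif_pos (by simp)]
  rfl

lemma bw_l : bw w (Fin.last n) = 1 := by
  unfold bw
  rw [dif_neg (by simp)]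

/-- the polynomials -/
noncomputable def Ah (T₁ R₁ : Polynomial ℤ) (A : Fin n → Fin n → Polynomial ℤ) (S : Fin n → Polynomial ℤ) (s : ℕ)
    (i j : Fin (n + 1)) : Polynomial ℚ := ah (Polynomial.X * T₁) (fun a b => Aw R₁ A S b a) s i j

lemma Ah_succ (s : ℕ) (i j : Fin (n + 1)) : Polynomial.C ((s : ℚ) + 1) * Ah T₁ R₁ A S (s + 1) i j =
    tq (Polynomial.X * T₁) * Polynomial.derivative (Ah T₁ R₁ A S s i j) -
      Polynomial.C (s : ℚ) * (Polynomial.derivative (tq (Polynomial.X * T₁)) * Ah T₁ R₁ A S s i j) +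
      ∑ l, tq (Aw R₁ A S l j) * Ah T₁ R₁ A S s i l := by
  unfold Ah
  rw [ah_succ, ← mul_assoc, ← Polynomial.C_mul]
  have : ((s : ℚ) + 1) ≠ 0 := by positivity
  rw [mul_one_div_cancel this, Polynomial.C_1, one_mul]
  rfl

lemma ah_succ' {m : ℕ} {T : Polynomial ℤ} {A : Fin m → Fin m → Polynomial ℤ} (s : ℕ) (i j : Fin m) :
    Polynomial.C ((s : ℚ) + 1) * ah T (fun a b => A b a) (s + 1) i j =
    tq T * Polynomial.derivative (ah T (fun a b => A b a) s i j) -
      Polynomial.C (s : ℚ) * (Polynomial.derivative (tq T) * ah T (fun a b => A b a) s i j) +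
      ∑ l, tq (A l j) * ah T (fun a b => A b a) s i l := by
  rw [ah_succ, ← mul_assoc, ← Polynomial.C_mul]
  have : ((s : ℚ) + 1) ≠ 0 := by positivity
  rw [mul_one_div_cancel this, Polynomial.C_1, one_mul]
  rfl

lemma Ah_l (s : ℕ) (j : Fin (n + 1)) : Ah T₁ R₁ A S s (Fin.last n) j = if s = 0 ∧ j = Fin.last n then 1 else 0 := by
  induction s generalizing j with
  | zero =>
    unfold Ah
    rw [ah_zero]
    simp [eq_comm]
  | succ s ih =>
    have h1 := Ah_succ (T₁ := T₁) (R₁ := R₁) (A := A) (S := S) s (Fin.last n) j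
    have hs : Polynomial.C ((s : ℚ) + 1) ≠ 0 := by
      rw [Ne, Polynomial.C_eq_zero]
      positivity
    rw [if_neg (by simp)]
    refine (mul_eq_zero.1 (h1.trans ?_)).resolve_left hs
    simp only [ih]
    have h2 : ∑ l, tq (Aw R₁ A S l j) * (if s = 0 ∧ l = Fin.last n then (1 : Polynomial ℚ) else 0) = 0 := by
      refine Finset.sum_eq_zero fun l _ => ?_
      split_ifs with h3
      · rw [h3.2, Aw_l]
        unfold tq
        rw [Polynomial.map_zero, zero_mul]
      · rw [mul_zero]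
    rw [h2]
    split_ifs with h3
    · rw [h3.1]
      simp
    · simp

/-- the shifted polynomials -/
noncomputable def as (T₁ : Polynomial ℤ) (A : Fin n → Fin n → Polynomial ℤ) (r : ℚ) (i k : Fin n) (s : ℕ) : Polynomial ℚ :=
  ∑ p ∈ antidiagonal s, ah (Polynomial.X * T₁) (fun a b => A b a) p.1 i k *
    (Polynomial.C (cr r p.2) * (T₁.map (Int.castRingHom ℚ)) ^ p.2)

lemma as_succ (i k : Fin n) (s : ℕ) : Polynomial.C ((s : ℚ) + 1) * as T₁ A r i k (s + 1) =
    tq (Polynomial.X * T₁) * Polynomial.derivative (as T₁ A r i k s) -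
      Polynomial.C (s : ℚ) * (Polynomial.derivative (tq (Polynomial.X * T₁)) * as T₁ A r i k s) +
      (∑ l, tq (A l k) * as T₁ A r i l s) - Polynomial.C r * (tq T₁ * as T₁ A r i k s) := by
  set t : Polynomial ℚ := tq T₁ with ht
  have htm : T₁.map (Int.castRingHom ℚ) = t := rfl
  have hT : tq (Polynomial.X * T₁) = Polynomial.X * t := by
    unfold tq
    rw [Polynomial.map_mul, Polynomial.map_X]
    rfl
  set h : ℕ → Fin n → Polynomial ℚ := fun p k => ah (Polynomial.X * T₁) (fun a b => A b a) p i k with hh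
  have hrec : ∀ (p : ℕ) (k : Fin n), Polynomial.C ((p : ℚ) + 1) * h (p + 1) k = Polynomial.X * t * Polynomial.derivative (h p k) -
      Polynomial.C (p : ℚ) * ((t + Polynomial.X * Polynomial.derivative t) * h p k) + ∑ l, tq (A l k) * h p l := by
    intro p k
    have h1 := ah_succ' (T := Polynomial.X * T₁) (A := A) p i k
    rw [hT, Polynomial.derivative_mul, Polynomial.derivative_X, one_mul] at h1
    exact h1
  have hc : ∀ q : ℕ, Polynomial.C ((q : ℚ) + 1) * Polynomial.C (cr r (q + 1)) =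
      -(Polynomial.C r + Polynomial.C (q : ℚ)) * Polynomial.C (cr r q) := by
    intro q
    rw [← Polynomial.C_mul, cr_succ, Polynomial.C_mul, Polynomial.C_neg, Polynomial.C_add]
  -- the left side
  have hL : Polynomial.C ((s : ℚ) + 1) * as T₁ A r i k (s + 1) =
      ∑ p ∈ antidiagonal s, (Polynomial.C ((p.1 : ℚ) + 1) * h (p.1 + 1) k * (Polynomial.C (cr r p.2) * t ^ p.2) +
        h p.1 k * (Polynomial.C ((p.2 : ℚ) + 1) * Polynomial.C (cr r (p.2 + 1)) * t ^ (p.2 + 1))) := by
    have e1 : Polynomial.C ((s : ℚ) + 1) * as T₁ A r i k (s + 1) =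
        ∑ p ∈ antidiagonal (s + 1), Polynomial.C (p.1 : ℚ) * (h p.1 k * (Polynomial.C (cr r p.2) * t ^ p.2)) +
        ∑ p ∈ antidiagonal (s + 1), Polynomial.C (p.2 : ℚ) * (h p.1 k * (Polynomial.C (cr r p.2) * t ^ p.2)) := by
      unfold as
      rw [Finset.mul_sum, ← Finset.sum_add_distrib]
      refine Finset.sum_congr rfl fun p hp => ?_
      rw [mem_antidiagonal] at hp
      have e2 : Polynomial.C ((s : ℚ) + 1) = Polynomial.C (p.1 : ℚ) + Polynomial.C (p.2 : ℚ) := by
        rw [← Polynomial.C_add]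
        congr 1
        have : ((p.1 + p.2 : ℕ) : ℚ) = ((s + 1 : ℕ) : ℚ) := by rw [hp]
        push_cast at this
        exact this.symm
      rw [e2, add_mul]
      rfl
    rw [e1, Finset.Nat.sum_antidiagonal_succ, Finset.Nat.sum_antidiagonal_succ' (f := fun p => Polynomial.C (p.2 : ℚ) *
      (h p.1 k * (Polynomial.C (cr r p.2) * t ^ p.2)))]
    simp only [Nat.cast_zero, map_zero, zero_mul, zero_add]
    rw [Finset.sum_add_distrib]
    congr 1
    · refine Finset.sum_congr rfl fun p _ => ?_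
      push_cast
      ring
    · refine Finset.sum_congr rfl fun p _ => ?_
      push_cast
      ring
  rw [hL, hT]
  have hD : Polynomial.X * t * Polynomial.derivative (as T₁ A r i k s) =
      ∑ p ∈ antidiagonal s, (Polynomial.C (cr r p.2) * t ^ p.2) * (Polynomial.X * t * Polynomial.derivative (h p.1 k) +
        Polynomial.C (p.2 : ℚ) * (Polynomial.X * Polynomial.derivative t * h p.1 k)) := by
    unfold as
    rw [Polynomial.derivative_sum, Finset.mul_sum]
    refine Finset.sum_congr rfl fun p _ => ?_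
    rw [Polynomial.derivative_mul, Polynomial.derivative_mul, Polynomial.derivative_C, zero_mul, zero_add,
      Polynomial.derivative_pow]
    show Polynomial.X * t * (Polynomial.derivative (h p.1 k) * (Polynomial.C (cr r p.2) * t ^ p.2) +
      h p.1 k * (Polynomial.C (cr r p.2) * (Polynomial.C (p.2 : ℚ) * t ^ (p.2 - 1) * Polynomial.derivative t))) = _
    rcases p.2 with _ | m
    · simp
      ring
    · rw [Nat.add_sub_cancel, pow_succ]
      ring
  have hS : ∑ l, tq (A l k) * as T₁ A r i l s = ∑ p ∈ antidiagonal s, (Polynomial.C (cr r p.2) * t ^ p.2) *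
      ∑ l, tq (A l k) * h p.1 l := by
    unfold as
    simp only [Finset.mul_sum]
    rw [Finset.sum_comm]
    refine Finset.sum_congr rfl fun p _ => Finset.sum_congr rfl fun l _ => ?_
    rw [htm]
    ring
  rw [hD, hS, Polynomial.derivative_mul, Polynomial.derivative_X, one_mul]
  unfold as
  rw [Finset.mul_sum, Finset.mul_sum, Finset.mul_sum, Finset.mul_sum, ← Finset.sum_sub_distrib, ← Finset.sum_add_distrib,
    ← Finset.sum_sub_distrib]
  refine Finset.sum_congr rfl fun p hp => ?_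
  rw [mem_antidiagonal] at hp
  have e2 : Polynomial.C (s : ℚ) = Polynomial.C (p.1 : ℚ) + Polynomial.C (p.2 : ℚ) := by
    rw [← Polynomial.C_add]
    congr 1
    rw [← hp]
    push_cast
    rfl
  have e3 : ah (Polynomial.X * T₁) (fun a b => A b a) p.1 i k = h p.1 k := rfl
  rw [hrec, hc, e2, htm, e3, pow_succ]
  ring

lemma Ah_cc (hR : tq R₁ = Polynomial.C r * tq T₁) (s : ℕ) (i k : Fin n) :
    Ah T₁ R₁ A S s i.castSucc k.castSucc = as T₁ A r i k s := by
  induction s generalizing k with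
  | zero =>
    unfold Ah as
    rw [ah_zero]
    simp [cr_zero, ah_zero]
  | succ s ih =>
    have hs : Polynomial.C ((s : ℚ) + 1) ≠ 0 := by
      rw [Ne, Polynomial.C_eq_zero]
      positivity
    refine mul_left_cancel₀ hs ?_
    rw [Ah_succ, as_succ, Fin.sum_univ_castSucc, Aw_l]
    simp only [Aw_cc, ih]
    have h0 : tq (0 : Polynomial ℤ) = 0 := Polynomial.map_zero _
    have h1 : ∀ l, tq (A l k - (if l = k then R₁ else 0)) * as T₁ A r i l s = tq (A l k) * as T₁ A r i l s -
        (if l = k then tq R₁ else 0) * as T₁ A r i l s := by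
      intro l
      unfold tq
      rw [Polynomial.map_sub, sub_mul]
      split_ifs
      · rfl
      · rw [Polynomial.map_zero]
    simp only [h1]
    rw [Finset.sum_sub_distrib, h0, zero_mul, add_zero]
    simp only [ite_mul, zero_mul]
    rw [Finset.sum_ite_eq' Finset.univ k, if_pos (Finset.mem_univ _), hR]
    ring

/-- the differential equation of the extended vector -/
lemma bw_ode (hw : ∀ i, ps T₁ * (X * d⁄dX ℚ (w i)) = ∑ k, ps (A i k) * w k - ps R₁ * w i + ps (S i)) (i : Fin (n + 1)) :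
    ps (Polynomial.X * T₁) * d⁄dX ℚ (bw w i) = ∑ k, ps (Aw R₁ A S i k) * bw w k := by
  have h0 : ps (0 : Polynomial ℤ) = 0 := by simp [ps]
  refine Fin.lastCases ?_ (fun i => ?_) i
  · rw [bw_l]
    simp only [Aw_l, h0, zero_mul, Finset.sum_const_zero]
    simp
  · rw [bw_c, Fin.sum_univ_castSucc, Aw_cl, bw_l, mul_one, ps_X_mul]
    simp only [Aw_cc, bw_c]
    have h1 : ∀ k, ps (A i k - (if i = k then R₁ else 0)) * w k = ps (A i k) * w k - (if i = k then ps R₁ else 0) * w k := by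
      intro k
      have h2 : ∀ a b : Polynomial ℤ, ps (a - b) = ps a - ps b := fun a b => by
        unfold ps
        rw [Polynomial.map_sub, Polynomial.coe_sub]
      rw [h2, sub_mul]
      split_ifs
      · rfl
      · rw [h0]
    simp only [h1]
    rw [Finset.sum_sub_distrib]
    simp only [ite_mul, zero_mul]
    rw [Finset.sum_ite_eq Finset.univ i, if_pos (Finset.mem_univ _), ← hw i]
    ring

/-- **Galochkin's condition** -/
theorem Ah_GP (hN : N ^ n = 0) (hHW : H * W = 1)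
    (hode : ∀ i j, ps T₁ * (X * d⁄dX ℚ (H i j) + ∑ k, H i k * C (N k j)) = ∑ k, ps (A i k) * H k j)
    (hH : ∀ i j, SDc (H i j)) (hW : ∀ i j, SDc (W i j)) (hr : 0 < r) (hr1 : r < 1) (hR : tq R₁ = Polynomial.C r * tq T₁)
    (hw : ∀ i, ps T₁ * (X * d⁄dX ℚ (w i)) = ∑ k, ps (A i k) * w k - ps R₁ * w i + ps (S i)) (hws : ∀ i, SDc (w i))
    {q : ℕ} {B : ℝ} (hB : 1 ≤ B) (hT : Bd q B (Polynomial.X * T₁)) (hA : ∀ i j, Bd q B (A i j))
    (hAw : ∀ i j, Bd q B (Aw R₁ A S i j)) (hT1 : T₁.natDegree ≤ q) (i k : Fin (n + 1)) :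
    GP q (fun s => Ah T₁ R₁ A S s i k) := by
  have hcc : ∀ i k : Fin n, GP q (fun s => Ah T₁ R₁ A S s i.castSucc k.castSucc) := by
    intro i k
    have h1 := ah_GP hN hHW hode hH hW hB hT hA i k
    have h2 : GP q (fun s => Polynomial.C (cr r s) * (T₁.map (Int.castRingHom ℚ)) ^ s) :=
      Pool.Agent.Y119.HY.GP.smul (c := fun s => cr r s) (cr_GP hr hr1) (Pool.Agent.Y119.HY.GP.pow hT1)
    have h3 := Pool.Agent.Y119.HY.GP.cauchy (P := fun s => ah (Polynomial.X * T₁) (fun a b => A b a) s i k)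
      (R := fun s => Polynomial.C (cr r s) * (T₁.map (Int.castRingHom ℚ)) ^ s) h1 h2
    simp only [Ah_cc hR]
    exact h3
  refine Fin.lastCases ?_ (fun i => ?_) i
  · -- the last row
    refine ⟨1, le_rfl, fun s => ?_, fun K => ⟨1, one_pos, by simp, fun s _ => ?_⟩⟩
    · show Bq (q * s) (1 ^ (s + 1)) (Ah T₁ R₁ A S s (Fin.last n) k)
      rw [Ah_l]
      split_ifs
      · exact Bq.one.mono (Nat.zero_le _) (by simp)
      · exact Bq.zero.mono (Nat.zero_le _) (by simp)
    · show IP 1 (Ah T₁ R₁ A S s (Fin.last n) k)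
      rw [Ah_l]
      split_ifs
      · exact IP.one 1
      · exact IP.zero 1
  refine Fin.lastCases ?_ (fun k => hcc i k) k
  -- the last column
  have hsize := ah_size (T := Polynomial.X * T₁) (A := fun a b => Aw R₁ A S b a) hB hT (fun i j => hAw j i)
  obtain ⟨Cw, hCw, -, hwd⟩ := Pool.Agent.Y119.HY.SDc.unif (y := w) hws
  obtain ⟨Ca, hCa, -, hip⟩ := Pool.Agent.Y119.HY.GP.unif (P := fun k : Fin n => fun s => Ah T₁ R₁ A S s i.castSucc k.castSucc)
    fun k => hcc i k
  have hc1 := one_le_cc (n + 1) q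
  have hCC : 1 ≤ (cc (n + 1) q : ℝ) * B := by nlinarith
  set G : ℝ := Cw ^ (q + 2) * Ca with hG
  have hG1 : 1 ≤ G := one_le_mul_of_one_le_of_one_le (one_le_pow₀ hCw) hCa
  refine ⟨(cc (n + 1) q * B) * G, one_le_mul_of_one_le_of_one_le hCC hG1, fun s => ?_, fun K => ?_⟩
  · refine (hsize s i.castSucc (Fin.last n)).mono le_rfl ?_
    calc ((cc (n + 1) q : ℝ) * B) ^ s ≤ ((cc (n + 1) q : ℝ) * B) ^ (s + 1) := pow_le_pow_right₀ hCC (Nat.le_succ s)
      _ ≤ _ := pow_le_pow_left₀ (by linarith) (le_mul_of_one_le_right (by linarith) hG1) _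
  · obtain ⟨dw, hdw0, hdw, hdw'⟩ := hwd (q * K + K)
    obtain ⟨da, hda0, hda, hda'⟩ := hip K
    refine ⟨dw * da, Nat.mul_pos hdw0 hda0, ?_, fun s hs => ?_⟩
    · push_cast
      have e1 : (dw : ℝ) ≤ (Cw ^ (q + 2)) ^ (K + 1) := by
        rw [← pow_mul]
        refine hdw.trans (pow_le_pow_right₀ hCw ?_)
        nlinarith
      calc (dw : ℝ) * da ≤ (Cw ^ (q + 2)) ^ (K + 1) * Ca ^ (K + 1) := mul_le_mul e1 hda (by positivity) (by positivity)
        _ = G ^ (K + 1) := by rw [hG, mul_pow]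
        _ ≤ _ := pow_le_pow_left₀ (by linarith) (le_mul_of_one_le_left (by linarith) hCC) _
    · have hrow := hd_row (T := Polynomial.X * T₁) (A := fun a b => Aw R₁ A S b a) (y := fun _ j => bw w j)
        (fun i j => by
          rw [bw_ode hw]
          exact Finset.sum_congr rfl fun k _ => mul_comm _ _) s i.castSucc i.castSucc
      rw [Fin.sum_univ_castSucc, bw_l, mul_one, bw_c] at hrow
      simp only [bw_c] at hrow
      have key : ((Ah T₁ R₁ A S s i.castSucc (Fin.last n) : Polynomial ℚ) : ℚ⟦X⟧) =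
          ps (Polynomial.X * T₁) ^ s * hd s (w i) -
            ∑ k : Fin n, ((Ah T₁ R₁ A S s i.castSucc k.castSucc : Polynomial ℚ) : ℚ⟦X⟧) * w k := by
        rw [hrow]
        unfold Ah
        ring
      have hIS : IS (q * K) (dw * da) ((Ah T₁ R₁ A S s i.castSucc (Fin.last n) : Polynomial ℚ) : ℚ⟦X⟧) := by
        rw [key]
        refine IS.sub ?_ (IS.sum _ fun k _ => ?_)
        · have h1 := (IS.ps_pow (q * K) (Polynomial.X * T₁) s).mul (Pool.Agent.Y113.HGG.IS.hd' (m := q * K) (k := K) (hdw' i) hs)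
          rw [one_mul] at h1
          have h2 := h1.mul_left da
          rwa [mul_comm da dw] at h2
        · obtain ⟨P', hP'⟩ := hda' k s hs
          have h1 : IS (q * K) da ((Ah T₁ R₁ A S s i.castSucc k.castSucc : Polynomial ℚ) : ℚ⟦X⟧) := by
            intro j _
            refine ⟨P'.coeff j, ?_⟩
            rw [Polynomial.coeff_coe, ← Polynomial.coeff_C_mul, ← hP', Polynomial.coeff_map]
            rfl
          have h2 : IS (q * K) dw (w k) := fun j hj => hdw' k j (by omega)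
          have h3 := h1.mul h2
          rwa [mul_comm da dw] at h3
      refine IP.of_coeff fun m => ?_
      by_cases hm : m ≤ q * s
      · obtain ⟨a, ha⟩ := hIS m (hm.trans (Nat.mul_le_mul_left q hs))
        exact ⟨a, by rw [← ha, Polynomial.coeff_coe]⟩
      · refine ⟨0, ?_⟩
        have h9 : (Ah T₁ R₁ A S s i.castSucc (Fin.last n)).coeff m = 0 :=
          Polynomial.coeff_eq_zero_of_natDegree_lt (lt_of_le_of_lt (hsize s i.castSucc (Fin.last n)).1 (by omega))
        show ((dw * da : ℕ) : ℚ) * (Ah T₁ R₁ A S s i.castSucc (Fin.last n)).coeff m = _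
        rw [h9]
        simp

/-- the derivatives of the extended vector -/
lemma bw_hd (hw : ∀ i, ps T₁ * (X * d⁄dX ℚ (w i)) = ∑ k, ps (A i k) * w k - ps R₁ * w i + ps (S i)) (s : ℕ)
    (i : Fin (n + 1)) : ps (Polynomial.X * T₁) ^ s * hd s (bw w i) =
      ∑ k, ((Ah T₁ R₁ A S s i k : Polynomial ℚ) : ℚ⟦X⟧) * bw w k :=
  hd_row (T := Polynomial.X * T₁) (A := fun a b => Aw R₁ A S b a) (y := fun _ j => bw w j)
    (fun i j => by
      rw [bw_ode hw]
      exact Finset.sum_congr rfl fun k _ => mul_comm _ _) s i i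

end Run7.h893.MX
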