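import Pool.Agent.Run7.h893.MX.Core

/-!
# Extensions of differential systems: the monodromy at the point `1`
-/

set_option autoImplicit false

open Filter Topology Matrix Polynomial Pool.Agent.Y119.HY

namespace Run7.h893.MX

open Run7.h893.HO (ZC)

variable {n s : ℕ}

lemma exp_HPl {t : ℂ} (ht : t ∈ HPl) : ‖Complex.exp (-2 * t)‖ < 1 := by
  rw [Complex.norm_exp, Real.exp_lt_one_iff]
  have h1 : (-2 * t).re = -2 * t.re := by simp
  have h2 : 0 < t.re := ht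
  rw [h1]
  linarith

lemma slit_HPl {t : ℂ} (ht : t ∈ HPl) : 1 - Complex.exp (-2 * t) ∈ Complex.slitPlane := by
  left
  have h1 := exp_HPl ht
  have h2 : (Complex.exp (-2 * t)).re ≤ ‖Complex.exp (-2 * t)‖ := Complex.re_le_norm _
  rw [Complex.sub_re, Complex.one_re]
  linarith

lemma isOpen_HPl : IsOpen HPl := isOpen_lt continuous_const Complex.continuous_re

lemma preconn_HPl : IsPreconnected HPl := (convex_halfSpace_re_gt 0).isPreconnected

/-- the identity theorem on the half plane -/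
lemma zero_HPl {F : ℂ → ℂ} (hF : AnalyticOnNhd ℂ F HPl) (h : ∀ t : ℝ, 0 < t → F t = 0) {t : ℂ} (ht : t ∈ HPl) : F t = 0 := by
  have h1 : (1 : ℂ) ∈ HPl := by
    show (0 : ℝ) < (1 : ℂ).re
    simp
  refine hF.eqOn_zero_of_preconnected_of_frequently_eq_zero preconn_HPl h1 ?_ ht
  rw [Filter.frequently_iff]
  intro W hW
  rw [mem_nhdsWithin_iff_exists_mem_nhds_inter] at hW
  obtain ⟨W', hW', hsub⟩ := hW
  obtain ⟨ε, hε, hball⟩ := Metric.mem_nhds_iff.1 hW'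
  refine ⟨((1 + ε / 2 : ℝ) : ℂ), hsub ⟨hball ?_, ?_⟩, h _ (by linarith)⟩
  · rw [Metric.mem_ball, dist_eq_norm]
    have : ((1 + ε / 2 : ℝ) : ℂ) - 1 = ((ε / 2 : ℝ) : ℂ) := by push_cast; ring
    rw [this, Complex.norm_real, Real.norm_of_nonneg (by linarith)]
    linarith
  · intro h2
    have h3 : ((1 + ε / 2 : ℝ) : ℂ) = 1 := h2
    have h4 : (1 + ε / 2 : ℝ) = 1 := by exact_mod_cast h3
    linarith

lemma AnA_log : (fun t : ℂ => Complex.log (1 - Complex.exp (-2 * t))) ∈ AnA HPl := fun t ht =>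
  (analyticAt_const.sub ((analyticAt_const.mul analyticAt_id).cexp)).clog (slit_HPl ht)

lemma E_mem {T : Type*} (𝓑 : Subalgebra ℂ (T → ℂ)) {f : T → ℂ} (hf : f ∈ 𝓑) (A : Matrix (Fin n) (Fin n) ℂ) (i j : Fin n) :
    (fun t => E A (f t) i j) ∈ 𝓑 := by
  unfold E
  simp only [Matrix.sum_apply, Matrix.smul_apply, smul_eq_mul]
  refine sum_mem' _ _ fun k _ => 𝓑.mul_mem ?_ (const_mem _ _)
  have h1 := 𝓑.mul_mem (pow_mem' 𝓑 hf k) (const_mem 𝓑 (k.factorial : ℂ)⁻¹)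
  exact h1

variable {A B J0 : Matrix (Fin n) (Fin n) ℂ} {H : ℕ → Matrix (Fin n) (Fin n) ℂ} {v ψ : Fin n → ℂ}
  {R R' : Matrix (Fin n) (Fin n) ℂ} {Z : ℂ → Matrix (Fin n) (Fin n) ℂ}
  {q : ℕ} {ρ : Fin s → ℕ} {w : Fin s → Fin n → ℂ → ℂ} {U : Fin s → Fin n → ℂ → ℂ} {b : Fin s → Fin n → ℂ}

/-- the inhomogeneous solutions -/
structure Inh (A : Matrix (Fin n) (Fin n) ℂ) (H : ℕ → Matrix (Fin n) (Fin n) ℂ) (q : ℕ) (ρ : Fin s → ℕ)
    (w U : Fin s → Fin n → ℂ → ℂ) (b : Fin s → Fin n → ℂ) : Prop where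
  pos : 1 ≤ q
  an : ∀ j i, AnalyticOnNhd ℂ (w j i) (Metric.ball 0 1)
  anU : ∀ j i, AnalyticOnNhd ℂ (U j i) (Metric.ball 1 1)
  eq : ∀ j i, ∀ z ∈ Lens, Complex.exp ((ρ j : ℂ) / q * Complex.log z) * w j i z = U j i z + (Yf A H z *ᵥ b j) i

theorem mono1 (hC : Core A B J0 H v ψ R R' Z) (hI : Inh A H q ρ w U b) {τ : ℂ} (hτ : Complex.exp (-2 * τ) = 1)
    (hτ0 : τ.re = 0) {M : Matrix (Fin n) (Fin n) ℂ}
    (hZ : ∀ t : ℝ, 0 < t → Z (t + τ) = Yf A H (1 - Complex.exp (-2 * t)) * M) {F : Dm n s → ℂ} (hF : F ∈ Rl q (Hf H) w)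
    {x : ℝ} (hx : 0 < x) (hx1 : x < 1) :
    F (Complex.exp (Complex.log x / q), Yf A H x * M * E A (-Complex.log x),
      fun j i => w j i x + (Complex.exp (Complex.log x / q) ^ ρ j)⁻¹ * (Yf A H x *ᵥ (M *ᵥ b j - b j)) i) = 0 := by
  have hq : (q : ℂ) ≠ 0 := by exact_mod_cast (by have := hI.pos; omega)
  set Lg : ℂ → ℂ := fun t => Complex.log (1 - Complex.exp (-2 * t)) with hLg
  set φ : ℂ → Dm n s := fun t => (Complex.exp (Lg t / q), Z t * E A (-Lg t),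
    fun j i => (Complex.exp (Lg t / q) ^ ρ j)⁻¹ * (U j i (1 - Complex.exp (-2 * t)) + (Z t *ᵥ b j) i)) with hφ
  have hLA : Lg ∈ AnA HPl := AnA_log
  have hexp : ∀ c : ℂ, (fun t => Complex.exp (c * Lg t)) ∈ AnA HPl := fun c =>
    ((AnA HPl).mul_mem (const_mem _ c) hLA : (fun t => c * Lg t) ∈ AnA HPl).cexp
  have e1 : ∀ t, Complex.exp (Lg t / q) = Complex.exp ((1 / (q : ℂ)) * Lg t) := fun t => by congr 1; ring
  have e2 : ∀ t, (Complex.exp (Lg t / q))⁻¹ = Complex.exp ((-1 / (q : ℂ)) * Lg t) := fun t => by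
    rw [← Complex.exp_neg]
    congr 1
    ring
  have han : (fun t => F (φ t)) ∈ AnA HPl := by
    refine Fn_comp φ (AnA HPl) (fun o => ?_) hF.1
    rcases o with _ | _ | ⟨i, j⟩ | ⟨j, i⟩
    · show (fun t => Complex.exp (Lg t / q)) ∈ _
      simp only [e1]
      exact hexp _
    · show (fun t => (Complex.exp (Lg t / q))⁻¹) ∈ _
      simp only [e2]
      exact hexp _
    · show (fun t => (Z t * E A (-Lg t)) i j) ∈ _
      simp only [Matrix.mul_apply]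
      refine sum_mem' _ _ fun k _ => (AnA HPl).mul_mem (hC.an i k) ?_
      exact E_mem (AnA HPl) (f := fun t => -Lg t) ((AnA HPl).neg_mem hLA) A k j
    · show (fun t => (Complex.exp (Lg t / q) ^ ρ j)⁻¹ * (U j i (1 - Complex.exp (-2 * t)) + (Z t *ᵥ b j) i)) ∈ _
      simp only [← inv_pow, e2]
      refine (AnA HPl).mul_mem (pow_mem' _ (hexp _) _) ((AnA HPl).add_mem ?_ ?_)
      · intro t ht
        have h3 : AnalyticAt ℂ (U j i) (1 - Complex.exp (-2 * t)) := hI.anU j i _ (by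
          rw [Metric.mem_ball, dist_comm, dist_eq_norm, sub_sub_cancel]
          exact exp_HPl ht)
        have h4 : AnalyticAt ℂ (fun t : ℂ => 1 - Complex.exp (-2 * t)) t :=
          analyticAt_const.sub ((analyticAt_const.mul analyticAt_id).cexp)
        exact AnalyticAt.fun_comp (g := U j i) (f := fun t : ℂ => 1 - Complex.exp (-2 * t)) h3 h4
      · simp only [Matrix.mulVec, dotProduct]
        exact sum_mem' _ _ fun k _ => (AnA HPl).mul_mem (hC.an i k) (const_mem _ _)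
  have hyL : ∀ t : ℝ, 0 < t → (1 - Complex.exp (-2 * t)) ∈ Lens ∧ Yf A H (1 - Complex.exp (-2 * t)) * E A (-Lg t) =
      Hf H (1 - Complex.exp (-2 * t)) := by
    intro t ht
    have h1 : 0 < 1 - Real.exp (-2 * t) := by
      have : Real.exp (-2 * t) < 1 := by rw [Real.exp_lt_one_iff]; linarith
      linarith
    have h2 : 1 - Real.exp (-2 * t) < 1 := by linarith [Real.exp_pos (-2 * t)]
    have h3 := real_mem_Lens h1 h2
    have h4 : (((1 - Real.exp (-2 * t) : ℝ)) : ℂ) = 1 - Complex.exp (-2 * t) := by push_cast; rfl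
    rw [h4] at h3
    refine ⟨h3, ?_⟩
    unfold Yf
    rw [Matrix.mul_assoc, E_mul_neg hC.nil, mul_one]
  have hexq : ∀ z : ℂ, z ∈ Lens → Complex.exp (Complex.log z / q) ^ q = z := by
    intro z hz
    rw [← Complex.exp_nat_mul, mul_div_cancel₀ _ hq, Complex.exp_log (Run7.h893.HO.Lens_ne hz).1]
  have hexρ : ∀ (z : ℂ) (j : Fin s), Complex.exp (Complex.log z / q) ^ ρ j = Complex.exp ((ρ j : ℂ) / q * Complex.log z) := by
    intro z j
    rw [← Complex.exp_nat_mul]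
    congr 1
    ring
  have hnorm : ∀ z : ℂ, z ∈ Lens → ‖Complex.exp (Complex.log z / q)‖ < 1 := by
    intro z hz
    have h1 : ‖Complex.exp (Complex.log z / q)‖ ^ q < 1 := by
      rw [← norm_pow, hexq z hz]
      exact (mem_Lens.1 hz).1
    by_contra h2
    exact absurd (one_le_pow₀ (not_lt.1 h2) (n := q)) (not_le.2 h1)
  have hzero : ∀ t : ℝ, 0 < t → F (φ t) = 0 := by
    intro t ht
    obtain ⟨hz, hYE⟩ := hyL t ht
    have h1 := hF.2 (Complex.exp (Lg t / q)) (Complex.exp_ne_zero _) (hnorm _ hz)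
    rw [hexq _ hz] at h1
    refine Eq.trans (congrArg F ?_) h1
    rw [hφ]
    refine Prod.ext rfl (Prod.ext ?_ ?_)
    · show Z t * E A (-Lg t) = Hf H (1 - Complex.exp (-2 * t))
      rw [hC.real t ht, hYE]
    · funext j i
      show (Complex.exp (Lg t / q) ^ ρ j)⁻¹ * (U j i (1 - Complex.exp (-2 * t)) + (Z t *ᵥ b j) i) = w j i (1 - Complex.exp (-2 * t))
      rw [hC.real t ht, ← hI.eq j i _ hz, hexρ, inv_mul_cancel_left₀ (Complex.exp_ne_zero _)]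
  have hall : ∀ t ∈ HPl, F (φ t) = 0 := fun t ht => zero_HPl han hzero ht
  -- the value on the other side
  set t : ℝ := -(1 / 2) * Real.log (1 - x) with ht
  have ht0 : 0 < t := by
    have : Real.log (1 - x) < 0 := Real.log_neg (by linarith) (by linarith)
    rw [ht]
    linarith
  have htx : 1 - Complex.exp (-2 * (t : ℂ)) = x := by
    have h1 : -2 * t = Real.log (1 - x) := by rw [ht]; ring
    have h2 : Real.exp (-2 * t) = 1 - x := by rw [h1, Real.exp_log (by linarith)]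
    have h3 : Complex.exp (-2 * (t : ℂ)) = ((Real.exp (-2 * t) : ℝ) : ℂ) := by push_cast; rfl
    rw [h3, h2]
    push_cast
    ring
  have h1 := hall (t + τ) (by
    show (0 : ℝ) < ((t : ℂ) + τ).re
    rw [Complex.add_re, hτ0, add_zero, Complex.ofReal_re]
    exact ht0)
  have e3 : Complex.exp (-2 * ((t : ℂ) + τ)) = Complex.exp (-2 * (t : ℂ)) := by
    rw [mul_add, Complex.exp_add, hτ, mul_one]
  have hxL := real_mem_Lens hx hx1
  refine Eq.trans (congrArg F ?_) h1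
  rw [hφ]
  have e4 : Lg (t + τ) = Complex.log x := by
    rw [hLg]
    simp only
    rw [e3, htx]
  refine Prod.ext ?_ (Prod.ext ?_ ?_)
  · show _ = Complex.exp (Lg (t + τ) / q)
    rw [e4]
  · show _ = Z (t + τ) * E A (-Lg (t + τ))
    rw [hZ t ht0, e4, htx]
  · funext j i
    show w j i x + (Complex.exp (Complex.log x / q) ^ ρ j)⁻¹ * (Yf A H x *ᵥ (M *ᵥ b j - b j)) i =
      (Complex.exp (Lg (t + τ) / q) ^ ρ j)⁻¹ * (U j i (1 - Complex.exp (-2 * (t + τ))) + (Z (t + τ) *ᵥ b j) i)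
    rw [e4, e3, hZ t ht0, htx, hexρ, mulVec_sub, mulVec_mulVec, Pi.sub_apply]
    have h5 := hI.eq j i _ hxL
    have h6 : w j i x = (Complex.exp ((ρ j : ℂ) / q * Complex.log x))⁻¹ * (U j i x + (Yf A H x *ᵥ b j) i) := by
      rw [← h5, inv_mul_cancel_left₀ (Complex.exp_ne_zero _)]
    rw [h6]
    ring

theorem mono2 (hC : Core A B J0 H v ψ R R' Z) (hI : Inh A H q ρ w U b) {τ : ℂ} (hτ : Complex.exp (-2 * τ) = 1)
    (hτ0 : τ.re = 0) {M : Matrix (Fin n) (Fin n) ℂ}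
    (hZ : ∀ t : ℝ, 0 < t → Z (t + τ) = Yf A H (1 - Complex.exp (-2 * t)) * M) {F : Dm n s → ℂ} (hF : F ∈ Rl q (Hf H) w)
    {u : ℂ} (hu : u ≠ 0) (hu1 : ‖u‖ < 1) (c : ℂ) :
    F (mv q ρ (Hf H) w (E A c * M * E A (-c)) (fun j => E A c *ᵥ (M *ᵥ b j - b j)) u) = 0 := by
  have hq0 : q ≠ 0 := by have := hI.pos; omega
  have hq : (q : ℂ) ≠ 0 := by exact_mod_cast hq0
  set φ : ℂ × ℂ → Dm n s := fun p => mv q ρ (Hf H) w (E A (q * p.2) * M * E A (-(q * p.2)))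
    (fun j => E A (q * p.2) *ᵥ (M *ᵥ b j - b j)) p.1 with hφ
  have hball : ∀ u : ℂ, u ∈ Metric.ball (0 : ℂ) 1 → u ^ q ∈ Metric.ball (0 : ℂ) 1 := by
    intro u hu
    rw [Metric.mem_ball, dist_zero_right] at hu ⊢
    rw [norm_pow]
    exact pow_lt_one₀ (norm_nonneg _) hu hq0
  have hfun : ∀ {f : ℂ → ℂ}, AnalyticOnNhd ℂ f (Metric.ball 0 1) → (fun p : ℂ × ℂ => f (p.1 ^ q)) ∈ LoA := by
    intro f hf
    refine ⟨0, fun u => C (f (u ^ q)), PA.ofFun fun u hu => ?_, fun u _ _ c => by rw [eval_C, pow_zero, one_mul]⟩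
    exact AnalyticAt.fun_comp (g := f) (f := fun u : ℂ => u ^ q) (hf _ (hball u hu)) (analyticAt_id.pow q)
  have hinv : (fun p : ℂ × ℂ => p.1⁻¹) ∈ LoA := ⟨1, fun _ => 1, PA.const _, fun u hu _ c => by
    rw [eval_one, pow_one, mul_inv_cancel₀ hu]⟩
  have hc : (fun p : ℂ × ℂ => (q : ℂ) * p.2) ∈ LoA := ⟨0, fun _ => C (q : ℂ) * X, PA.const _, fun u _ _ c => by
    rw [eval_mul, eval_C, eval_X, pow_zero, one_mul]⟩
  have hHf : ∀ i j : Fin n, (fun p : ℂ × ℂ => Hf H (p.1 ^ q) i j) ∈ LoA := fun i j => hfun (Hf_an hC.sol hC.nil i j)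
  have hEm : ∀ i j : Fin n, (fun p : ℂ × ℂ => E A (q * p.2) i j) ∈ LoA := fun i j => E_mem LoA hc A i j
  have hEm' : ∀ i j : Fin n, (fun p : ℂ × ℂ => E A (-(q * p.2)) i j) ∈ LoA := fun i j =>
    E_mem LoA (f := fun p : ℂ × ℂ => -((q : ℂ) * p.2)) (LoA.neg_mem hc) A i j
  have hmem : (fun p => F (φ p)) ∈ LoA := by
    refine Fn_comp φ LoA (fun o => ?_) hF.1
    rcases o with _ | _ | ⟨i, j⟩ | ⟨j, i⟩
    · exact ⟨0, fun u => C u, PA.ofFun analyticOnNhd_id, fun u _ _ c => by rw [eval_C, pow_zero, one_mul]; rfl⟩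
    · exact hinv
    · show (fun p : ℂ × ℂ => (Hf H (p.1 ^ q) * (E A (q * p.2) * M * E A (-(q * p.2)))) i j) ∈ _
      simp only [Matrix.mul_apply]
      refine sum_mem' _ _ fun k _ => LoA.mul_mem (hHf i k) (sum_mem' _ _ fun l _ => LoA.mul_mem
        (sum_mem' _ _ fun m _ => LoA.mul_mem (hEm k m) (const_mem _ _)) (hEm' l j))
    · show (fun p : ℂ × ℂ => w j i (p.1 ^ q) + (p.1 ^ ρ j)⁻¹ * (Hf H (p.1 ^ q) *ᵥ (E A (q * p.2) *ᵥ (M *ᵥ b j - b j))) i) ∈ _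
      simp only [← inv_pow]
      refine LoA.add_mem (hfun (hI.an j i)) (LoA.mul_mem (pow_mem' _ hinv _) ?_)
      simp only [Matrix.mulVec, dotProduct]
      exact sum_mem' _ _ fun k _ => LoA.mul_mem (hHf i k) (sum_mem' _ _ fun l _ => LoA.mul_mem (hEm k l) (const_mem _ _))
  obtain ⟨D, p, hp, hpe⟩ := hmem
  have h0 := PA.log_zero hp (fun x hx hx1 => by
    have hxc : (x : ℂ) ≠ 0 := by exact_mod_cast hx.ne'
    have hxn : ‖(x : ℂ)‖ < 1 := by rwa [Complex.norm_real, Real.norm_of_nonneg hx.le]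
    rw [hpe x hxc hxn]
    refine mul_eq_zero_of_right _ ?_
    have hy : 0 < x ^ q := by positivity
    have hy1 : x ^ q < 1 := pow_lt_one₀ hx.le hx1 hq0
    have h1 := mono1 hC hI hτ hτ0 hZ hF hy hy1
    have e1 : Complex.log ((x ^ q : ℝ) : ℂ) = q * ((Real.log x : ℝ) : ℂ) := by
      rw [← Complex.ofReal_log hy.le, Real.log_pow]
      push_cast
      rfl
    have e2 : Complex.exp (Complex.log ((x ^ q : ℝ) : ℂ) / q) = x := by
      rw [e1, mul_div_cancel_left₀ _ hq, Complex.ofReal_log hx.le, Complex.exp_log hxc]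
    refine Eq.trans (congrArg F ?_) h1
    rw [hφ]
    refine Prod.ext ?_ (Prod.ext ?_ ?_)
    · show (x : ℂ) = _
      exact e2.symm
    · show Hf H ((x : ℂ) ^ q) * (E A (q * ((Real.log x : ℝ) : ℂ)) * M * E A (-(q * ((Real.log x : ℝ) : ℂ)))) =
        Yf A H ((x ^ q : ℝ) : ℂ) * M * E A (-Complex.log ((x ^ q : ℝ) : ℂ))
      unfold Yf
      rw [e1]
      push_cast
      simp only [Matrix.mul_assoc]
    · funext j i
      show w j i ((x : ℂ) ^ q) + ((x : ℂ) ^ ρ j)⁻¹ * (Hf H ((x : ℂ) ^ q) *ᵥ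
        (E A (q * ((Real.log x : ℝ) : ℂ)) *ᵥ (M *ᵥ b j - b j))) i = w j i ((x ^ q : ℝ) : ℂ) +
          (Complex.exp (Complex.log ((x ^ q : ℝ) : ℂ) / q) ^ ρ j)⁻¹ * (Yf A H ((x ^ q : ℝ) : ℂ) *ᵥ (M *ᵥ b j - b j)) i
      rw [e2]
      unfold Yf
      rw [e1, mulVec_mulVec]
      push_cast
      rfl)
  have h1 := h0 u (by rwa [Metric.mem_ball, dist_zero_right])
  have h2 := hpe u hu hu1 (c / q)
  rw [h1, eval_zero] at h2
  have h3 := (mul_eq_zero.1 h2.symm).resolve_left (pow_ne_zero _ hu)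
  have e3 : (q : ℂ) * (c / q) = c := mul_div_cancel₀ _ hq
  refine Eq.trans (congrArg F ?_) h3
  rw [hφ]
  simp only
  rw [e3]

/-- **the monodromy at `1` and the roots of unity** -/
theorem mono3 (hC : Core A B J0 H v ψ R R' Z) (hI : Inh A H q ρ w U b) {τ : ℂ} (hτ : Complex.exp (-2 * τ) = 1)
    (hτ0 : τ.re = 0) {M : Matrix (Fin n) (Fin n) ℂ}
    (hZ : ∀ t : ℝ, 0 < t → Z (t + τ) = Yf A H (1 - Complex.exp (-2 * t)) * M) {ζ : ℂ} (hζ : ζ ^ q = 1) (c : ℂ) :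
    InG q ρ (Hf H) w (E A c * M * E A (-c)) (fun j => ζ ^ ρ j • (E A c *ᵥ (M *ᵥ b j - b j))) := by
  intro F hF u hu hu1
  have hq0 : q ≠ 0 := by have := hI.pos; omega
  have hζ0 : ζ ≠ 0 := by
    intro h0
    rw [h0, zero_pow hq0] at hζ
    exact zero_ne_one hζ
  have hζn : ‖ζ‖ = 1 := by
    have h1 : ‖ζ‖ ^ q = 1 := by rw [← norm_pow, hζ, norm_one]
    exact (pow_eq_one_iff_of_nonneg (norm_nonneg _) hq0).1 h1
  set φ : Dm n s → Dm n s := fun d => (ζ * d.1, d.2) with hφ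
  have hmem : (fun d => F (φ d)) ∈ Fn n s := by
    refine Fn_comp φ (Fn n s) (fun o => ?_) hF.1
    rcases o with _ | _ | ⟨i, j⟩ | ⟨j, i⟩
    · exact (Fn n s).mul_mem (const_mem _ ζ) (co_mem none)
    · show (fun d : Dm n s => (ζ * d.1)⁻¹) ∈ _
      simp only [mul_inv]
      exact (Fn n s).mul_mem (const_mem _ ζ⁻¹) (co_mem (some none))
    · exact co_mem (some (some (.inl (i, j))))
    · exact co_mem (some (some (.inr (j, i))))
  have hRl : (fun d => F (φ d)) ∈ Rl q (Hf H) w := by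
    refine ⟨hmem, fun v hv hv1 => ?_⟩
    have h1 := hF.2 (ζ * v) (mul_ne_zero hζ0 hv) (by rwa [norm_mul, hζn, one_mul])
    rw [mul_pow, hζ, one_mul] at h1
    exact h1
  have h1 := mono2 hC hI hτ hτ0 hZ hRl (u := ζ⁻¹ * u) (mul_ne_zero (inv_ne_zero hζ0) hu)
    (by rwa [norm_mul, norm_inv, hζn, inv_one, one_mul]) c
  have e1 : (ζ⁻¹ * u) ^ q = u ^ q := by rw [mul_pow, inv_pow, hζ, inv_one, one_mul]
  refine Eq.trans (congrArg F ?_) h1
  unfold mv
  rw [hφ]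
  refine Prod.ext ?_ (Prod.ext ?_ ?_)
  · show u = ζ * (ζ⁻¹ * u)
    rw [mul_inv_cancel_left₀ hζ0]
  · show _ = Hf H ((ζ⁻¹ * u) ^ q) * _
    rw [e1]
  · funext j i
    show w j i (u ^ q) + (u ^ ρ j)⁻¹ * (Hf H (u ^ q) *ᵥ (ζ ^ ρ j • (E A c *ᵥ (M *ᵥ b j - b j)))) i =
      w j i ((ζ⁻¹ * u) ^ q) + ((ζ⁻¹ * u) ^ ρ j)⁻¹ * (Hf H ((ζ⁻¹ * u) ^ q) *ᵥ (E A c *ᵥ (M *ᵥ b j - b j))) i
    rw [e1, mulVec_smul, Pi.smul_apply, smul_eq_mul, mul_pow, mul_inv, inv_pow, inv_inv]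
    ring

/-- the coefficients of the inhomogeneous solutions are not zero -/
lemma psi_ne (hC : Core A B J0 H v ψ R R' Z) (hI : Inh A H q ρ w U b) (j : Fin s) (i : Fin n)
    (hsing : ∀ g : ℂ → ℂ, AnalyticOnNhd ℂ g (Metric.ball 1 1) → (∀ z ∈ Lens, w j i z = g z) → False) : ψ ⬝ᵥ b j ≠ 0 := by
  intro h0
  obtain ⟨g, hg, hgz⟩ := hC.ker (b j) h0 i
  refine hsing (fun z => Complex.exp (-((ρ j : ℂ) / q) * Complex.log z) * (U j i z + g z)) ?_ fun z hz => ?_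
  · refine AnalyticOnNhd.mul ?_ ((hI.anU j i).add hg)
    intro z hz
    refine (analyticAt_const.mul (analyticAt_id.clog ?_)).cexp
    left
    rw [Metric.mem_ball, dist_comm, dist_eq_norm] at hz
    have h1 : (1 - z).re ≤ ‖1 - z‖ := Complex.re_le_norm _
    rw [Complex.sub_re, Complex.one_re] at h1
    show 0 < z.re
    linarith
  · rw [← hgz z hz, ← hI.eq j i z hz, ← mul_assoc, ← Complex.exp_add]
    have : -((ρ j : ℂ) / q) * Complex.log z + (ρ j : ℂ) / q * Complex.log z = 0 := by ring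
    rw [this, Complex.exp_zero, one_mul]

/-- **All relations are invariant under all pairs.** -/
theorem mix_all (hn : 1 ≤ n) (hC : Core A B J0 H v ψ R R' Z) (hI : Inh A H q ρ w U b) (hρ : Function.Injective ρ)
    (hρ1 : ∀ j, 0 < ρ j ∧ ρ j < q) (i0 : Fin n)
    (hsing : ∀ j, ∀ g : ℂ → ℂ, AnalyticOnNhd ℂ g (Metric.ball 1 1) → (∀ z ∈ Lens, w j i0 z = g z) → False)
    (g : Matrix (Fin n) (Fin n) ℂ) (hg : g.transpose * J0 * g = J0) (a : Fin s → Fin n → ℂ) :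
    InG q ρ (Hf H) w g a := by
  have hq0 : q ≠ 0 := by have := hI.pos; omega
  set ξ : ℂ := Complex.exp (2 * Real.pi * Complex.I / q) with hξ
  have hprim : IsPrimitiveRoot ξ q := Complex.isPrimitiveRoot_exp q hq0
  refine all_pairs (q := q) (ρ := ρ) (J0 := J0) hn hC.nil hC.RR hC.rank hC.cyc hC.gen (fun j => ξ ^ ρ j) ?_ ?_ b
    (fun j => psi_ne hC hI j i0 (hsing j)) (fun c k => ?_) (fun c => ?_) g hg a
  · intro j j' h
    exact hρ (hprim.pow_inj (hρ1 j).2 (hρ1 j').2 h)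
  · intro j
    exact hprim.pow_ne_one_of_pos_of_lt (hρ1 j).1.ne' (hρ1 j).2
  · have h1 : Complex.exp (-2 * (Complex.I * Real.pi)) = 1 := by
      have : -2 * (Complex.I * Real.pi) = -(2 * Real.pi * Complex.I) := by ring
      rw [this, Complex.exp_neg, Complex.exp_two_pi_mul_I, inv_one]
    have h2 := mono3 hC hI (τ := Complex.I * Real.pi) h1 (by simp) (M := R) hC.shift (ζ := ξ ^ k) (by
      rw [← pow_mul, mul_comm, pow_mul, hprim.pow_eq_one, one_pow]) c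
    refine (congrArg (InG q ρ (Hf H) w _) ?_).mp h2
    funext j
    rw [← pow_mul, ← pow_mul, mul_comm k]
  · have h1 : Complex.exp (-2 * -(Complex.I * Real.pi)) = 1 := by
      have : -2 * -(Complex.I * Real.pi) = 2 * Real.pi * Complex.I := by ring
      rw [this, Complex.exp_two_pi_mul_I]
    have h2 := mono3 hC hI (τ := -(Complex.I * Real.pi)) h1 (by simp) (M := R') hC.shift' (ζ := 1) (one_pow q) c
    refine (congrArg (InG q ρ (Hf H) w _) ?_).mp h2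
    funext j
    rw [one_pow, one_smul]

/-- the values -/
theorem mix_val (hn : 1 ≤ n) (hC : Core A B J0 H v ψ R R' Z) (hI : Inh A H q ρ w U b) (hρ : Function.Injective ρ)
    (hρ1 : ∀ j, 0 < ρ j ∧ ρ j < q) (i0 : Fin n)
    (hsing : ∀ j, ∀ g : ℂ → ℂ, AnalyticOnNhd ℂ g (Metric.ball 1 1) → (∀ z ∈ Lens, w j i0 z = g z) → False)
    {F : Dm n s → ℂ} (hF : F ∈ Rl q (Hf H) w) {u : ℂ} (hu : u ≠ 0) (hu1 : ‖u‖ < 1) (hdet : (Hf H (u ^ q)).det ≠ 0)
    (g : Matrix (Fin n) (Fin n) ℂ) (hg : g.transpose * J0 * g = J0) (y : Fin s → Fin n → ℂ) :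
    F (u, Hf H (u ^ q) * g, y) = 0 := by
  have h1 := mix_all hn hC hI hρ hρ1 i0 hsing g hg
    (fun j => u ^ ρ j • ((Hf H (u ^ q))⁻¹ *ᵥ fun i => y j i - w j i (u ^ q))) F hF u hu hu1
  refine Eq.trans (congrArg F ?_) h1
  unfold mv
  refine Prod.ext rfl (Prod.ext rfl ?_)
  funext j i
  show y j i = w j i (u ^ q) + (u ^ ρ j)⁻¹ * (Hf H (u ^ q) *ᵥ (u ^ ρ j • ((Hf H (u ^ q))⁻¹ *ᵥ fun i => y j i - w j i (u ^ q)))) i
  rw [mulVec_smul, Pi.smul_apply, smul_eq_mul, inv_mul_cancel_left₀ (pow_ne_zero _ hu), mulVec_mulVec,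
    mul_nonsing_inv _ (Ne.isUnit hdet), one_mulVec]
  ring

end Run7.h893.MX
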