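import Pool.Agent.Run7.h893.MX.Sbs
import Mathlib.Combinatorics.Nullstellensatz

/-!
# Norms of polynomials under the extraction of roots
-/

set_option autoImplicit false

namespace Run7.h893.MX

section sp

lemma pow_fin (V : Submodule ℚ ℂ) [Module.Finite ℚ V] (m : ℕ) :
    Module.Finite ℚ (V ^ m : Submodule ℚ ℂ) ∧ Module.finrank ℚ (V ^ m : Submodule ℚ ℂ) ≤ (Module.finrank ℚ V) ^ m := by
  induction m with
  | zero =>
    rw [pow_zero, Submodule.one_eq_range]
    constructor
    · infer_instance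
    · refine (LinearMap.finrank_range_le _).trans ?_
      simp
  | succ k ih =>
    obtain ⟨h1, h2⟩ := ih
    rw [pow_succ, ← Submodule.mulMap_range]
    constructor
    · infer_instance
    · refine (LinearMap.finrank_range_le _).trans ?_
      rw [Module.finrank_tensorProduct, pow_succ]
      exact Nat.mul_le_mul h2 le_rfl

variable {κ : Type}

lemma CV.add {V : Submodule ℚ ℂ} {p q : MvPolynomial κ ℂ} (hp : CV V p) (hq : CV V q) : CV V (p + q) := fun m => by
  rw [MvPolynomial.coeff_add]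
  exact V.add_mem (hp m) (hq m)

lemma CV.zero {V : Submodule ℚ ℂ} : CV V (0 : MvPolynomial κ ℂ) := fun m => by
  rw [MvPolynomial.coeff_zero]
  exact V.zero_mem

lemma CV.sum {V : Submodule ℚ ℂ} {σ : Type*} (S : Finset σ) {p : σ → MvPolynomial κ ℂ} (h : ∀ i ∈ S, CV V (p i)) :
    CV V (∑ i ∈ S, p i) := fun m => by
  rw [MvPolynomial.coeff_sum]
  exact Submodule.sum_mem _ fun i hi => h i hi m

lemma CV.mul' {V W : Submodule ℚ ℂ} {p q : MvPolynomial κ ℂ} (hp : CV V p) (hq : CV W q) : CV (V * W) (p * q) := fun m => by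
  classical
  rw [MvPolynomial.coeff_mul]
  exact Submodule.sum_mem _ fun x _ => Submodule.mul_mem_mul (hp _) (hq _)

lemma CV.prod' {V : Submodule ℚ ℂ} {σ : Type*} (S : Finset σ) {p : σ → MvPolynomial κ ℂ} (h : ∀ i ∈ S, CV V (p i)) :
    CV (V ^ S.card) (∏ i ∈ S, p i) := by
  classical
  induction S using Finset.induction_on with
  | empty =>
    rw [Finset.prod_empty, Finset.card_empty, pow_zero]
    intro m
    rw [MvPolynomial.coeff_one]
    split_ifs
    · exact Submodule.one_le.1 le_rfl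
    · exact Submodule.zero_mem _
  | insert a S ha ih =>
    rw [Finset.prod_insert ha, Finset.card_insert_of_notMem ha, pow_succ, mul_comm (V ^ S.card)]
    exact (h a (Finset.mem_insert_self _ _)).mul' (ih fun i hi => h i (Finset.mem_insert_of_mem hi))

variable {W : Type} [Fintype W] [DecidableEq W]

lemma CV.det' {V : Submodule ℚ ℂ} {M : Matrix W W (MvPolynomial κ ℂ)} (h : ∀ i j, CV V (M i j)) :
    CV (V ^ Fintype.card W) M.det := by
  rw [Matrix.det_apply]
  refine CV.sum _ fun τ _ => ?_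
  have h1 := CV.prod' (Finset.univ : Finset W) (p := fun i => M (τ i) i) fun i _ => h _ _
  rw [Finset.card_univ] at h1
  intro m
  have h2 : (Equiv.Perm.sign τ • ∏ i, M (τ i) i).coeff m = (Equiv.Perm.sign τ : ℤ) • (∏ i, M (τ i) i).coeff m := by
    rw [Units.smul_def, MvPolynomial.coeff_smul]
  rw [h2]
  exact zsmul_mem (h1 m) _

lemma deg_det' {d : ℕ} {M : Matrix W W (MvPolynomial κ ℂ)} (h : ∀ i j, (M i j).totalDegree ≤ d) :
    M.det.totalDegree ≤ Fintype.card W * d := by
  rw [Matrix.det_apply']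
  refine (MvPolynomial.totalDegree_finsetSum _ _).trans (Finset.sup_le fun τ _ => ?_)
  refine (MvPolynomial.totalDegree_mul _ _).trans ?_
  have h3 : (((Equiv.Perm.sign τ : ℤ)) : MvPolynomial κ ℂ) = MvPolynomial.C (((Equiv.Perm.sign τ : ℤ) : ℂ)) := by simp
  rw [h3, MvPolynomial.totalDegree_C, zero_add]
  refine (MvPolynomial.totalDegree_finsetProd _ _).trans ?_
  refine (Finset.sum_le_sum fun i _ => h _ _).trans ?_
  rw [Finset.sum_const, Finset.card_univ, smul_eq_mul]

end sp

section nrm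

variable {κ : Type} {k q : ℕ}

/-- the weight of a monomial -/
noncomputable def wtm (e : κ → Fin k → ℕ) (m : κ →₀ ℕ) (i : Fin k) : ℕ := m.sum fun v c => c * e v i

/-- the scaled point -/
noncomputable def scl (e : κ → Fin k → ℕ) (u : Fin k → ℂ) (x : κ → ℂ) (v : κ) : ℂ := (∏ i, u i ^ e v i) * x v

/-- the matrix of the multiplication -/
noncomputable def Mn (q : ℕ) (e : κ → Fin k → ℕ) (τ : Fin k → ℚ) (P : MvPolynomial κ ℂ) :
    Matrix (Fin k → Fin q) (Fin k → Fin q) (MvPolynomial κ ℂ) :=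
  Matrix.of fun w w' => ∑ m ∈ P.support, if (fun i => (wtm e m i + w' i) % q) = (fun i => (w i : ℕ)) then
    MvPolynomial.monomial m (P.coeff m * ((∏ i, τ i ^ ((wtm e m i + w' i) / q) : ℚ) : ℂ)) else 0

variable {e : κ → Fin k → ℕ} {τ : Fin k → ℚ} {P : MvPolynomial κ ℂ}

lemma scl_mon (u : Fin k → ℂ) (x : κ → ℂ) (m : κ →₀ ℕ) :
    (m.prod fun v c => scl e u x v ^ c) = (∏ i, u i ^ wtm e m i) * m.prod fun v c => x v ^ c := by
  unfold scl wtm
  simp only [mul_pow, ← Finset.prod_pow, ← pow_mul]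
  unfold Finsupp.prod Finsupp.sum
  rw [Finset.prod_mul_distrib, Finset.prod_comm]
  congr 1
  refine Finset.prod_congr rfl fun i _ => ?_
  rw [Finset.prod_pow_eq_pow_sum]
  congr 1
  exact Finset.sum_congr rfl fun v _ => mul_comm _ _

/-- the multiplication -/
lemma Mn_key (hq : 1 ≤ q) {u : Fin k → ℂ} (hu : ∀ i, u i ^ q = ((τ i : ℚ) : ℂ)) (x : κ → ℂ) (w' : Fin k → Fin q) :
    ∑ w : Fin k → Fin q, (∏ i, u i ^ (w i : ℕ)) * MvPolynomial.eval x (Mn q e τ P w w') =
      (∏ i, u i ^ (w' i : ℕ)) * MvPolynomial.eval (scl e u x) P := by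
  classical
  have h1 : MvPolynomial.eval (scl e u x) P = ∑ m ∈ P.support, P.coeff m * ((∏ i, u i ^ wtm e m i) * m.prod fun v c => x v ^ c) := by
    rw [MvPolynomial.eval_eq]
    refine Finset.sum_congr rfl fun m _ => ?_
    rw [← scl_mon]
    rfl
  rw [h1]
  unfold Mn
  simp only [Matrix.of_apply, map_sum, Finset.mul_sum]
  rw [Finset.sum_comm]
  refine Finset.sum_congr rfl fun m _ => ?_
  have hw : ∀ i, (wtm e m i + w' i) % q < q := fun i => Nat.mod_lt _ (by omega)
  rw [Finset.sum_eq_single (fun i => (⟨(wtm e m i + w' i) % q, hw i⟩ : Fin q))]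
  · rw [if_pos rfl, MvPolynomial.eval_monomial]
    have h2 : ∀ i, u i ^ ((wtm e m i + w' i) % q) * ((τ i : ℚ) : ℂ) ^ ((wtm e m i + w' i) / q) =
        u i ^ (w' i : ℕ) * u i ^ wtm e m i := by
      intro i
      rw [← hu i, ← pow_mul, ← pow_add, ← pow_add, Nat.mod_add_div]
      congr 1
      omega
    have h3 : (∏ i, u i ^ ((wtm e m i + w' i) % q)) * ((∏ i, τ i ^ ((wtm e m i + w' i) / q) : ℚ) : ℂ) =
        (∏ i, u i ^ (w' i : ℕ)) * ∏ i, u i ^ wtm e m i := by
      push_cast
      rw [← Finset.prod_mul_distrib, ← Finset.prod_mul_distrib]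
      exact Finset.prod_congr rfl fun i _ => h2 i
    calc (∏ i, u i ^ ((wtm e m i + w' i) % q)) * (P.coeff m * ((∏ i, τ i ^ ((wtm e m i + w' i) / q) : ℚ) : ℂ) *
          m.prod fun v c => x v ^ c) =
          ((∏ i, u i ^ ((wtm e m i + w' i) % q)) * ((∏ i, τ i ^ ((wtm e m i + w' i) / q) : ℚ) : ℂ)) *
            (P.coeff m * m.prod fun v c => x v ^ c) := by ring
      _ = _ := by rw [h3]; ring
  · intro w _ hw'
    rw [if_neg, map_zero, mul_zero]
    intro h
    apply hw'
    funext i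
    apply Fin.ext
    exact (congrFun h i).symm
  · intro h
    exact absurd (Finset.mem_univ _) h

lemma Mn_CV {V : Submodule ℚ ℂ} (hV : CV V P) (w w' : Fin k → Fin q) : CV V (Mn q e τ P w w') := by
  classical
  unfold Mn
  rw [Matrix.of_apply]
  refine CV.sum _ fun m _ => ?_
  split_ifs
  · intro m'
    rw [MvPolynomial.coeff_monomial]
    split_ifs
    · have h1 : P.coeff m * ((∏ i, τ i ^ ((wtm e m i + w' i) / q) : ℚ) : ℂ) =
          (∏ i, τ i ^ ((wtm e m i + w' i) / q) : ℚ) • P.coeff m := by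
        rw [Rat.smul_def, mul_comm]
      rw [h1]
      exact V.smul_mem _ (hV m)
    · exact V.zero_mem
  · exact CV.zero

lemma Mn_deg {d : ℕ} (hd : P.totalDegree ≤ d) (w w' : Fin k → Fin q) : (Mn q e τ P w w').totalDegree ≤ d := by
  classical
  unfold Mn
  rw [Matrix.of_apply]
  refine (MvPolynomial.totalDegree_finsetSum _ _).trans (Finset.sup_le fun m hm => ?_)
  split_ifs
  · refine (MvPolynomial.totalDegree_monomial_le _ _).trans ?_
    exact (MvPolynomial.le_totalDegree hm).trans hd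
  · rw [MvPolynomial.totalDegree_zero]
    exact Nat.zero_le _

/-- **the norm** -/
theorem nrm_exists (hq : 1 ≤ q) (hτ : ∀ i, τ i ≠ 0) {d : ℕ} (hd : P.totalDegree ≤ d) {V : Submodule ℚ ℂ} (hV : CV V P) :
    ∃ N : MvPolynomial κ ℂ, N.totalDegree ≤ q ^ k * d ∧ CV (V ^ (q ^ k)) N ∧ ∀ x : κ → ℂ,
      ((∃ u : Fin k → ℂ, (∀ i, u i ^ q = ((τ i : ℚ) : ℂ)) ∧ MvPolynomial.eval (scl e u x) P = 0) → MvPolynomial.eval x N = 0) ∧
      ((∀ u : Fin k → ℂ, (∀ i, u i ^ q = ((τ i : ℚ) : ℂ)) → MvPolynomial.eval (scl e u x) P ≠ 0) → MvPolynomial.eval x N ≠ 0) := by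
  classical
  have hcard : Fintype.card (Fin k → Fin q) = q ^ k := by simp
  refine ⟨(Mn q e τ P).det, ?_, ?_, fun x => ⟨?_, ?_⟩⟩
  · rw [← hcard]
    exact deg_det' fun w w' => Mn_deg hd w w'
  · rw [← hcard]
    exact CV.det' fun w w' => Mn_CV hV w w'
  · rintro ⟨u, hu, h0⟩
    rw [RingHom.map_det]
    have hne : (fun w : Fin k → Fin q => ∏ i, u i ^ (w i : ℕ)) ≠ 0 := by
      intro h1
      have h2 := congrFun h1 (fun _ => ⟨0, by omega⟩)
      simp at h2
    refine Matrix.exists_vecMul_eq_zero_iff.1 ⟨_, hne, ?_⟩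
    funext w'
    have h1 := Mn_key (e := e) (P := P) hq hu x w'
    rw [h0, mul_zero] at h1
    exact h1
  · intro hall h0
    rw [RingHom.map_det] at h0
    obtain ⟨c, hc, hMc⟩ := Matrix.exists_mulVec_eq_zero_iff.2 h0
    -- the polynomial in `u`
    set g : MvPolynomial (Fin k) ℂ := ∑ w : Fin k → Fin q, MvPolynomial.monomial
      (Finsupp.equivFunOnFinite.symm fun i => (w i : ℕ)) (c w) with hg
    have hgev : ∀ u : Fin k → ℂ, MvPolynomial.eval u g = ∑ w, c w * ∏ i, u i ^ (w i : ℕ) := by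
      intro u
      rw [hg, map_sum]
      refine Finset.sum_congr rfl fun w _ => ?_
      rw [MvPolynomial.eval_monomial, Finsupp.prod_fintype _ _ fun i => pow_zero _]
      rfl
    have hgz : ∀ u : Fin k → ℂ, (∀ i, u i ^ q = ((τ i : ℚ) : ℂ)) → MvPolynomial.eval u g = 0 := by
      intro u hu
      have h1 : ∑ w' : Fin k → Fin q, (∑ w : Fin k → Fin q, (∏ i, u i ^ (w i : ℕ)) *
          MvPolynomial.eval x (Mn q e τ P w w')) * c w' = 0 := by
        simp only [Finset.sum_mul]
        rw [Finset.sum_comm]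
        refine Finset.sum_eq_zero fun w _ => ?_
        have h2 := congrFun hMc w
        have h3 : ∑ w', MvPolynomial.eval x (Mn q e τ P w w') * c w' = 0 := h2
        simp only [mul_assoc]
        rw [← Finset.mul_sum, h3, mul_zero]
      simp only [Mn_key hq hu x] at h1
      rw [hgev]
      have h4 : ∑ w' : Fin k → Fin q, (∏ i, u i ^ (w' i : ℕ)) * MvPolynomial.eval (scl e u x) P * c w' =
          MvPolynomial.eval (scl e u x) P * ∑ w, c w * ∏ i, u i ^ (w i : ℕ) := by
        rw [Finset.mul_sum]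
        exact Finset.sum_congr rfl fun w _ => by ring
      rw [h4] at h1
      exact (mul_eq_zero.1 h1).resolve_left (hall u hu)
    -- the roots
    obtain ⟨ζ, hζ⟩ : ∃ ζ : ℂ, IsPrimitiveRoot ζ q := ⟨_, Complex.isPrimitiveRoot_exp q (by omega)⟩
    have hroot : ∀ i, ∃ u₀ : ℂ, u₀ ^ q = ((τ i : ℚ) : ℂ) := fun i => IsAlgClosed.exists_pow_nat_eq _ (by omega)
    choose u₀ hu₀ using hroot
    have hu0 : ∀ i, u₀ i ≠ 0 := by
      intro i h1
      have h2 := hu₀ i
      rw [h1, zero_pow (by omega)] at h2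
      exact hτ i (by exact_mod_cast h2.symm)
    have hg0 : g = 0 := by
      refine MvPolynomial.eq_zero_of_eval_zero_at_prod_finset g
        (fun i => (Finset.univ : Finset (Fin q)).image fun v : Fin q => ζ ^ (v : ℕ) * u₀ i) (fun i => ?_) fun u hu => ?_
      · rw [Finset.card_image_of_injective, Finset.card_univ, Fintype.card_fin]
        · rw [MvPolynomial.degreeOf_lt_iff (by omega)]
          intro m hm
          by_contra hlt
          rw [MvPolynomial.mem_support_iff] at hm
          apply hm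
          rw [hg, MvPolynomial.coeff_sum]
          refine Finset.sum_eq_zero fun w _ => ?_
          rw [MvPolynomial.coeff_monomial, if_neg]
          intro h1
          apply hlt
          rw [← h1]
          exact (w i).2
        · intro v v' hvv
          have h1 : ζ ^ (v : ℕ) = ζ ^ (v' : ℕ) := mul_right_cancel₀ (hu0 i) hvv
          exact Fin.ext (hζ.pow_inj v.2 v'.2 h1)
      · refine hgz u fun i => ?_
        obtain ⟨v, -, hv⟩ := Finset.mem_image.1 (hu i)
        rw [← hv, mul_pow, hu₀, ← pow_mul, mul_comm (v : ℕ), pow_mul, hζ.pow_eq_one, one_pow, one_mul]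
    apply hc
    funext w
    have h1 := congrArg (MvPolynomial.coeff (Finsupp.equivFunOnFinite.symm fun i => (w i : ℕ))) hg0
    rw [hg, MvPolynomial.coeff_sum, MvPolynomial.coeff_zero, Finset.sum_eq_single w] at h1
    · rw [MvPolynomial.coeff_monomial, if_pos rfl] at h1
      exact h1
    · intro w' _ hw'
      rw [MvPolynomial.coeff_monomial, if_neg]
      intro h2
      apply hw'
      have h3 := Finsupp.equivFunOnFinite.symm.injective h2
      funext i
      exact Fin.ext (congrFun h3 i)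
    · intro h2
      exact absurd (Finset.mem_univ _) h2

lemma ae (x : κ → ℂ) (p : MvPolynomial κ ℂ) : MvPolynomial.aeval x p = MvPolynomial.eval x p := by
  rw [← MvPolynomial.coe_aeval_eq_eval]
  rfl

/-- the choice of the free coordinates -/
theorem scl_choice (hq : 1 ≤ q) (hτ : ∀ i, τ i ≠ 0) {S : Set κ} (he : ∀ v ∉ S, ∀ i, e v i = 0) {x₀ : κ → ℂ}
    (hP : MvPolynomial.eval x₀ P ≠ 0) : ∃ x : κ → ℂ, (∀ v ∉ S, x v = x₀ v) ∧
      ∀ u : Fin k → ℂ, (∀ i, u i ^ q = ((τ i : ℚ) : ℂ)) → MvPolynomial.eval (scl e u x) P ≠ 0 := by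
  classical
  set U : Set (Fin k → ℂ) := {u | ∀ i, u i ^ q = ((τ i : ℚ) : ℂ)} with hU
  have hUf : U.Finite := by
    refine (Set.Finite.pi' (t := fun i => {z : ℂ | z ^ q = ((τ i : ℚ) : ℂ)}) fun i => ?_).subset fun u hu i => hu i
    have h2 : {z : ℂ | z ^ q = ((τ i : ℚ) : ℂ)} ⊆ ((Polynomial.nthRoots q ((τ i : ℚ) : ℂ)).toFinset : Set ℂ) := by
      intro z hz
      rw [Finset.mem_coe, Multiset.mem_toFinset, Polynomial.mem_nthRoots (by omega)]
      exact hz
    exact (Finset.finite_toSet _).subset h2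
  let F : (Fin k → ℂ) → MvPolynomial κ ℂ := fun u => MvPolynomial.aeval (fun v => if v ∈ S then
    MvPolynomial.C (∏ i, u i ^ e v i) * MvPolynomial.X v else MvPolynomial.C (x₀ v)) P
  have hFev : ∀ u x, MvPolynomial.eval x (F u) = MvPolynomial.eval (fun v => if v ∈ S then (∏ i, u i ^ e v i) * x v else x₀ v) P := by
    intro u x
    show MvPolynomial.eval x (MvPolynomial.aeval _ P) = _
    have h1 : MvPolynomial.eval x (MvPolynomial.aeval (fun v => if v ∈ S then
        MvPolynomial.C (∏ i, u i ^ e v i) * MvPolynomial.X v else MvPolynomial.C (x₀ v)) P) =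
        MvPolynomial.aeval x (MvPolynomial.aeval (fun v => if v ∈ S then
        MvPolynomial.C (∏ i, u i ^ e v i) * MvPolynomial.X v else MvPolynomial.C (x₀ v)) P) := (ae x _).symm
    have h2 : MvPolynomial.aeval x (MvPolynomial.aeval (fun v => if v ∈ S then
        MvPolynomial.C (∏ i, u i ^ e v i) * MvPolynomial.X v else MvPolynomial.C (x₀ v)) P) =
        MvPolynomial.aeval (fun v => MvPolynomial.aeval x (if v ∈ S then
        MvPolynomial.C (∏ i, u i ^ e v i) * MvPolynomial.X v else MvPolynomial.C (x₀ v))) P :=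
      MvPolynomial.aeval_bind₁ _ _ _
    rw [h1, h2, ae]
    congr 1
    congr 1
    funext v
    rw [ae]
    split_ifs <;> simp
  have hFne : ∀ u ∈ U, F u ≠ 0 := by
    intro u hu h0
    have hu0 : ∀ i, u i ≠ 0 := by
      intro i h1
      have h2 := hu i
      rw [h1, zero_pow (by omega)] at h2
      exact hτ i (by exact_mod_cast h2.symm)
    apply hP
    have h1 := hFev u (fun v => (∏ i, u i ^ e v i)⁻¹ * x₀ v)
    rw [h0, map_zero] at h1
    rw [h1]
    congr 1
    congr 1
    funext v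
    split_ifs
    · rw [mul_inv_cancel_left₀]
      exact Finset.prod_ne_zero_iff.2 fun i _ => pow_ne_zero _ (hu0 i)
    · rfl
  have hprod : ∏ u ∈ hUf.toFinset, F u ≠ 0 := Finset.prod_ne_zero_iff.2 fun u hu => hFne u (hUf.mem_toFinset.1 hu)
  obtain ⟨x, hx⟩ : ∃ x, MvPolynomial.eval x (∏ u ∈ hUf.toFinset, F u) ≠ 0 := by
    by_contra h
    push Not at h
    exact hprod (MvPolynomial.funext fun x => by rw [h x, map_zero])
  rw [map_prod] at hx
  refine ⟨fun v => if v ∈ S then x v else x₀ v, fun v hv => if_neg hv, fun u hu => ?_⟩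
  have h1 := Finset.prod_ne_zero_iff.1 hx u (hUf.mem_toFinset.2 hu)
  rw [hFev] at h1
  intro h2
  apply h1
  rw [← h2]
  congr 1
  congr 1
  funext v
  unfold scl
  beta_reduce
  by_cases hv : v ∈ S
  · rw [if_pos hv, if_pos hv]
  · rw [if_neg hv, if_neg hv]
    simp [he v hv]

end nrm

end Run7.h893.MX
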