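import Pool.Agent.Run7.h893.MX.Ser

/-!
# The inhomogeneous hypergeometric equation: the solution which is holomorphic at `1`, and the decomposition
-/

set_option autoImplicit false

open Filter Topology Matrix Pool.Agent.Y119.HY

namespace Run7.h893.MX

open Run7.h893.HO

variable {n : ℕ} {Q : Polynomial ℚ} {r : ℚ}

/-- the extended matrix at `0` -/
noncomputable def Ax (n : ℕ) (r : ℚ) : Matrix (Fin (n + 1)) (Fin (n + 1)) ℂ :=
  Matrix.of fun i j => if (i : ℕ) = n then (if (j : ℕ) = n then (r : ℂ) else 0) else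
    if (j : ℕ) = n then (if (i : ℕ) + 1 = n then (r : ℂ) ^ n else 0) else if (j : ℕ) = i + 1 then 1 else 0

/-- the last row -/
noncomputable def fx (n : ℕ) (Q : Polynomial ℚ) (r : ℚ) : Fin (n + 1) → ℂ :=
  fun j => if (j : ℕ) = n then (r : ℂ) ^ n else ((Q.coeff j : ℚ) : ℂ)

/-- the basis vector -/
def ux (n : ℕ) : Fin (n + 1) → ℂ := fun i => if (i : ℕ) + 1 = n then 1 else 0

/-- the extended matrix at `1` -/
noncomputable def Bx (n : ℕ) (Q : Polynomial ℚ) (r : ℚ) : Matrix (Fin (n + 1)) (Fin (n + 1)) ℂ := vecMulVec (ux n) (fx n Q r)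

lemma fx_ux (hn : 2 ≤ n) : fx n Q r ⬝ᵥ ux n = ((Q.coeff (n - 1) : ℚ) : ℂ) := by
  unfold dotProduct ux
  rw [Finset.sum_eq_single (⟨n - 1, by omega⟩ : Fin (n + 1))]
  · simp only
    rw [if_pos (by omega), mul_one]
    unfold fx
    simp only
    rw [if_neg (by omega)]
  · intro j _ hj
    rw [if_neg, mul_zero]
    intro h
    exact hj (Fin.ext (by simp only; omega))
  · intro h
    exact absurd (Finset.mem_univ _) h

lemma Bx_sq (hn : 2 ≤ n) : Bx n Q r * Bx n Q r = ((Q.coeff (n - 1) : ℚ) : ℂ) • Bx n Q r := by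
  unfold Bx
  rw [vecMulVec_mul_vecMulVec, fx_ux hn]
  ext i j
  simp only [vecMulVec_apply, Matrix.smul_apply, Pi.smul_apply, smul_eq_mul]
  ring

/-- the kernel -/
noncomputable def cx' (n : ℕ) (Q : Polynomial ℚ) (r : ℚ) : Fin (n + 1) → ℂ :=
  fun i => if (i : ℕ) = n then 1 else if (i : ℕ) = 0 then -(r : ℂ) ^ n / ((Q.coeff 0 : ℚ) : ℂ) else 0

lemma fx_cx (hQ : QG n Q) : fx n Q r ⬝ᵥ cx' n Q r = 0 := by
  have hn := hQ.two
  have h0 : ((Q.coeff 0 : ℚ) : ℂ) ≠ 0 := by
    have h1 := hQ.ne 0
    rw [Nat.cast_zero, ← Polynomial.coeff_zero_eq_eval_zero] at h1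
    exact_mod_cast h1
  unfold dotProduct
  rw [Fin.sum_univ_castSucc]
  have h1 : ∑ i : Fin n, fx n Q r i.castSucc * cx' n Q r i.castSucc = -(r : ℂ) ^ n := by
    rw [Finset.sum_eq_single (⟨0, by omega⟩ : Fin n)]
    · unfold fx cx'
      simp only [Fin.val_castSucc]
      rw [if_neg (by omega), if_neg (by omega), if_pos trivial]
      field_simp
    · intro j _ hj
      have h2 : (j : ℕ) ≠ 0 := fun h => hj (Fin.ext h)
      unfold cx'
      simp only [Fin.val_castSucc]
      rw [if_neg (by have := j.2; omega), if_neg h2, mul_zero]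
    · intro h
      exact absurd (Finset.mem_univ _) h
  rw [h1]
  unfold fx cx'
  simp

/-- **the solution which is holomorphic at `1`** -/
theorem exists_part (hQ : QG n Q) {K : ℕ → Matrix (Fin (n + 1)) (Fin (n + 1)) ℂ} (hK : Sol (-Bx n Q r) (-Ax n r) K)
    (hg : ∀ i j, PG fun k => K k i j) : ∃ U : ℕ → ℂ → ℂ, (∀ i, AnalyticOnNhd ℂ (U i) (Metric.ball 1 1)) ∧
      ∀ i < n, ∀ z ∈ Lens, HasDerivAt (U i) (if i + 1 < n then (1 / z) * U (i + 1) z else
        (1 / (1 - z)) * ∑ l ∈ Finset.range n, ((Q.coeff l : ℚ) : ℂ) * U l z +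
          (1 / z + 1 / (1 - z)) * ((r : ℂ) ^ n * Complex.exp (r * Complex.log z))) z := by
  have hn := hQ.two
  set c := cx' n Q r with hc
  set Y : ℂ → Fin (n + 1) → ℂ := fun z => Hf K (1 - z) *ᵥ c with hY
  have hBc : Bx n Q r *ᵥ c = 0 := by
    unfold Bx
    rw [vecMulVec_mulVec, fx_cx hQ]
    simp
  -- the differential equation
  have hode : ∀ z ∈ Lens, ∀ i, HasDerivAt (fun z => Y z i)
      ((1 / z) * (Ax n r *ᵥ Y z) i + (1 / (1 - z)) * (Bx n Q r *ᵥ Y z) i) z := by
    intro z hz i
    have hz' := symm_Lens hz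
    have h1 := Hf_ode' hK hg (mem_Lens.1 hz').1 (Lens_ne hz').1
    have h2 : HasDerivAt (fun w : ℂ => 1 - w) (-1) z := by
      simpa using (hasDerivAt_id z).const_sub 1
    have h3 := h1.comp h2
    have h4 : HasDerivAt (fun w => ∑ j, Hf K (1 - w) i j * c j) (∑ j, ((-1 : ℂ) • ((1 / (1 - z)) • (-Bx n Q r * Hf K (1 - z) -
        Hf K (1 - z) * -Bx n Q r) + (1 / (1 - (1 - z))) • (-Ax n r * Hf K (1 - z)))) i j * c j) z :=
      HasDerivAt.fun_sum fun j _ => (h3 i j).mul_const _
    refine h4.congr_deriv ?_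
    have h5 : ∑ j, ((-1 : ℂ) • ((1 / (1 - z)) • (-Bx n Q r * Hf K (1 - z) -
        Hf K (1 - z) * -Bx n Q r) + (1 / (1 - (1 - z))) • (-Ax n r * Hf K (1 - z)))) i j * c j =
        (((-1 : ℂ) • ((1 / (1 - z)) • (-Bx n Q r * Hf K (1 - z) -
        Hf K (1 - z) * -Bx n Q r) + (1 / (1 - (1 - z))) • (-Ax n r * Hf K (1 - z)))) *ᵥ c) i := rfl
    rw [h5, smul_mulVec, add_mulVec, smul_mulVec, smul_mulVec, sub_mulVec, ← mulVec_mulVec, ← mulVec_mulVec, ← mulVec_mulVec,
      neg_mulVec, neg_mulVec, neg_mulVec, hBc, neg_zero, mulVec_zero, sub_zero, sub_sub_cancel]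
    simp only [Pi.smul_apply, Pi.add_apply, Pi.neg_apply, smul_eq_mul]
    ring
  -- the last component
  have hlast : ∀ z ∈ Lens, Y z (Fin.last n) = Complex.exp (r * Complex.log z) := by
    have hU : ∀ z ∈ Metric.ball (1 : ℂ) 1, z ∈ Complex.slitPlane := by
      intro z hz
      left
      rw [Metric.mem_ball, dist_comm, dist_eq_norm] at hz
      have h1 : (1 - z).re ≤ ‖1 - z‖ := Complex.re_le_norm _
      rw [Complex.sub_re, Complex.one_re] at h1
      linarith
    have h1 : ∀ z ∈ Lens, HasDerivAt (fun z => Y z (Fin.last n) * Complex.exp (-(r * Complex.log z))) 0 z := by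
      intro z hz
      have h2 := hode z hz (Fin.last n)
      have e1 : (Ax n r *ᵥ Y z) (Fin.last n) = r * Y z (Fin.last n) := by
        rw [mv_apply, Finset.sum_eq_single (Fin.last n)]
        · unfold Ax
          rw [Matrix.of_apply]
          simp
        · intro j _ hj
          unfold Ax
          rw [Matrix.of_apply, if_pos (by simp), if_neg, zero_mul]
          intro h
          exact hj (Fin.ext (by simpa using h))
        · intro h
          exact absurd (Finset.mem_univ _) h
      have e2 : (Bx n Q r *ᵥ Y z) (Fin.last n) = 0 := by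
        unfold Bx
        rw [vecMulVec_mulVec]
        unfold ux
        simp
      rw [e1, e2] at h2
      have h3 : HasDerivAt (fun z => Complex.exp (-(r * Complex.log z))) (Complex.exp (-(r * Complex.log z)) * (-(r * z⁻¹))) z :=
        (((Complex.hasDerivAt_log (slit_Lens hz)).const_mul (r : ℂ)).neg).cexp
      refine (h2.mul h3).congr_deriv ?_
      ring
    -- the function is constant on the lens and analytic at one
    set F : ℂ → ℂ := fun z => Y z (Fin.last n) * Complex.exp (-(r * Complex.log z)) with hF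
    have hFan : AnalyticOnNhd ℂ F (Metric.ball 1 1) := by
      refine AnalyticOnNhd.mul (one_sub_an hg c (Fin.last n)) fun z hz => ?_
      exact ((analyticAt_const.mul (analyticAt_id.clog (hU z hz))).neg).cexp
    have hhalf : ((1 / 2 : ℝ) : ℂ) ∈ Lens := real_mem_Lens (by norm_num) (by norm_num)
    have hconst : ∀ z ∈ Lens, F z = F ((1 / 2 : ℝ) : ℂ) := fun z hz =>
      isOpen_Lens.is_const_of_deriv_eq_zero preconn_Lens
        (fun x hx => (h1 x hx).differentiableAt.differentiableWithinAt) (fun x hx => (h1 x hx).deriv) hz hhalf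
    have hFeq : ∀ z ∈ Metric.ball (1 : ℂ) 1, F z - F ((1 / 2 : ℝ) : ℂ) = 0 := by
      intro z hz
      refine (hFan.sub analyticOnNhd_const).eqOn_zero_of_preconnected_of_eventuallyEq_zero (convex_ball _ _).isPreconnected
        (z₀ := ((1 / 2 : ℝ) : ℂ)) hhalf.2 ?_ hz
      filter_upwards [isOpen_Lens.mem_nhds hhalf] with x hx
      simp only [Pi.sub_apply, Pi.zero_apply]
      rw [hconst x hx, sub_self]
    have h10 : F 1 = 1 := by
      rw [hF]
      simp only
      rw [Complex.log_one, mul_zero, neg_zero, Complex.exp_zero, mul_one, hY]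
      simp only
      rw [sub_self, Hf_zero hK, one_mulVec, hc]
      unfold cx'
      simp
    have h11 := hFeq 1 (Metric.mem_ball_self one_pos)
    rw [h10] at h11
    intro z hz
    have h12 := hFeq z hz.2
    have h13 : F z = 1 := by linear_combination h12 - h11
    rw [hF] at h13
    simp only at h13
    rw [Complex.exp_neg] at h13
    have h14 := Complex.exp_ne_zero (r * Complex.log z)
    field_simp at h13
    linear_combination h13
  refine ⟨fun i z => if h : i < n + 1 then Y z ⟨i, h⟩ else 0, fun i => ?_, fun i hi z hz => ?_⟩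
  · by_cases h : i < n + 1
    · simp only [dif_pos h]
      exact one_sub_an hg c ⟨i, h⟩
    · simp only [dif_neg h]
      exact analyticOnNhd_const
  · have hi' : i < n + 1 := by omega
    have h1 := hode z hz ⟨i, hi'⟩
    simp only [dif_pos hi']
    refine h1.congr_deriv ?_
    have hsum : ∑ l ∈ Finset.range n, ((Q.coeff l : ℚ) : ℂ) * (if h : l < n + 1 then Y z ⟨l, h⟩ else 0) =
        ∑ l : Fin n, ((Q.coeff l : ℚ) : ℂ) * Y z l.castSucc := by
      rw [Finset.sum_range]
      refine Finset.sum_congr rfl fun l _ => ?_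
      rw [dif_pos (by have := l.2; omega)]
      rfl
    by_cases h2 : i + 1 < n
    · rw [if_pos h2, dif_pos (by omega)]
      have e1 : (Ax n r *ᵥ Y z) ⟨i, hi'⟩ = Y z ⟨i + 1, by omega⟩ := by
        rw [mv_apply, Finset.sum_eq_single (⟨i + 1, by omega⟩ : Fin (n + 1))]
        · unfold Ax
          rw [Matrix.of_apply]
          simp only
          rw [if_neg (by omega), if_neg (by omega), if_pos trivial, one_mul]
        · intro j _ hj
          unfold Ax
          rw [Matrix.of_apply]
          simp only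
          rw [if_neg (by omega)]
          by_cases h3 : (j : ℕ) = n
          · rw [if_pos h3, if_neg (by omega), zero_mul]
          · rw [if_neg h3, if_neg, zero_mul]
            intro h4
            exact hj (Fin.ext h4)
        · intro h
          exact absurd (Finset.mem_univ _) h
      have e2 : (Bx n Q r *ᵥ Y z) ⟨i, hi'⟩ = 0 := by
        unfold Bx
        rw [vecMulVec_mulVec]
        unfold ux
        simp only [Pi.smul_apply]
        rw [if_neg (by omega), smul_zero]
      rw [e1, e2, mul_zero, add_zero]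
    · have h3 : i + 1 = n := by omega
      rw [if_neg h2, hsum, ← hlast z hz]
      have e1 : (Ax n r *ᵥ Y z) ⟨i, hi'⟩ = (r : ℂ) ^ n * Y z (Fin.last n) := by
        rw [mv_apply, Finset.sum_eq_single (Fin.last n)]
        · unfold Ax
          rw [Matrix.of_apply]
          simp only [Fin.val_last]
          rw [if_neg (by omega), if_pos trivial, if_pos h3]
        · intro j _ hj
          have hjn : (j : ℕ) ≠ n := fun h => hj (Fin.ext (by simpa using h))
          unfold Ax
          rw [Matrix.of_apply]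
          simp only
          rw [if_neg (by omega), if_neg hjn, if_neg (by omega), zero_mul]
        · intro h
          exact absurd (Finset.mem_univ _) h
      have e2 : (Bx n Q r *ᵥ Y z) ⟨i, hi'⟩ = ∑ l : Fin n, ((Q.coeff l : ℚ) : ℂ) * Y z l.castSucc + (r : ℂ) ^ n * Y z (Fin.last n) := by
        unfold Bx
        rw [vecMulVec_mulVec]
        unfold ux
        simp only [Pi.smul_apply]
        rw [if_pos h3]
        show (1 : ℂ) * (fx n Q r ⬝ᵥ Y z) = _
        rw [one_mul]
        unfold dotProduct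
        rw [Fin.sum_univ_castSucc]
        congr 1
        · refine Finset.sum_congr rfl fun l _ => ?_
          unfold fx
          simp only [Fin.val_castSucc]
          rw [if_neg (by have := l.2; omega)]
        · unfold fx
          simp
      rw [e1, e2]
      ring

end Run7.h893.MX
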