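import Pool.Agent.Run7.h893.MX.Gal

/-!
# Solutions with rational exponents at the origin
-/

set_option autoImplicit false

open PowerSeries
open Pool.Agent.Y113 hiding Bm
open Pool.Agent.Y120.GF Pool.Agent.Y120.GH Pool.Agent.Y119.HZ

namespace Run7.h893.MX

/-- the pull back under `z = X ^ q`, `log z = q log X` -/
noncomputable def sg (q : ℕ) (hq : q ≠ 0) : Polynomial (PowerSeries ℂ) →+* Polynomial (PowerSeries ℂ) :=
  (Polynomial.compRingHom (Polynomial.C (q : PowerSeries ℂ) * Polynomial.X)).comp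
    (Polynomial.mapRingHom (expand q hq : PowerSeries ℂ →ₐ[ℂ] PowerSeries ℂ).toRingHom)

lemma sg_coeff {q : ℕ} (hq : q ≠ 0) (P : Polynomial (PowerSeries ℂ)) (k : ℕ) :
    (sg q hq P).coeff k = expand q hq (P.coeff k) * (q : PowerSeries ℂ) ^ k := by
  show ((P.map (expand q hq : PowerSeries ℂ →ₐ[ℂ] PowerSeries ℂ).toRingHom).comp
    (Polynomial.C (q : PowerSeries ℂ) * Polynomial.X)).coeff k = _
  rw [Polynomial.comp_C_mul_X_coeff, Polynomial.coeff_map]
  rfl

lemma expand_inj {q : ℕ} (hq : q ≠ 0) {f : PowerSeries ℂ} (h : expand q hq f = 0) : f = 0 := by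
  ext m
  have h1 := congrArg (coeff (q * m)) h
  rw [coeff_expand_mul, map_zero] at h1
  rw [h1, map_zero]

lemma sg_inj {q : ℕ} (hq : q ≠ 0) {P : Polynomial (PowerSeries ℂ)} (h : sg q hq P = 0) : P = 0 := by
  have hq0 : (q : PowerSeries ℂ) ≠ 0 := by
    rw [← map_natCast (C (R := ℂ)), Ne, ← map_zero (C (R := ℂ)), (PowerSeries.C_injective).eq_iff]
    exact_mod_cast hq
  ext1 k
  have h1 := congrArg (fun P => Polynomial.coeff P k) h
  simp only [sg_coeff, Polynomial.coeff_zero] at h1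
  rw [Polynomial.coeff_zero]
  exact expand_inj hq ((mul_eq_zero.1 h1).resolve_right (pow_ne_zero _ hq0))

lemma cxR_X' : cxR Polynomial.X = (X : PowerSeries ℂ) := by
  rw [cxR_apply, Polynomial.map_X, Polynomial.coe_X]

/-- **The hypothesis at the origin from solutions with rational exponents.** -/
theorem qu_of {ι : Type} [Fintype ι] [DecidableEq ι] {T₁ : Polynomial ℤ} {A : ι → ι → Polynomial ℤ} {q : ℕ} (hq : q ≠ 0)
    {ρ : ι → ℕ} (hρ : ∀ c, ρ c ≤ q) (Ψ : Matrix ι ι (Polynomial (PowerSeries ℂ)))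
    (hb : ∃ K : ℝ, ∀ i j k m, ‖coeff m ((Ψ i j).coeff k)‖ ≤ K ^ (m + 1))
    (hode : ∀ i c k, cxR T₁ * ((X : PowerSeries ℂ) * PowerSeries.derivative ℂ ((Ψ i c).coeff k) +
      ((k : PowerSeries ℂ) + 1) * (Ψ i c).coeff (k + 1) - C ((ρ c : ℂ) / q) * (Ψ i c).coeff k) =
      ∑ l, cxR (A i l) * (Ψ l c).coeff k)
    (hdet : Ψ.det ≠ 0) : QU0 (Polynomial.X * T₁) A := by
  have hqc : (q : ℂ) ≠ 0 := by exact_mod_cast hq
  obtain ⟨K, hK⟩ := hb
  set d : ℕ := ∑ p : ι × ι, (Ψ p.1 p.2).natDegree with hd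
  have hdeg : ∀ i j, (Ψ i j).natDegree ≤ d := fun i j =>
    Finset.single_le_sum (f := fun p : ι × ι => (Ψ p.1 p.2).natDegree) (fun _ _ => Nat.zero_le _) (Finset.mem_univ (i, j))
  set Φ : Matrix ι ι (Polynomial (PowerSeries ℂ)) := Matrix.of fun i c =>
    sg q hq (Ψ i c) * Polynomial.C ((X : PowerSeries ℂ) ^ (q - ρ c)) with hΦ
  have hcoef : ∀ i c k, (Φ i c).coeff k = expand q hq ((Ψ i c).coeff k) * (q : PowerSeries ℂ) ^ k * X ^ (q - ρ c) := by
    intro i c k
    rw [hΦ, Matrix.of_apply, Polynomial.coeff_mul_C, sg_coeff]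
  have hdetΦ : Φ.det ≠ 0 := by
    have h1 : Φ = (sg q hq).mapMatrix Ψ * Matrix.diagonal fun c => Polynomial.C ((X : PowerSeries ℂ) ^ (q - ρ c)) := by
      ext1 i c
      rw [Matrix.mul_diagonal]
      rfl
    rw [h1, Matrix.det_mul, ← RingHom.map_det, Matrix.det_diagonal]
    refine mul_ne_zero (fun h => hdet (sg_inj hq h)) (Finset.prod_ne_zero_iff.2 fun c _ => ?_)
    rw [Ne, Polynomial.C_eq_zero]
    exact pow_ne_zero _ PowerSeries.X_ne_zero
  refine ⟨q, hq, q, (|K| + 1) * (q : ℝ) ^ d, Φ, fun i j k m => ?_, fun i c k => ?_, hdetΦ⟩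
  · rw [hcoef]
    have hq1 : (1 : ℝ) ≤ q := by exact_mod_cast Nat.one_le_iff_ne_zero.2 hq
    have hqd : (1 : ℝ) ≤ (q : ℝ) ^ d := one_le_pow₀ hq1
    have hK1 : (1 : ℝ) ≤ |K| + 1 := by linarith [abs_nonneg K]
    have hpos : (0 : ℝ) ≤ ((|K| + 1) * (q : ℝ) ^ d) ^ (m + 1) := by positivity
    rcases le_or_gt k d with hk | hk
    · rw [PowerSeries.coeff_mul_X_pow']
      split_ifs with h1
      · have e1 : (q : PowerSeries ℂ) ^ k = C ((q : ℂ) ^ k) := by rw [map_pow, map_natCast]
        rw [e1, PowerSeries.coeff_mul_C, norm_mul, norm_pow, Complex.norm_natCast]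
        have h2 : ‖coeff (m - (q - ρ j)) (expand q hq ((Ψ i j).coeff k))‖ ≤ (|K| + 1) ^ (m + 1) := by
          rw [coeff_expand]
          split_ifs with h3
          · refine (hK i j k _).trans ?_
            calc K ^ ((m - (q - ρ j)) / q + 1) ≤ |K| ^ ((m - (q - ρ j)) / q + 1) := by
                  rw [← abs_pow]
                  exact le_abs_self _
              _ ≤ (|K| + 1) ^ ((m - (q - ρ j)) / q + 1) := pow_le_pow_left₀ (abs_nonneg K) (by linarith) _
              _ ≤ (|K| + 1) ^ (m + 1) := by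
                refine pow_le_pow_right₀ hK1 ?_
                have := Nat.div_le_self (m - (q - ρ j)) q
                omega
          · rw [norm_zero]
            positivity
        calc ‖coeff (m - (q - ρ j)) (expand q hq ((Ψ i j).coeff k))‖ * (q : ℝ) ^ k ≤
              (|K| + 1) ^ (m + 1) * ((q : ℝ) ^ d) ^ (m + 1) := by
                refine mul_le_mul h2 ?_ (by positivity) (by positivity)
                exact (pow_le_pow_right₀ hq1 hk).trans (le_self_pow₀ hqd (by omega))
          _ = _ := by rw [mul_pow]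
      · rw [norm_zero]
        exact hpos
    · rw [Polynomial.coeff_eq_zero_of_natDegree_lt (lt_of_le_of_lt (hdeg i j) hk)]
      simp only [map_zero, zero_mul, norm_zero]
      exact hpos
  · simp only [← cxR_apply]
    rw [hcoef, hcoef]
    -- the right side
    have hR : ∑ l, expand q hq (cxR (A i l)) * (Φ l c).coeff k =
        expand q hq (∑ l, cxR (A i l) * (Ψ l c).coeff k) * (q : PowerSeries ℂ) ^ k * X ^ (q - ρ c) := by
      rw [map_sum, Finset.sum_mul, Finset.sum_mul]
      refine Finset.sum_congr rfl fun l _ => ?_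
      rw [hcoef, map_mul]
      ring
    have hX1 : expand q hq (cxR (Polynomial.X * T₁)) = X ^ q * expand q hq (cxR T₁) := by
      rw [map_mul, map_mul, cxR_X', expand_X]
    have hE : expand q hq (cxR T₁ * ((X : PowerSeries ℂ) * PowerSeries.derivative ℂ ((Ψ i c).coeff k) +
        ((k : PowerSeries ℂ) + 1) * (Ψ i c).coeff (k + 1) - C ((ρ c : ℂ) / q) * (Ψ i c).coeff k)) =
        expand q hq (cxR T₁) * (X ^ q * expand q hq (PowerSeries.derivative ℂ ((Ψ i c).coeff k)) +
        ((k : PowerSeries ℂ) + 1) * expand q hq ((Ψ i c).coeff (k + 1)) -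
        C ((ρ c : ℂ) / q) * expand q hq ((Ψ i c).coeff k)) := by
      simp only [map_mul, map_sub, map_add, expand_X, expand_C, map_natCast, map_one]
    rw [hR, ← hode i c k, hE, hX1]
    set f := expand q hq ((Ψ i c).coeff k) with hf
    set g := expand q hq ((Ψ i c).coeff (k + 1)) with hg
    set f' := expand q hq (PowerSeries.derivative ℂ ((Ψ i c).coeff k)) with hf'
    -- the derivative
    have e1 : (X : PowerSeries ℂ) * PowerSeries.derivative ℂ (f * (q : PowerSeries ℂ) ^ k * X ^ (q - ρ c)) =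
        ((q : PowerSeries ℂ) * X ^ q * f' + ((q - ρ c : ℕ) : PowerSeries ℂ) * f) * (q : PowerSeries ℂ) ^ k * X ^ (q - ρ c) := by
      have h1 : PowerSeries.derivative ℂ ((q : PowerSeries ℂ) ^ k) = 0 := by
        have : (q : PowerSeries ℂ) ^ k = C ((q : ℂ) ^ k) := by rw [map_pow, map_natCast]
        rw [this, PowerSeries.derivative_C]
      have h2 : (X : PowerSeries ℂ) * PowerSeries.derivative ℂ (X ^ (q - ρ c)) = ((q - ρ c : ℕ) : PowerSeries ℂ) * X ^ (q - ρ c) := by
        rw [Derivation.leibniz_pow, derivative_X]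
        simp only [smul_eq_mul, nsmul_eq_mul, mul_one]
        rcases q - ρ c with _ | m
        · simp
        · rw [Nat.add_sub_cancel, pow_succ]
          ring
      have h3 : (X : PowerSeries ℂ) * PowerSeries.derivative ℂ f = (q : PowerSeries ℂ) * X ^ q * f' := by
        rw [hf, derivative_expand]
        have : (X : PowerSeries ℂ) ^ q = X * X ^ (q - 1) := by
          rw [← pow_succ']
          congr 1
          omega
        rw [this]
        ring
      rw [Derivation.leibniz, Derivation.leibniz, h1]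
      simp only [smul_eq_mul, mul_zero, zero_add]
      calc _ = (f * (q : PowerSeries ℂ) ^ k) * ((X : PowerSeries ℂ) * PowerSeries.derivative ℂ (X ^ (q - ρ c))) +
            X ^ (q - ρ c) * (q : PowerSeries ℂ) ^ k * (X * PowerSeries.derivative ℂ f) := by ring
        _ = _ := by
          rw [h2, h3]
          ring
    have e2 : ((q : PowerSeries ℂ) : PowerSeries ℂ) * C ((ρ c : ℂ) / q) = (ρ c : PowerSeries ℂ) := by
      rw [← map_natCast (C (R := ℂ)), ← map_mul, mul_div_cancel₀ _ hqc, map_natCast]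
    have e3 : ((q - ρ c : ℕ) : PowerSeries ℂ) = (q : PowerSeries ℂ) - (ρ c : PowerSeries ℂ) := by
      rw [Nat.cast_sub (hρ c)]
    have e4 : (X : PowerSeries ℂ) * PowerSeries.derivative ℂ (f * (q : PowerSeries ℂ) ^ k * X ^ (q - ρ c)) +
        ((k : PowerSeries ℂ) + 1) * (g * (q : PowerSeries ℂ) ^ (k + 1) * X ^ (q - ρ c)) -
        (q : PowerSeries ℂ) * (f * (q : PowerSeries ℂ) ^ k * X ^ (q - ρ c)) =
        (q : PowerSeries ℂ) * (X ^ q * f' + ((k : PowerSeries ℂ) + 1) * g - C ((ρ c : ℂ) / q) * f) *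
          (q : PowerSeries ℂ) ^ k * X ^ (q - ρ c) := by
      rw [e1, e3, pow_succ]
      linear_combination (f * (q : PowerSeries ℂ) ^ k * X ^ (q - ρ c)) * e2
    rw [e4]
    ring

/-- reindexing -/
lemma qu_reindex {ι κ : Type} [Fintype ι] [DecidableEq ι] [Fintype κ] [DecidableEq κ] {T : Polynomial ℤ}
    {A : ι → ι → Polynomial ℤ} (h : QU0 T A) (e : κ ≃ ι) : QU0 T (fun a c => A (e a) (e c)) := by
  obtain ⟨q, hq, M, K, Φ, h1, h2, h3⟩ := h
  refine ⟨q, hq, M, K, Φ.submatrix e e, fun i j k m => h1 _ _ _ _, fun i j k => ?_, ?_⟩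
  · rw [Matrix.submatrix_apply, h2]
    congr 1
    exact (Equiv.sum_comp e fun l => expand q hq (((A (e i) l).map (Int.castRingHom ℂ) : Polynomial ℂ) : PowerSeries ℂ) *
      (Φ l (e j)).coeff k).symm
  · rwa [Matrix.det_submatrix_equiv_self]

end Run7.h893.MX
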