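import Pool.Agent.Run7.h893.MX.TotQ
import Pool.Agent.Run7.h893.MX.FamX

/-!
# The relations between the values of the homogeneous and inhomogeneous solutions
-/

set_option autoImplicit false

open PowerSeries
open Pool.Agent.Y113 hiding Bm
open Pool.Agent.Y120.GF Pool.Agent.Y120.GH Pool.Agent.Y119.HZ
open Pool.Agent.Y119.HY (Am Bm Hq hq Hq_zero Am_nil cm Ep E Ac_nil GP Hf Hc Yf PG Hf_an)

namespace Run7.h893.MX

open Run7.h893.HO

variable {n s : ℕ} {Q : Polynomial ℚ}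

/-- common denominators -/
lemma exists_rho {J : Type} [Fintype J] (r : J → ℚ) (hr : ∀ j, 0 < r j ∧ r j < 1) : ∃ (q : ℕ) (ρ : J → ℕ), 1 ≤ q ∧
    (∀ j, r j = (ρ j : ℚ) / q) ∧ ∀ j, 0 < ρ j ∧ ρ j < q := by
  classical
  set q : ℕ := ∏ j, (r j).den with hq
  have hq0 : 0 < q := Finset.prod_pos fun j _ => (r j).den_pos
  have hqQ : (0 : ℚ) < q := by exact_mod_cast hq0
  have h1 : ∀ j, ∃ m : ℕ, q = (r j).den * m := fun j =>
    Finset.dvd_prod_of_mem (fun j => (r j).den) (Finset.mem_univ j)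
  choose m hm using h1
  have h2 : ∀ j, r j = (((r j).num.toNat * m j : ℕ) : ℚ) / q := by
    intro j
    have h3 : ((r j).num.toNat : ℤ) = (r j).num := Int.toNat_of_nonneg (Rat.num_nonneg.2 (hr j).1.le)
    have h4 : (((r j).num.toNat : ℕ) : ℚ) = ((r j).num : ℚ) := by exact_mod_cast h3
    have h5 : ((q : ℕ) : ℚ) = ((r j).den : ℚ) * (m j : ℚ) := by exact_mod_cast hm j
    have hd : ((r j).den : ℚ) ≠ 0 := by exact_mod_cast (r j).den_ne_zero
    have hm0 : (m j : ℚ) ≠ 0 := by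
      intro h0
      rw [h0, mul_zero] at h5
      exact hqQ.ne' h5
    rw [Nat.cast_mul, h4, h5, mul_div_mul_right _ _ hm0]
    exact (Rat.num_div_den (r j)).symm
  refine ⟨q, fun j => (r j).num.toNat * m j, hq0, h2, fun j => ?_⟩
  have h3 := hr j
  rw [h2 j] at h3
  obtain ⟨h4, h5⟩ := h3
  rw [div_lt_one hqQ] at h5
  have h6 : (0 : ℚ) < (((r j).num.toNat * m j : ℕ) : ℚ) := by
    by_contra h7
    have h8 : (((r j).num.toNat * m j : ℕ) : ℚ) / q ≤ 0 := div_nonpos_of_nonpos_of_nonneg (not_lt.1 h7) hqQ.le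
    linarith
  exact ⟨by exact_mod_cast h6, by exact_mod_cast h5⟩

/-- the numbering of the functions -/
noncomputable def et (n s : ℕ) : Fin (Fintype.card (Ti n s)) ≃ Ti n s := (Fintype.equivFin (Ti n s)).symm

/-- the functions, numbered -/
noncomputable def hX (n : ℕ) (Q : Polynomial ℚ) (r : Fin s → ℚ) (a : Fin (Fintype.card (Ti n s))) : ℚ⟦X⟧ := hT n Q r (et n s a)

lemma sdc_hT (hH : ∀ i j, SDc (Hp n Q i j)) {r : Fin s → ℚ} (hws : ∀ j, ∀ i < n, SDc (wps n Q (r j) i)) (i : Ti n s) :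
    SDc (hT n Q r i) := by
  rcases i with p | ⟨j, i⟩
  · exact hH p.1 p.2
  · show SDc (bw (fun i : Fin n => wps n Q (r j) i) i)
    refine Fin.lastCases ?_ (fun i => ?_) i
    · rw [bw_l]
      exact SDc.one
    · rw [bw_c]
      exact hws j i i.2

/-- **the hypothesis of the theorem on tuples** -/
theorem hfam_hX (hQ : QG n Q) (hH : ∀ i j, SDc (Hp n Q i j)) {W : Matrix (Fin n) (Fin n) ℚ⟦X⟧} (hHW : Hp n Q * W = 1)
    (hW : ∀ i j, SDc (W i j)) {r : Fin s → ℚ} (hr : ∀ j, 0 < r j ∧ r j < 1) (hws : ∀ j, ∀ i < n, SDc (wps n Q (r j) i))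
    (δ : ℕ) :
    ∃ (B : Finset (Fin δ → Option (Fin (Fintype.card (Ti n s))))) (a : Polynomial ℤ)
      (M : (Fin δ → Option (Fin (Fintype.card (Ti n s)))) → B → Polynomial ℤ), a ≠ 0 ∧
      (∀ b, Pool.Agent.Y113.ps a * yw (hX n Q r) b = ∑ β, Pool.Agent.Y113.ps (M b β) * yw (hX n Q r) β.1) ∧
      One (XF δ fun β : B => yw (hX n Q r) β.1) := by
  obtain ⟨q, ρ, hq, hrρ, hρ⟩ := exists_rho r hr
  obtain ⟨D₀, b₀, hD, hb₀⟩ := exists_b n Q
  have hn := hQ.two
  have hq0 : (q : ℚ) ≠ 0 := by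
    have : (0 : ℚ) < q := by exact_mod_cast hq
    exact this.ne'
  set D : ℕ := D₀ * q ^ n with hDd
  set b : Fin n → Fin n → ℤ := fun i j => b₀ i j * (q : ℤ) ^ n with hbd
  set dr : Fin s → ℤ := fun j => (D₀ : ℤ) * (q : ℤ) ^ (n - 1) * ρ j with hdrd
  set dn : Fin s → ℤ := fun j => (D₀ : ℤ) * (ρ j : ℤ) ^ n with hdnd
  have hb : ∀ i j, (b i j : ℚ) = D * Bm n Q i j := by
    intro i j
    rw [hbd, hDd]
    push_cast
    rw [hb₀ i j]
    ring
  have hqn : (q : ℚ) ^ n = q ^ (n - 1) * q := by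
    rw [← pow_succ]
    congr 1
    omega
  have hdr : ∀ j, (dr j : ℚ) = D * r j := by
    intro j
    rw [hrρ j, hdrd, hDd]
    push_cast
    rw [hqn]
    field_simp
  have hdn : ∀ j, (dn j : ℚ) = D * r j ^ n := by
    intro j
    rw [hrρ j, hdnd, hDd, div_pow]
    push_cast
    field_simp
  have hr0 : ∀ j, 0 < r j := fun j => (hr j).1
  obtain ⟨q', C', hG⟩ := tot_gsys hQ hH hHW hW hr hws hb hdr hdn
  have hG' := hG.reindex (et n s)
  have hT : Polynomial.X * T1 D ≠ 0 := by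
    have hD' : D ≠ 0 := mul_ne_zero hD (pow_ne_zero _ (by omega))
    refine mul_ne_zero Polynomial.X_ne_zero (mul_ne_zero (Polynomial.C_ne_zero.2 (by exact_mod_cast hD')) ?_)
    intro h0
    have := congrArg (Polynomial.eval 0) h0
    simp at this
  refine family_gsys (h := hX n Q r) (A := fun a c => At n D b dr dn (et n s a) (et n s c)) hT (fun i => ?_) hG'
    (qu_reindex (tot_qu hQ hH hq hrρ hρ hws hb hdr hdn) (et n s)) δ
  have h1 := tot_ode hQ hr0 hb hdr hdn (et n s i)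
  exact h1.trans (Equiv.sum_comp (et n s) fun q => Pool.Agent.Y113.ps (At n D b dr dn (et n s i) q) * MX.hT n Q r q).symm

/-! ### values -/

/-- the value of polynomials in convergent series -/
lemma ev_aeval_gen {m : ℕ} {h : Fin m → ℚ⟦X⟧} {t : ℝ} (ht0 : 0 < t) (hcv : ∀ j, Cv t (h j))
    (R : MvPolynomial (Fin m) (Polynomial ℚ)) :
    Cv t (MvPolynomial.aeval h R) ∧ ((ev t (MvPolynomial.aeval h R) : ℝ) : ℂ) =
      MvPolynomial.eval₂ (evq (((1 / t : ℝ)) : ℂ)) (fun j => ((ev t (h j) : ℝ) : ℂ)) R := by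
  induction R using MvPolynomial.induction_on with
  | C p =>
    have h1 : MvPolynomial.aeval h (MvPolynomial.C p) = (p : ℚ⟦X⟧) := by
      rw [MvPolynomial.aeval_C, PowerSeries.algebraMap_apply']
      simp
    rw [h1, MvPolynomial.eval₂_C]
    refine ⟨Cv.coe p, ?_⟩
    rw [ev_coe]
    unfold evq
    have h2 : (((1 / t : ℝ)) : ℂ) = algebraMap ℝ ℂ (1 / t) := rfl
    rw [h2]
    show _ = Polynomial.aeval (algebraMap ℝ ℂ (1 / t)) p
    rw [Polynomial.aeval_algebraMap_apply]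
    rfl
  | add p q hp hq =>
    rw [map_add, MvPolynomial.eval₂_add, ← hp.2, ← hq.2, Cv.ev_add ht0 hp.1 hq.1]
    refine ⟨Cv.add ht0 hp.1 hq.1, ?_⟩
    push_cast
    rfl
  | mul_X p j hp =>
    rw [map_mul, MvPolynomial.aeval_X, MvPolynomial.eval₂_mul, MvPolynomial.eval₂_X, ← hp.2, Cv.ev_mul ht0 hp.1 (hcv j)]
    refine ⟨Cv.mul ht0 hp.1 (hcv j), ?_⟩
    push_cast
    rfl

/-- the value of the inhomogeneous solution -/
lemma ev_wps (t : ℝ) (r : ℚ) (i : ℕ) : ((ev t (wps n Q r i) : ℝ) : ℂ) = wf n Q r i (((1 / t : ℝ)) : ℂ) := by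
  unfold ev wf Pool.Agent.Y119.HY.ps
  rw [Complex.ofReal_tsum]
  refine tsum_congr fun m => ?_
  rw [coeff_wps]
  push_cast
  rfl

lemma Cv_wps (hQ : QG n Q) {r : ℚ} (hr : 0 < r) {t : ℝ} (ht : 1 < t) (i : ℕ) : Cv t (wps n Q r i) := by
  have h1 := (wq_PG hQ hr i).summable (r := 1 / t) (by positivity) (by rw [div_lt_one (by linarith)]; exact ht)
  refine h1.congr fun m => ?_
  congr 1
  rw [coeff_wps]
  have h3 : ((wq n Q r i m : ℚ) : ℂ) = (((wq n Q r i m : ℚ) : ℝ) : ℂ) := by push_cast; rfl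
  rw [h3, Complex.norm_real, Real.norm_eq_abs]

/-- the point given by a matrix and vectors -/
def vX (M : Matrix (Fin n) (Fin n) ℂ) (y : Fin s → Fin n → ℂ) : Ti n s → ℂ
  | .inl p => M p.1 p.2
  | .inr p => if hi : (p.2 : ℕ) < n then y p.1 ⟨p.2, hi⟩ else 1

lemma ev_hT (t : ℝ) (r : Fin s → ℚ) (i : Ti n s) : ((ev t (hT n Q r i) : ℝ) : ℂ) =
    vX (Hf (Hc n Q) (((1 / t : ℝ)) : ℂ)) (fun j i => wf n Q (r j) i (((1 / t : ℝ)) : ℂ)) i := by
  rcases i with p | ⟨j, i⟩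
  · exact ev_Hp t p.1 p.2
  · show ((ev t (bw (fun i : Fin n => wps n Q (r j) i) i) : ℝ) : ℂ) = if hi : (i : ℕ) < n then _ else 1
    unfold bw
    split_ifs with hi
    · exact ev_wps t (r j) i
    · rw [ev_one]
      push_cast
      rfl

lemma Cv_hT (hQ : QG n Q) {r : Fin s → ℚ} (hr : ∀ j, 0 < r j) {t : ℝ} (ht : 1 < t) (i : Ti n s) : Cv t (hT n Q r i) := by
  rcases i with p | ⟨j, i⟩
  · exact Cv_Hp_g hQ ht p.1 p.2
  · show Cv t (bw (fun i : Fin n => wps n Q (r j) i) i)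
    unfold bw
    split_ifs with hi
    · exact Cv_wps hQ (hr j) ht i
    · have h1 : (1 : ℚ⟦X⟧) = ((1 : Polynomial ℚ) : ℚ⟦X⟧) := by simp
      rw [h1]
      exact Cv.coe 1

lemma evq_an (p : Polynomial ℚ) (U : Set ℂ) : AnalyticOnNhd ℂ (fun z : ℂ => evq z p) U := by
  have h1 : (fun z : ℂ => evq z p) = fun z => (p.map (algebraMap ℚ ℂ)).eval z := by
    funext z
    unfold evq
    show Polynomial.aeval z p = _
    rw [Polynomial.aeval_def, Polynomial.eval_map]
  rw [h1]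
  exact fun z _ => (Polynomial.differentiable (p.map (algebraMap ℚ ℂ))).analyticAt z

/-- **invariance of the relations** -/
theorem FamX.rel_inv {J0 : Matrix (Fin n) (Fin n) ℂ} {B : ℂ → Matrix (Fin n) (Fin n) ℂ} (hF : FamX n Q J0 B)
    {r : Fin s → ℚ} (hr : ∀ j, 0 < r j ∧ r j < 1) (hinj : Function.Injective r) (hne : ∀ j, ∀ l : ℕ, Q.eval ((l : ℚ) + r j) ≠ 0)
    {R : MvPolynomial (Fin (Fintype.card (Ti n s))) (Polynomial ℚ)} (hR : MvPolynomial.aeval (hX n Q r) R = 0)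
    {x : ℝ} (hx : 0 < x) (hx1 : x < 1) {κ : Matrix (Fin n) (Fin n) ℂ} (hκ : κ.transpose * J0 * κ = J0)
    (y : Fin s → Fin n → ℂ) :
    MvPolynomial.eval₂ (evq (x : ℂ)) (fun j => vX (Hf (Hc n Q) (x : ℂ) * κ) y (et n s j)) R = 0 := by
  classical
  obtain ⟨q, ρ, hq, hrρ, hρ⟩ := exists_rho r hr
  have hQ := hF.g
  have hr0 : ∀ j, 0 < r j := fun j => (hr j).1
  -- the functions of `z`
  set G : ℂ → ℂ := fun z => MvPolynomial.eval₂ (evq z) (fun j => vX (Hf (Hc n Q) z) (fun j i => wf n Q (r j) i z) (et n s j)) R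
    with hG
  have hvan : ∀ i : Ti n s, AnalyticOnNhd ℂ (fun z => vX (Hf (Hc n Q) z) (fun j i => wf n Q (r j) i z) i) (Metric.ball 0 1) := by
    intro i
    rcases i with p | ⟨j, i⟩
    · exact Hf_an (sol_c_g hQ) Ac_nil p.1 p.2
    · show AnalyticOnNhd ℂ (fun z => if hi : (i : ℕ) < n then wf n Q (r j) i z else 1) _
      split_ifs
      · exact wf_an hQ (hr0 j) i
      · exact analyticOnNhd_const
  have hGan : AnalyticOnNhd ℂ G (Metric.ball 0 1) := by
    rw [hG]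
    simp only [MvPolynomial.eval₂_eq]
    refine Finset.analyticOnNhd_fun_sum _ fun d _ => (evq_an _ _).mul ?_
    exact Finset.analyticOnNhd_fun_prod _ fun j _ => (hvan _).pow _
  have hreal : ∀ w : ℝ, 0 < w → w < 1 → G (w : ℂ) = 0 := by
    intro w hw hw1
    have hw' : 1 < 1 / w := by rw [lt_div_iff₀ hw]; linarith
    have h1 := (ev_aeval_gen (h := hX n Q r) (t := 1 / w) (by positivity) (fun j => Cv_hT hQ hr0 hw' _) R).2
    rw [hR] at h1
    have h2 : ev (1 / w) (0 : ℚ⟦X⟧) = 0 := by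
      unfold ev
      simp
    rw [h2, Complex.ofReal_zero, one_div_one_div] at h1
    have h3 : (fun j => ((ev (1 / w) (hX n Q r j) : ℝ) : ℂ)) =
        fun j => vX (Hf (Hc n Q) (w : ℂ)) (fun j i => wf n Q (r j) i (w : ℂ)) (et n s j) := by
      funext j
      unfold hX
      rw [ev_hT, one_div_one_div]
    rw [h3] at h1
    exact h1.symm
  have hG0 : ∀ z : ℂ, ‖z‖ < 1 → G z = 0 := by
    have hpre : IsPreconnected (Metric.ball (0 : ℂ) 1) := (convex_ball _ _).isPreconnected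
    have h0 : (1 / 2 : ℂ) ∈ Metric.ball (0 : ℂ) 1 := by
      rw [Metric.mem_ball, dist_zero_right]
      norm_num
    have hfreq : ∃ᶠ z in nhdsWithin (1 / 2 : ℂ) {1 / 2}ᶜ, G z = 0 := by
      rw [Filter.frequently_iff]
      intro W hW
      rw [mem_nhdsWithin_iff_exists_mem_nhds_inter] at hW
      obtain ⟨W', hW', hsub⟩ := hW
      obtain ⟨ε, hε, hball⟩ := Metric.mem_nhds_iff.1 hW'
      set ε' : ℝ := min (ε / 2) (1 / 4) with hε'
      have h4 : 0 < ε' := lt_min (by linarith) (by norm_num)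
      have h5 : ε' ≤ ε / 2 := min_le_left _ _
      have h6 : ε' ≤ 1 / 4 := min_le_right _ _
      refine ⟨((1 / 2 + ε' : ℝ) : ℂ), hsub ⟨hball ?_, ?_⟩, hreal _ (by linarith) (by linarith)⟩
      · rw [Metric.mem_ball, dist_eq_norm]
        have : ((1 / 2 + ε' : ℝ) : ℂ) - 1 / 2 = ((ε' : ℝ) : ℂ) := by push_cast; ring
        rw [this, Complex.norm_real, Real.norm_of_nonneg h4.le]
        linarith
      · intro h2
        have h3 : ((1 / 2 + ε' : ℝ) : ℂ) = 1 / 2 := h2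
        have h7 : ((1 / 2 + ε' : ℝ) : ℂ) = ((1 / 2 : ℝ) : ℂ) := by rw [h3]; push_cast; rfl
        have h8 : (1 / 2 + ε' : ℝ) = 1 / 2 := by exact_mod_cast h7
        linarith
    have h1 := hGan.eqOn_zero_of_preconnected_of_frequently_eq_zero hpre h0 hfreq
    intro z hz
    exact h1 (by rwa [Metric.mem_ball, dist_zero_right])
  -- the relation
  set F : Dm n s → ℂ := fun d => MvPolynomial.eval₂ (evq (d.1 ^ q)) (fun j => vX d.2.1 d.2.2 (et n s j)) R with hFd
  have hvmem : ∀ i : Ti n s, (fun d : Dm n s => vX d.2.1 d.2.2 i) ∈ Fn n s := by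
    intro i
    rcases i with p | ⟨j, i⟩
    · exact co_mem (some (some (.inl p)))
    · show (fun d : Dm n s => if hi : (i : ℕ) < n then d.2.2 j ⟨i, hi⟩ else 1) ∈ _
      split_ifs with hi
      · exact co_mem (some (some (.inr (j, ⟨i, hi⟩))))
      · exact const_mem _ 1
  have hFF : F ∈ Fn n s := by
    rw [hFd]
    simp only [MvPolynomial.eval₂_eq]
    refine sum_mem' _ _ fun d _ => ?_
    refine (Fn n s).mul_mem (x := fun D : Dm n s => evq (D.1 ^ q) (R.coeff d)) ?_ ?_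
    · have h1 : (fun D : Dm n s => evq (D.1 ^ q) (R.coeff d)) = fun D => ∑ e ∈ Finset.range ((R.coeff d).natDegree + 1),
          (((R.coeff d).coeff e : ℚ) : ℂ) * (D.1 ^ q) ^ e := by
        funext D
        unfold evq
        show Polynomial.aeval (D.1 ^ q) (R.coeff d) = _
        rw [Polynomial.aeval_eq_sum_range]
        refine Finset.sum_congr rfl fun e _ => ?_
        rw [Rat.smul_def]
      rw [h1]
      refine sum_mem' _ _ fun e _ => (Fn n s).mul_mem (const_mem _ _) ?_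
      exact pow_mem' _ (pow_mem' _ (co_mem none) q) e
    · have h2 : (fun D : Dm n s => ∏ j ∈ d.support, vX D.2.1 D.2.2 (et n s j) ^ d j) =
          ∏ j ∈ d.support, fun D : Dm n s => vX D.2.1 D.2.2 (et n s j) ^ d j := by
        funext D
        rw [Finset.prod_apply]
      rw [h2]
      exact (Fn n s).prod_mem fun j _ => pow_mem' _ (hvmem _) _
  have hRl : F ∈ Rl q (Hf (Hc n Q)) (fun j i => wf n Q (r j) i) := by
    refine ⟨hFF, fun u hu hu1 => ?_⟩
    have h1 := hG0 (u ^ q) (by rw [norm_pow]; exact pow_lt_one₀ (norm_nonneg _) hu1 (by omega))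
    exact h1
  -- the value
  have hq0 : (0 : ℝ) < q := by exact_mod_cast hq
  set u : ℝ := x ^ (1 / (q : ℝ)) with hu
  have hu0 : 0 < u := Real.rpow_pos_of_pos hx _
  have hu1 : u < 1 := Real.rpow_lt_one hx.le hx1 (by positivity)
  have huq : u ^ q = x := by
    rw [hu, ← Real.rpow_natCast, ← Real.rpow_mul hx.le, one_div, inv_mul_cancel₀ hq0.ne', Real.rpow_one]
  have h1 := hF.val hq hrρ (fun j j' h => hinj (by rw [hrρ j, hrρ j', h])) hρ hne hRl hu0 hu1 hκ y
  have huqc : (u : ℂ) ^ q = (x : ℂ) := by rw [← huq]; push_cast; rfl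
  rw [hFd] at h1
  simp only [huqc] at h1
  exact h1

end Run7.h893.MX
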