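import Pool.Agent.Run7.h893.MX.Rel

/-!
# Substitutions
-/

set_option autoImplicit false

open Pool.Agent.Y120.GF Pool.Agent.Y120.GH

namespace Run7.h893.MX

/-! ### substitutions -/

section gen

variable {κ ι O : Type} [Fintype O] {ω : O → ℂ}

/-- linear combinations of rational polynomials -/
def Lc (ω : O → ℂ) (p : MvPolynomial κ ℂ) : Prop := ∃ a : O → MvPolynomial κ ℚ,
  p = ∑ o, MvPolynomial.C (ω o) * MvPolynomial.map (algebraMap ℚ ℂ) (a o)

lemma Lc.sum {σ : Type} (S : Finset σ) {p : σ → MvPolynomial κ ℂ} (h : ∀ i ∈ S, Lc ω (p i)) : Lc ω (∑ i ∈ S, p i) := by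
  classical
  choose! a ha using h
  refine ⟨fun o => ∑ i ∈ S, a i o, ?_⟩
  rw [Finset.sum_congr rfl ha, Finset.sum_comm]
  refine Finset.sum_congr rfl fun o _ => ?_
  rw [map_sum, Finset.mul_sum]

lemma Lc.single (o : O) (q : MvPolynomial κ ℚ) : Lc ω (MvPolynomial.C (ω o) * MvPolynomial.map (algebraMap ℚ ℂ) q) := by
  classical
  refine ⟨fun o' => if o' = o then q else 0, ?_⟩
  rw [Finset.sum_eq_single o]
  · beta_reduce
    rw [if_pos rfl]
  · intro o' _ ho'
    beta_reduce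
    rw [if_neg ho', map_zero, mul_zero]
  · intro h
    exact absurd (Finset.mem_univ _) h

lemma Lc.one {o : O} (ho : ω o = 1) (q : MvPolynomial κ ℚ) : Lc ω (MvPolynomial.map (algebraMap ℚ ℂ) q) := by
  have h := Lc.single (ω := ω) o q
  rwa [ho, MvPolynomial.C_1, one_mul] at h

/-- coefficients in `V` -/
def CV (V : Submodule ℚ ℂ) (p : MvPolynomial κ ℂ) : Prop := ∀ m, p.coeff m ∈ V

lemma CV.mul_rat {V : Submodule ℚ ℂ} {p : MvPolynomial κ ℂ} (hp : CV V p) (q : MvPolynomial κ ℚ) :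
    CV V (p * MvPolynomial.map (algebraMap ℚ ℂ) q) := fun m => by
  classical
  rw [MvPolynomial.coeff_mul]
  refine Submodule.sum_mem _ fun x _ => ?_
  rw [MvPolynomial.coeff_map]
  have h1 : p.coeff x.1 * algebraMap ℚ ℂ (q.coeff x.2) = q.coeff x.2 • p.coeff x.1 := by
    rw [Algebra.smul_def, mul_comm]
  rw [h1]
  exact V.smul_mem _ (hp _)

lemma CV.mul {V : Submodule ℚ ℂ} {p s : MvPolynomial κ ℂ} (hp : CV V p) (hs : Lc ω s) : CV (Ext V ω) (p * s) := by
  obtain ⟨a, rfl⟩ := hs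
  intro m
  have h1 : (p * ∑ o, MvPolynomial.C (ω o) * MvPolynomial.map (algebraMap ℚ ℂ) (a o)).coeff m =
      ∑ o, (p * MvPolynomial.map (algebraMap ℚ ℂ) (a o)).coeff m * ω o := by
    rw [Finset.mul_sum, MvPolynomial.coeff_sum]
    refine Finset.sum_congr rfl fun o _ => ?_
    rw [mul_left_comm, MvPolynomial.coeff_C_mul, mul_comm]
  rw [h1]
  exact mem_Ext V ω fun o => (hp.mul_rat (a o)) m

/-- the iterated extensions -/
noncomputable def Wn (ω : O → ℂ) (V : Submodule ℚ ℂ) : ℕ → Submodule ℚ ℂ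
  | 0 => V
  | d + 1 => Ext (Wn ω V d) ω

lemma Wn_fin (ω : O → ℂ) (V : Submodule ℚ ℂ) [Module.Finite ℚ V] (d : ℕ) :
    Module.Finite ℚ (Wn ω V d) ∧ Module.finrank ℚ (Wn ω V d) ≤ (Fintype.card O) ^ d * Module.finrank ℚ V := by
  induction d with
  | zero =>
    refine ⟨?_, ?_⟩
    · show Module.Finite ℚ V
      infer_instance
    · rw [pow_zero, one_mul]
      exact le_rfl
  | succ d ih =>
    have := ih.1
    refine ⟨?_, ?_⟩
    · show Module.Finite ℚ (Ext (Wn ω V d) ω)
      infer_instance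
    · have h1 := finrank_Ext (Wn ω V d) ω
      refine h1.trans ?_
      rw [pow_succ', mul_assoc]
      exact Nat.mul_le_mul_left _ ih.2

lemma CV.ext {V : Submodule ℚ ℂ} {o : O} (ho : ω o = 1) {p : MvPolynomial κ ℂ} (hp : CV V p) : CV (Ext V ω) p := by
  have h := hp.mul (Lc.one ho 1)
  rwa [map_one, mul_one] at h

lemma CV_mono {o : O} (ho : ω o = 1) {V : Submodule ℚ ℂ} {d e : ℕ} (h : d ≤ e) {p : MvPolynomial κ ℂ}
    (hp : CV (Wn ω V d) p) : CV (Wn ω V e) p := by
  induction e, h using Nat.le_induction with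
  | base => exact hp
  | succ e _ ih => exact CV.ext ho ih

variable {sb : ι → MvPolynomial κ ℂ} {d : ℕ}

lemma CV_ms (h1 : ∀ v, Lc ω (sb v)) (h2 : ∀ v, (sb v).totalDegree ≤ d) {V : Submodule ℚ ℂ} {c : ℂ} (hc : c ∈ V)
    (ms : Multiset ι) :
    CV (Wn ω V (Multiset.card ms)) (MvPolynomial.C c * (ms.map sb).prod) ∧
      (MvPolynomial.C c * (ms.map sb).prod).totalDegree ≤ Multiset.card ms * d := by
  classical
  induction ms using Multiset.induction_on with
  | empty =>
    rw [Multiset.map_zero, Multiset.prod_zero, mul_one, Multiset.card_zero, zero_mul, MvPolynomial.totalDegree_C]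
    refine ⟨fun m => ?_, le_rfl⟩
    rw [MvPolynomial.coeff_C]
    split_ifs
    · exact hc
    · exact V.zero_mem
  | cons v ms ih =>
    have h3 : MvPolynomial.C c * ((v ::ₘ ms).map sb).prod = (MvPolynomial.C c * (ms.map sb).prod) * sb v := by
      rw [Multiset.map_cons, Multiset.prod_cons]
      ring
    rw [h3, Multiset.card_cons]
    refine ⟨CV.mul ih.1 (h1 v), (MvPolynomial.totalDegree_mul _ _).trans ?_⟩
    rw [add_mul, one_mul]
    exact add_le_add ih.2 (h2 v)

/-- the substituted polynomial -/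
theorem aeval_CV {o : O} (ho : ω o = 1) (h1 : ∀ v, Lc ω (sb v)) (h2 : ∀ v, (sb v).totalDegree ≤ d) {V : Submodule ℚ ℂ}
    {δ : ℕ} {P : MvPolynomial ι ℂ} (hP : P.totalDegree ≤ δ) (hV : ∀ s, P.coeff s ∈ V) :
    CV (Wn ω V δ) (MvPolynomial.aeval sb P) ∧ (MvPolynomial.aeval sb P).totalDegree ≤ δ * d := by
  classical
  have h3 : MvPolynomial.aeval sb P = ∑ s ∈ P.support, MvPolynomial.C (P.coeff s) *
      ((Finsupp.toMultiset s).map sb).prod := by
    rw [MvPolynomial.aeval_def, MvPolynomial.eval₂_eq]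
    refine Finset.sum_congr rfl fun s _ => ?_
    congr 1
    rw [Finsupp.toMultiset_map, Finsupp.prod_toMultiset, Finsupp.prod_mapDomain_index (by simp) (by
      intro a b c
      rw [pow_add])]
    rfl
  have h4 : ∀ s ∈ P.support, Multiset.card (Finsupp.toMultiset s) ≤ δ := by
    intro s hs
    rw [Finsupp.card_toMultiset]
    exact (MvPolynomial.le_totalDegree hs).trans hP
  rw [h3]
  refine ⟨fun m => ?_, ?_⟩
  · rw [MvPolynomial.coeff_sum]
    exact Submodule.sum_mem _ fun s hs => CV_mono ho (h4 s hs) (CV_ms h1 h2 (hV s) _).1 m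
  · refine (MvPolynomial.totalDegree_finsetSum _ _).trans (Finset.sup_le fun s hs => ?_)
    exact (CV_ms h1 h2 (hV s) _).2.trans (Nat.mul_le_mul_right _ (h4 s hs))

end gen

end Run7.h893.MX
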