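import Pool.Agent.Run7.h893.MX.CoreO

/-!
# The inhomogeneous hypergeometric equation: the series
-/

set_option autoImplicit false

open Filter Topology Matrix Pool.Agent.Y119.HY

namespace Run7.h893.MX

open Run7.h893.HO

variable {n : ℕ} {Q : Polynomial ℚ} {r : ℚ}

/-- the coefficients `∏_{l < k} Q(l + r) / (l + 1 + r) ^ n` -/
noncomputable def gq (n : ℕ) (Q : Polynomial ℚ) (r : ℚ) (k : ℕ) : ℚ :=
  ∏ l ∈ Finset.range k, (Q.eval ((l : ℚ) + r) / ((l : ℚ) + 1 + r) ^ n)

/-- the coefficients of `(θ + r)^i G` -/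
noncomputable def wq (n : ℕ) (Q : Polynomial ℚ) (r : ℚ) (i k : ℕ) : ℚ := ((k : ℚ) + r) ^ i * gq n Q r k

lemma gq_succ (k : ℕ) : gq n Q r (k + 1) = gq n Q r k * (Q.eval ((k : ℚ) + r) / ((k : ℚ) + 1 + r) ^ n) := by
  unfold gq
  rw [Finset.prod_range_succ]

lemma gq_zero : gq n Q r 0 = 1 := by
  unfold gq
  simp

lemma gq_rec (hr : 0 < r) (k : ℕ) : ((k : ℚ) + 1 + r) ^ n * gq n Q r (k + 1) = Q.eval ((k : ℚ) + r) * gq n Q r k := by
  have h1 : ((k : ℚ) + 1 + r) ^ n ≠ 0 := by positivity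
  rw [gq_succ]
  field_simp

/-- the recursion: the first rows -/
lemma wq_up (i k : ℕ) : ((k : ℚ) + r) * wq n Q r i k = wq n Q r (i + 1) k := by
  unfold wq
  rw [pow_succ]
  ring

/-- the recursion: the last row -/
lemma wq_last (hQ : QG n Q) (hr : 0 < r) (k : ℕ) : wq n Q r n (k + 1) = wq n Q r n k +
    ∑ l ∈ Finset.range n, Q.coeff l * wq n Q r l k := by
  have h1 : Q.eval ((k : ℚ) + r) = ((k : ℚ) + r) ^ n + ∑ l ∈ Finset.range n, Q.coeff l * ((k : ℚ) + r) ^ l := by
    rw [Polynomial.eval_eq_sum_range, hQ.deg, Finset.sum_range_succ]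
    have h2 : Q.coeff n = 1 := by
      rw [← hQ.deg]
      exact hQ.monic.coeff_natDegree
    rw [h2, one_mul, add_comm]
  have h2 := gq_rec (n := n) (Q := Q) hr k
  rw [h1] at h2
  unfold wq
  push_cast
  rw [h2, add_mul, Finset.sum_mul]
  congr 1
  exact Finset.sum_congr rfl fun l _ => by ring

/-- growth -/
lemma gq_bound (hQ : QG n Q) (hr : 0 < r) : ∃ p : ℕ, ∀ k, |((gq n Q r k : ℚ) : ℝ)| ≤ ((k : ℝ) + 1) ^ p := by
  -- the difference to `(x + 1) ^ n`
  set e : Polynomial ℚ := Q - (Polynomial.X + 1) ^ n with he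
  have hm : ((Polynomial.X + 1 : Polynomial ℚ) ^ n).Monic := by
    have := (Polynomial.monic_X_add_C (1 : ℚ)).pow n
    rwa [Polynomial.C_1] at this
  have hd : ((Polynomial.X + 1 : Polynomial ℚ) ^ n).natDegree = n := by
    rw [← Polynomial.C_1, Polynomial.natDegree_pow, Polynomial.natDegree_X_add_C, mul_one]
  have hdeg : e.natDegree < n := by
    have hn := hQ.two
    rcases eq_or_ne e 0 with h0 | h0
    · rw [h0, Polynomial.natDegree_zero]
      omega
    · refine (Polynomial.natDegree_lt_iff_degree_lt h0).2 ?_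
      have h1 := Polynomial.degree_sub_lt (p := Q) (q := (Polynomial.X + 1) ^ n) (by
        rw [Polynomial.degree_eq_natDegree hQ.monic.ne_zero, Polynomial.degree_eq_natDegree hm.ne_zero, hQ.deg, hd])
        hQ.monic.ne_zero (by rw [hQ.monic.leadingCoeff, hm.leadingCoeff])
      rwa [Polynomial.degree_eq_natDegree hQ.monic.ne_zero, hQ.deg] at h1
  set E : ℝ := ∑ l ∈ Finset.range n, |((e.coeff l : ℚ) : ℝ)| with hE
  have hE0 : 0 ≤ E := Finset.sum_nonneg fun _ _ => abs_nonneg _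
  have hr' : (0 : ℝ) < r := by exact_mod_cast hr
  have hstep : ∀ k : ℕ, |((Q.eval ((k : ℚ) + r) / ((k : ℚ) + 1 + r) ^ n : ℚ) : ℝ)| ≤ 1 + E / ((k : ℝ) + 1) := by
    intro k
    set y : ℝ := (k : ℝ) + r with hy
    have hk : (0 : ℝ) ≤ k := Nat.cast_nonneg k
    have hy0 : 0 ≤ y := by positivity
    have hy1 : (k : ℝ) + 1 + r = y + 1 := by rw [hy]; ring
    have h1 : ((Q.eval ((k : ℚ) + r) : ℚ) : ℝ) = (y + 1) ^ n + ∑ l ∈ Finset.range n, ((e.coeff l : ℚ) : ℝ) * y ^ l := by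
      have h2 : Q = (Polynomial.X + 1) ^ n + e := by rw [he]; ring
      have h3 : Q.eval ((k : ℚ) + r) = (((k : ℚ) + r) + 1) ^ n + ∑ l ∈ Finset.range n, e.coeff l * ((k : ℚ) + r) ^ l := by
        conv_lhs => rw [h2]
        rw [Polynomial.eval_add, Polynomial.eval_pow, Polynomial.eval_add, Polynomial.eval_X, Polynomial.eval_one,
          Polynomial.eval_eq_sum_range' hdeg]
      rw [h3, hy]
      push_cast
      rfl
    have h4 : |∑ l ∈ Finset.range n, ((e.coeff l : ℚ) : ℝ) * y ^ l| ≤ E * (y + 1) ^ (n - 1) := by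
      refine (Finset.abs_sum_le_sum_abs _ _).trans ?_
      rw [hE, Finset.sum_mul]
      refine Finset.sum_le_sum fun l hl => ?_
      rw [abs_mul, abs_of_nonneg (pow_nonneg hy0 l)]
      refine mul_le_mul_of_nonneg_left ?_ (abs_nonneg _)
      calc y ^ l ≤ (y + 1) ^ l := pow_le_pow_left₀ hy0 (by linarith) _
        _ ≤ (y + 1) ^ (n - 1) := pow_le_pow_right₀ (by linarith) (by have := Finset.mem_range.1 hl; omega)
    have hn := hQ.two
    have hpow : (y + 1) ^ n = (y + 1) ^ (n - 1) * (y + 1) := by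
      rw [← pow_succ]
      congr 1
      omega
    have hpos : 0 < (y + 1) ^ (n - 1) := by positivity
    push_cast
    rw [h1, hy1, abs_div, abs_of_pos (show 0 < (y + 1) ^ n by positivity), div_le_iff₀ (by positivity)]
    calc |(y + 1) ^ n + ∑ l ∈ Finset.range n, ((e.coeff l : ℚ) : ℝ) * y ^ l| ≤ (y + 1) ^ n + E * (y + 1) ^ (n - 1) := by
          refine (abs_add_le _ _).trans (add_le_add (le_of_eq (abs_of_pos (by positivity))) h4)
      _ ≤ (1 + E / ((k : ℝ) + 1)) * (y + 1) ^ n := by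
        rw [add_mul, one_mul]
        refine add_le_add le_rfl ?_
        rw [hpow]
        have h5 : 1 ≤ 1 / ((k : ℝ) + 1) * (y + 1) := by
          rw [one_div, ← div_eq_inv_mul, le_div_iff₀ (by positivity)]
          rw [hy]
          linarith
        calc E * (y + 1) ^ (n - 1) = E * (y + 1) ^ (n - 1) * 1 := by ring
          _ ≤ E * (y + 1) ^ (n - 1) * (1 / ((k : ℝ) + 1) * (y + 1)) := mul_le_mul_of_nonneg_left h5 (by positivity)
          _ = _ := by ring
  refine ⟨⌈E⌉₊, fun k => ?_⟩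
  induction k with
  | zero => simp [gq_zero]
  | succ k ih =>
    have hk : (0 : ℝ) < (k : ℝ) + 1 := by positivity
    have h1 : 1 + E / ((k : ℝ) + 1) ≤ (1 + 1 / ((k : ℝ) + 1)) ^ ⌈E⌉₊ := by
      have h2 := one_add_mul_le_pow (a := 1 / ((k : ℝ) + 1)) (by have : (0 : ℝ) ≤ 1 / ((k : ℝ) + 1) := by positivity
                                                                 linarith) ⌈E⌉₊
      refine le_trans ?_ h2
      have : E ≤ ⌈E⌉₊ := Nat.le_ceil _
      rw [mul_one_div]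
      gcongr
    rw [gq_succ]
    rw [Rat.cast_mul, abs_mul]
    calc |((gq n Q r k : ℚ) : ℝ)| * |((Q.eval ((k : ℚ) + r) / ((k : ℚ) + 1 + r) ^ n : ℚ) : ℝ)| ≤
          ((k : ℝ) + 1) ^ ⌈E⌉₊ * (1 + 1 / ((k : ℝ) + 1)) ^ ⌈E⌉₊ :=
            mul_le_mul ih ((hstep k).trans h1) (abs_nonneg _) (by positivity)
      _ = (((k : ℝ) + 1) * (1 + 1 / ((k : ℝ) + 1))) ^ ⌈E⌉₊ := by rw [mul_pow]
      _ = (((k + 1 : ℕ) : ℝ) + 1) ^ ⌈E⌉₊ := by
        congr 1
        push_cast
        field_simp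

lemma wq_PG (hQ : QG n Q) (hr : 0 < r) (i : ℕ) : PG fun k => ((wq n Q r i k : ℚ) : ℂ) := by
  induction i with
  | zero =>
    obtain ⟨p, hp⟩ := gq_bound hQ hr
    refine ⟨1, p, fun k => ?_⟩
    unfold wq
    simp only [pow_zero, one_mul]
    have e1 : ((gq n Q r k : ℚ) : ℂ) = (((gq n Q r k : ℚ) : ℝ) : ℂ) := by push_cast; rfl
    rw [e1, Complex.norm_real, Real.norm_eq_abs]
    exact hp k
  | succ i ih =>
    have h1 := ih.nat.add (ih.smul (r : ℂ))
    refine (congrArg PG ?_).mp h1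
    funext k
    rw [← wq_up]
    push_cast
    ring

/-- the functions -/
noncomputable def wf (n : ℕ) (Q : Polynomial ℚ) (r : ℚ) (i : ℕ) (z : ℂ) : ℂ := ps (fun k => ((wq n Q r i k : ℚ) : ℂ)) z

lemma wf_an (hQ : QG n Q) (hr : 0 < r) (i : ℕ) : AnalyticOnNhd ℂ (wf n Q r i) (Metric.ball 0 1) := ps_an (wq_PG hQ hr i)

lemma wf_up (hQ : QG n Q) (hr : 0 < r) (i : ℕ) {z : ℂ} (hz : ‖z‖ < 1) :
    z * deriv (wf n Q r i) z + r * wf n Q r i z = wf n Q r (i + 1) z := by
  have hg := wq_PG hQ hr i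
  unfold wf
  have h1 : (z * deriv (ps fun k => ((wq n Q r i k : ℚ) : ℂ)) z) = ps (fun k => (k : ℂ) * ((wq n Q r i k : ℚ) : ℂ)) z :=
    ps_deriv hg hz
  have h2 := ps_smul (c := fun k => ((wq n Q r i k : ℚ) : ℂ)) (r : ℂ) z
  have h3 : (fun z => ps (fun k => ((wq n Q r i k : ℚ) : ℂ)) z) = ps fun k => ((wq n Q r i k : ℚ) : ℂ) := rfl
  rw [h3, h1, ← h2, ← ps_add hg.nat (hg.smul _) hz]
  congr 1
  funext k
  rw [← wq_up]
  push_cast
  ring

lemma wf_last (hQ : QG n Q) (hr : 0 < r) {z : ℂ} (hz : ‖z‖ < 1) :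
    (1 - z) * wf n Q r n z = z * ∑ l ∈ Finset.range n, (Q.coeff l : ℂ) * wf n Q r l z + (r : ℂ) ^ n := by
  have hg := fun i => wq_PG hQ hr i
  have hs : PG fun k => ∑ l ∈ Finset.range n, (Q.coeff l : ℂ) * ((wq n Q r l k : ℚ) : ℂ) :=
    PG.sum _ fun l _ => (hg l).smul _
  have h1 : wf n Q r n z = (r : ℂ) ^ n + z * (wf n Q r n z + ∑ l ∈ Finset.range n, (Q.coeff l : ℂ) * wf n Q r l z) := by
    conv_lhs => unfold wf; rw [ps_shift (hg n) hz]
    congr 1
    · unfold wq
      rw [gq_zero, mul_one]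
      push_cast
      simp
    · congr 1
      have h2 : (fun k => ((wq n Q r n (k + 1) : ℚ) : ℂ)) = fun k => ((wq n Q r n k : ℚ) : ℂ) +
          ∑ l ∈ Finset.range n, (Q.coeff l : ℂ) * ((wq n Q r l k : ℚ) : ℂ) := by
        funext k
        rw [wq_last hQ hr]
        push_cast
        rfl
      rw [h2, ps_add (hg n) hs hz, ps_sum _ (fun l _ => (hg l).smul _) hz]
      unfold wf
      congr 1
      exact Finset.sum_congr rfl fun l _ => ps_smul _ _
  linear_combination h1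

lemma ratio_r (hQ : QG n Q) (r : ℚ) :
    Tendsto (fun k : ℕ => (((Q.eval ((k : ℚ) + r) / ((k : ℚ) + 1 + r) ^ n : ℚ)) : ℝ)) atTop (𝓝 1) := by
  set P : Polynomial ℝ := (Q.comp (Polynomial.X + Polynomial.C r)).map (algebraMap ℚ ℝ) with hP
  set R : Polynomial ℝ := (Polynomial.X + Polynomial.C ((1 + r : ℚ) : ℝ)) ^ n with hR
  have hRm : R.Monic := (Polynomial.monic_X_add_C _).pow n
  have hPm' : (Q.comp (Polynomial.X + Polynomial.C r)).Monic := hQ.monic.comp_X_add_C r
  have hPm : P.Monic := hPm'.map _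
  have hdeg : P.degree = R.degree := by
    rw [Polynomial.degree_eq_natDegree hPm.ne_zero, Polynomial.degree_eq_natDegree hRm.ne_zero, hP,
      Polynomial.natDegree_map, Polynomial.natDegree_comp, Polynomial.natDegree_X_add_C, mul_one, hQ.deg, hR,
      Polynomial.natDegree_pow, Polynomial.natDegree_X_add_C, mul_one]
  have h1 := Polynomial.div_tendsto_atTop_leadingCoeff_div_of_degree_eq P R hdeg
  rw [hPm.leadingCoeff, hRm.leadingCoeff, div_one] at h1
  have h2 := h1.comp (tendsto_natCast_atTop_atTop (R := ℝ))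
  refine h2.congr fun k => ?_
  simp only [Function.comp]
  rw [hR, Polynomial.eval_pow, Polynomial.eval_add, Polynomial.eval_X, Polynomial.eval_C, hP]
  push_cast
  have e1 : (k : ℝ) + (1 + (r : ℝ)) = (k : ℝ) + 1 + r := by ring
  rw [e1]
  congr 1
  rw [Polynomial.eval_map, ← Polynomial.aeval_def]
  have := Polynomial.aeval_algebraMap_apply ℝ (k : ℚ) (Q.comp (Polynomial.X + Polynomial.C r))
  simp only [map_natCast] at this
  rw [this, Polynomial.aeval_def]
  have e2 : Polynomial.eval₂ (algebraMap ℚ ℚ) (k : ℚ) (Q.comp (Polynomial.X + Polynomial.C r)) =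
      (Q.comp (Polynomial.X + Polynomial.C r)).eval (k : ℚ) := rfl
  rw [e2, Polynomial.eval_comp, Polynomial.eval_add, Polynomial.eval_X, Polynomial.eval_C]
  rfl

/-- the function is singular at one -/
lemma sing_r (hQ : QG n Q) (hr : 0 < r) (hne : ∀ l : ℕ, Q.eval ((l : ℚ) + r) ≠ 0) (g : ℂ → ℂ)
    (hg : AnalyticOnNhd ℂ g (Metric.ball 1 1)) (hext : ∀ z ∈ Lens, wf n Q r 0 z = g z) : False := by
  have e1 : ∀ z, wf n Q r 0 z = ps (fun k => (((gq n Q r k : ℚ) : ℝ) : ℂ)) z := by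
    intro z
    unfold wf
    congr 1
    funext k
    unfold wq
    rw [pow_zero, one_mul]
    push_cast
    rfl
  have hpg : PG fun k => (((gq n Q r k : ℚ) : ℝ) : ℂ) := by
    have h := wq_PG hQ hr 0
    refine (congrArg PG ?_).mp h
    funext k
    unfold wq
    rw [pow_zero, one_mul]
    push_cast
    rfl
  have hne' : ∀ k, gq n Q r k ≠ 0 := by
    intro k
    unfold gq
    refine Finset.prod_ne_zero_iff.2 fun l _ => div_ne_zero (hne l) ?_
    positivity
  obtain ⟨K₀, hK₀⟩ := Filter.eventually_atTop.1 ((ratio_r hQ r).eventually (lt_mem_nhds (show (9 / 10 : ℝ) < 1 by norm_num)))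
  have hstep : ∀ k, ((gq n Q r (k + 1) : ℚ) : ℝ) = ((gq n Q r k : ℚ) : ℝ) *
      ((Q.eval ((k : ℚ) + r) / ((k : ℚ) + 1 + r) ^ n : ℚ) : ℝ) := by
    intro k
    rw [gq_succ, Rat.cast_mul]
  rcases lt_or_gt_of_ne (hne' K₀) with h0 | h0
  · -- negative
    have hpos : ∀ k ≥ K₀, ((gq n Q r k : ℚ) : ℝ) < 0 := by
      intro k hk
      induction k, hk using Nat.le_induction with
      | base => exact_mod_cast h0
      | succ k hk ih =>
        rw [hstep]
        exact mul_neg_of_neg_of_pos ih (by linarith [hK₀ k hk])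
    refine no_ext (a := fun k => -((gq n Q r k : ℚ) : ℝ)) (K₀ := K₀) ?_ (fun k hk => by linarith [hpos k hk]) (fun k hk => ?_)
      (g := fun z => -g z) hg.neg fun z hz => ?_
    · have := hpg.smul (-1)
      refine (congrArg PG ?_).mp this
      funext k
      push_cast
      ring
    · rw [hstep]
      nlinarith [hpos k hk, hK₀ k hk]
    · rw [← hext z hz, e1 z]
      have := ps_smul (c := fun k => (((gq n Q r k : ℚ) : ℝ) : ℂ)) (-1) z
      rw [neg_one_mul] at this
      rw [← this]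
      congr 1
      funext k
      push_cast
      ring
  · have hpos : ∀ k ≥ K₀, 0 < ((gq n Q r k : ℚ) : ℝ) := by
      intro k hk
      induction k, hk using Nat.le_induction with
      | base => exact_mod_cast h0
      | succ k hk ih =>
        rw [hstep]
        exact mul_pos ih (by linarith [hK₀ k hk])
    refine no_ext hpg hpos (fun k hk => ?_) hg fun z hz => ?_
    · rw [hstep]
      nlinarith [hpos k hk, hK₀ k hk]
    · rw [← hext z hz, e1 z]

end Run7.h893.MX
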