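import Pool.Agent.Run7.h893.MX.Qu

/-!
# The G-system of the homogeneous and the inhomogeneous solutions
-/

set_option autoImplicit false

open PowerSeries
open Pool.Agent.Y113 hiding Bm
open Pool.Agent.Y113.HGG (tq)
open Pool.Agent.Y120.GF Pool.Agent.Y120.GH Pool.Agent.Y119.HZ
open Pool.Agent.Y119.HY (Am Bm Hq hq Hq_zero Am_nil cm Ep E Ac_nil GP)

namespace Run7.h893.MX

open Run7.h893.HO

variable {n s : ℕ} {Q : Polynomial ℚ}

/-- the indices -/
abbrev Ti (n s : ℕ) : Type := (Fin n × Fin n) ⊕ (Fin s × Fin (n + 1))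

/-- the functions: the entries of the holomorphic part, the inhomogeneous solutions and constants -/
noncomputable def hT (n : ℕ) (Q : Polynomial ℚ) (r : Fin s → ℚ) : Ti n s → ℚ⟦X⟧
  | .inl p => Hp n Q p.1 p.2
  | .inr p => bw (fun i : Fin n => wps n Q (r p.1) i) p.2

/-- the exponent -/
noncomputable def Rj (dr : ℤ) : Polynomial ℤ := Polynomial.C dr * (1 - Polynomial.X)

/-- the source -/
noncomputable def Sj (n : ℕ) (dn : ℤ) (i : Fin n) : Polynomial ℤ := if (i : ℕ) + 1 = n then Polynomial.C dn else 0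

/-- the matrix of the system -/
noncomputable def At (n D : ℕ) (b : Fin n → Fin n → ℤ) (dr dn : Fin s → ℤ) : Ti n s → Ti n s → Polynomial ℤ
  | .inl p, .inl p' => A2 n D b p p'
  | .inr p, .inr p' => if p.1 = p'.1 then Aw (Rj (dr p.1)) (A1 n D b) (Sj n (dn p.1)) p.2 p'.2 else 0
  | .inl _, .inr _ => 0
  | .inr _, .inl _ => 0

lemma tq_T1 (D : ℕ) : tq (T1 D) = Polynomial.C (D : ℚ) * (1 - Polynomial.X) := by
  unfold tq T1
  simp

lemma tq_Rj {dr : ℤ} {D : ℕ} {r : ℚ} (h : (dr : ℚ) = D * r) : tq (Rj dr) = Polynomial.C r * tq (T1 D) := by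
  rw [tq_T1, ← mul_assoc, ← Polynomial.C_mul, mul_comm r, ← h]
  unfold tq Rj
  simp

lemma ps_Rj {dr : ℤ} {D : ℕ} {r : ℚ} (h : (dr : ℚ) = D * r) : ps (Rj dr) = C (D : ℚ) * (1 - X) * C r := by
  have h1 : ps (Rj dr) = ((tq (Rj dr) : Polynomial ℚ) : ℚ⟦X⟧) := rfl
  rw [h1, tq_Rj h, tq_T1]
  rw [Polynomial.coe_mul, Polynomial.coe_mul, Polynomial.coe_sub, Polynomial.coe_one, Polynomial.coe_X, Polynomial.coe_C,
    Polynomial.coe_C]
  ring

/-- the differential equation of the inhomogeneous solutions -/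
lemma w_ode (hQ : QG n Q) {r : ℚ} (hr : 0 < r) {D : ℕ} {b : Fin n → Fin n → ℤ} (hb : ∀ i j, (b i j : ℚ) = D * Bm n Q i j)
    {dr dn : ℤ} (hdr : (dr : ℚ) = D * r) (hdn : (dn : ℚ) = D * r ^ n) (i : Fin n) :
    ps (T1 D) * (X * d⁄dX ℚ (wps n Q r i)) = ∑ k, ps (A1 n D b i k) * wps n Q r k - ps (Rj dr) * wps n Q r i +
      ps (Sj n dn i) := by
  have h1 : X * d⁄dX ℚ (wps n Q r i) = wps n Q r ((i : ℕ) + 1) - C r * wps n Q r i := by
    rw [← wps_up]
    ring
  have hA : ∑ k : Fin n, C (Am n i k) * wps n Q r k = if (i : ℕ) + 1 < n then wps n Q r ((i : ℕ) + 1) else 0 := by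
    unfold Am
    simp only [Matrix.of_apply]
    by_cases h2 : (i : ℕ) + 1 < n
    · rw [if_pos h2, Finset.sum_eq_single ⟨(i : ℕ) + 1, h2⟩]
      · rw [if_pos rfl, map_one, one_mul]
      · intro k _ hk
        rw [if_neg, map_zero, zero_mul]
        intro h3
        exact hk (Fin.ext h3)
      · intro h3
        exact absurd (Finset.mem_univ _) h3
    · rw [if_neg h2]
      refine Finset.sum_eq_zero fun k _ => ?_
      rw [if_neg (by have := k.2; omega), map_zero, zero_mul]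
  have hB : ∑ k : Fin n, C (Bm n Q i k) * wps n Q r k = if (i : ℕ) + 1 = n then
      ∑ l ∈ Finset.range n, C (Q.coeff l) * wps n Q r l else 0 := by
    unfold Bm
    simp only [Matrix.of_apply]
    by_cases h2 : (i : ℕ) + 1 = n
    · rw [if_pos h2, Finset.sum_range]
      simp only [if_pos h2]
    · rw [if_neg h2]
      simp only [if_neg h2, map_zero, zero_mul, Finset.sum_const_zero]
  have hAB : ∑ k, ps (A1 n D b i k) * wps n Q r k = C (D : ℚ) * ((1 - X) * ∑ k : Fin n, C (Am n i k) * wps n Q r k +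
      X * ∑ k : Fin n, C (Bm n Q i k) * wps n Q r k) := by
    rw [Finset.mul_sum, Finset.mul_sum, ← Finset.sum_add_distrib, Finset.mul_sum]
    refine Finset.sum_congr rfl fun k _ => ?_
    rw [ps_A1 hb]
    ring
  rw [hAB, hA, hB, h1, ps_T1, ps_Rj hdr]
  by_cases h2 : (i : ℕ) + 1 < n
  · have hS : ps (Sj n dn i) = 0 := by
      unfold Sj
      rw [if_neg (by omega)]
      simp [ps]
    rw [if_pos h2, if_neg (by omega), hS]
    ring
  · have h3 : (i : ℕ) + 1 = n := by have := i.2; omega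
    have hS : ps (Sj n dn i) = C (D : ℚ) * C (r ^ n) := by
      unfold Sj
      rw [if_pos h3]
      unfold ps
      rw [Polynomial.map_C, Polynomial.coe_C, ← map_mul, ← hdn]
      rfl
    have h4 := wps_last hQ hr
    rw [if_neg h2, if_pos h3, hS, h3]
    linear_combination C (D : ℚ) * h4

section tot

variable {r : Fin s → ℚ} {D : ℕ} {b : Fin n → Fin n → ℤ} {dr dn : Fin s → ℤ}

/-- the differential equation -/
lemma tot_ode (hQ : QG n Q) (hr : ∀ j, 0 < r j) (hb : ∀ i j, (b i j : ℚ) = D * Bm n Q i j)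
    (hdr : ∀ j, (dr j : ℚ) = D * r j) (hdn : ∀ j, (dn j : ℚ) = D * r j ^ n) (i : Ti n s) :
    ps (Polynomial.X * T1 D) * d⁄dX ℚ (hT n Q r i) = ∑ j, ps (At n D b dr dn i j) * hT n Q r j := by
  have h0 : ps (0 : Polynomial ℤ) = 0 := by simp [ps]
  rw [Fintype.sum_sum_type]
  rcases i with p | ⟨j, i⟩
  · have h1 := ode_A2_g hQ hb p
    have h2 : ∑ x : Fin s × Fin (n + 1), ps (At n D b dr dn (Sum.inl p) (Sum.inr x)) * hT n Q r (Sum.inr x) = 0 :=
      Finset.sum_eq_zero fun x _ => by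
        show ps (0 : Polynomial ℤ) * _ = 0
        rw [h0, zero_mul]
    rw [h2, add_zero]
    exact h1
  · have h2 : ∑ x : Fin n × Fin n, ps (At n D b dr dn (Sum.inr (j, i)) (Sum.inl x)) * hT n Q r (Sum.inl x) = 0 :=
      Finset.sum_eq_zero fun x _ => by
        show ps (0 : Polynomial ℤ) * _ = 0
        rw [h0, zero_mul]
    rw [h2, zero_add, Fintype.sum_prod_type, Finset.sum_eq_single j]
    · have h1 := bw_ode (T₁ := T1 D) (R₁ := Rj (dr j)) (A := A1 n D b) (S := Sj n (dn j)) (w := fun i : Fin n => wps n Q (r j) i)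
        (fun i => w_ode hQ (hr j) hb (hdr j) (hdn j) i) i
      refine h1.trans (Finset.sum_congr rfl fun k _ => ?_)
      show _ = ps (if j = j then Aw (Rj (dr j)) (A1 n D b) (Sj n (dn j)) i k else 0) * _
      rw [if_pos rfl]
      rfl
    · intro j' _ hj'
      refine Finset.sum_eq_zero fun k _ => ?_
      show ps (if j = j' then _ else 0) * _ = 0
      rw [if_neg (Ne.symm hj'), h0, zero_mul]
    · intro h3
      exact absurd (Finset.mem_univ _) h3

/-- **the functions form a G-system** -/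
theorem tot_gsys (hQ : QG n Q) (hH : ∀ i j, SDc (Hp n Q i j)) {W : Matrix (Fin n) (Fin n) ℚ⟦X⟧} (hHW : Hp n Q * W = 1)
    (hW : ∀ i j, SDc (W i j)) (hr : ∀ j, 0 < r j ∧ r j < 1) (hws : ∀ j, ∀ i < n, SDc (wps n Q (r j) i))
    (hb : ∀ i j, (b i j : ℚ) = D * Bm n Q i j)
    (hdr : ∀ j, (dr j : ℚ) = D * r j) (hdn : ∀ j, (dn j : ℚ) = D * r j ^ n) :
    ∃ (q : ℕ) (C : ℝ), GSys q C (Polynomial.X * T1 D) (hT n Q r) := by
  classical
  have hwo : ∀ (j : Fin s) (i : Fin n), ps (T1 D) * (X * d⁄dX ℚ (wps n Q (r j) i)) =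
      ∑ k : Fin n, ps (A1 n D b i k) * wps n Q (r j) k - ps (Rj (dr j)) * wps n Q (r j) i + ps (Sj n (dn j) i) :=
    fun j i => w_ode hQ (hr j).1 hb (hdr j) (hdn j) i
  have hode := ode_int_g hQ hb
  obtain ⟨q, B, hB, hbd⟩ := bd_exists (fun o : Option (Option ((Fin n × Fin n) ⊕ (Fin s × Fin (n + 1) × Fin (n + 1)))) =>
    match o with
    | none => Polynomial.X * T1 D
    | some none => T1 D
    | some (some (.inl p)) => A1 n D b p.1 p.2
    | some (some (.inr p)) => Aw (Rj (dr p.1)) (A1 n D b) (Sj n (dn p.1)) p.2.1 p.2.2)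
  have hT : Bd q B (Polynomial.X * T1 D) := hbd none
  have hT1 : Bd q B (T1 D) := hbd (some none)
  have hA : ∀ i j, Bd q B (A1 n D b i j) := fun i j => hbd (some (some (.inl (i, j))))
  have hAw : ∀ j i i', Bd q B (Aw (Rj (dr j)) (A1 n D b) (Sj n (dn j)) i i') := fun j i i' =>
    hbd (some (some (.inr (j, i, i'))))
  let P : Ti n s → Ti n s → ℕ → Polynomial ℚ := fun i i' => match i, i' with
    | .inl p, .inl p' => PP (T1 D) (A1 n D b) (Am n) p p'
    | .inr p, .inr p' => if p.1 = p'.1 then fun m => Ah (T1 D) (Rj (dr p.1)) (A1 n D b) (Sj n (dn p.1)) m p.2 p'.2 else fun _ => 0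
    | .inl _, .inr _ => fun _ => 0
    | .inr _, .inl _ => fun _ => 0
  refine ⟨q, Pool.Agent.Y119.HY.gsys_of_GP hT.1 (fun i => ?_) P (fun i i' => ?_) fun m i => ?_⟩
  · rcases i with p | ⟨j, i⟩
    · exact hH p.1 p.2
    · show SDc (bw (fun i : Fin n => wps n Q (r j) i) i)
      refine Fin.lastCases ?_ (fun i => ?_) i
      · rw [bw_l]
        exact SDc.one
      · rw [bw_c]
        exact hws j i i.2
  · rcases i with p | ⟨j, i⟩ <;> rcases i' with p' | ⟨j', i'⟩
    · exact PP_GP Am_nil hHW hode hH hW hB hT hA hT1.1 p p'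
    · exact GP.zero q
    · exact GP.zero q
    · show GP q (if j = j' then fun m => Ah (T1 D) (Rj (dr j)) (A1 n D b) (Sj n (dn j)) m i i' else fun _ => 0)
      split_ifs
      · exact Ah_GP Am_nil hHW hode hH hW (hr j).1 (hr j).2 (tq_Rj (hdr j)) (hwo j) (fun i => hws j i i.2) hB hT hA (hAw j)
          hT1.1 i i'
      · exact GP.zero q
  · rw [Fintype.sum_sum_type]
    rcases i with p | ⟨j, i⟩
    · have h1 := hd_PP (T₁ := T1 D) (A := A1 n D b) (N := Am n) hode m p
      have h2 : ∑ x : Fin s × Fin (n + 1), ((P (Sum.inl p) (Sum.inr x) m : Polynomial ℚ) : ℚ⟦X⟧) * MX.hT n Q r (Sum.inr x) = 0 :=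
        Finset.sum_eq_zero fun x _ => by
          show ((0 : Polynomial ℚ) : ℚ⟦X⟧) * _ = 0
          rw [Polynomial.coe_zero, zero_mul]
      rw [h2, add_zero]
      exact h1
    · have h2 : ∑ x : Fin n × Fin n, ((P (Sum.inr (j, i)) (Sum.inl x) m : Polynomial ℚ) : ℚ⟦X⟧) * MX.hT n Q r (Sum.inl x) = 0 :=
        Finset.sum_eq_zero fun x _ => by
          show ((0 : Polynomial ℚ) : ℚ⟦X⟧) * _ = 0
          rw [Polynomial.coe_zero, zero_mul]
      rw [h2, zero_add, Fintype.sum_prod_type, Finset.sum_eq_single j]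
      · refine (bw_hd (hwo j) m i).trans (Finset.sum_congr rfl fun k _ => ?_)
        show _ = (((if j = j then fun m => Ah (T1 D) (Rj (dr j)) (A1 n D b) (Sj n (dn j)) m i k else fun _ => 0) m : Polynomial ℚ) : ℚ⟦X⟧) * _
        rw [if_pos rfl]
        rfl
      · intro j' _ hj'
        refine Finset.sum_eq_zero fun k _ => ?_
        show (((if j = j' then fun m => Ah (T1 D) (Rj (dr j)) (A1 n D b) (Sj n (dn j)) m i k else fun _ => 0) m : Polynomial ℚ) : ℚ⟦X⟧) * _ = 0
        rw [if_neg (Ne.symm hj'), Polynomial.coe_zero, zero_mul]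
      · intro h3
        exact absurd (Finset.mem_univ _) h3

end tot

end Run7.h893.MX
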