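import Pool.Agent.Run7.h893.MX.Tot

/-!
# The solutions of the system at the origin
-/

set_option autoImplicit false

open PowerSeries
open Pool.Agent.Y113 hiding Bm
open Pool.Agent.Y113.HGG (tq)
open Pool.Agent.Y120.GF Pool.Agent.Y120.GH Pool.Agent.Y119.HZ
open Pool.Agent.Y119.HY (Am Bm Hq hq Hq_zero Am_nil cm Ep E Ac_nil GP)

namespace Run7.h893.MX

open Run7.h893.HO

variable {n s : ℕ} {Q : Polynomial ℚ}

/-- bounded coefficients -/
def BP (P : Polynomial (PowerSeries ℂ)) : Prop := ∃ K : ℝ, ∀ k m, ‖coeff m (P.coeff k)‖ ≤ K ^ (m + 1)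

lemma BP.zero : BP 0 := ⟨0, fun k m => by simp⟩

lemma BP.one : BP 1 := ⟨1, fun k m => by
  rw [Polynomial.coeff_one]
  split_ifs
  · rw [coeff_one]
    split_ifs <;> simp
  · simp⟩

lemma pow_mono_abs {a b : ℝ} (h : |a| ≤ b) (m : ℕ) : a ^ m ≤ b ^ m :=
  (le_abs_self _).trans (by rw [abs_pow]; exact pow_le_pow_left₀ (abs_nonneg _) h _)

lemma BP.add {P P' : Polynomial (PowerSeries ℂ)} (h : BP P) (h' : BP P') : BP (P + P') := by
  obtain ⟨K, hK⟩ := h
  obtain ⟨K', hK'⟩ := h'
  refine ⟨|K| + |K'|, fun k m => ?_⟩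
  rw [Polynomial.coeff_add, map_add]
  refine (norm_add_le _ _).trans ((add_le_add (hK k m) (hK' k m)).trans ?_)
  have h1 : K ^ (m + 1) ≤ |K| ^ (m + 1) := pow_mono_abs le_rfl _
  have h2 : K' ^ (m + 1) ≤ |K'| ^ (m + 1) := pow_mono_abs le_rfl _
  exact (add_le_add h1 h2).trans (pow_add_pow_le (abs_nonneg K) (abs_nonneg K') (by omega))

lemma BP.sum {ι : Type*} (S : Finset ι) {P : ι → Polynomial (PowerSeries ℂ)} (h : ∀ i ∈ S, BP (P i)) : BP (∑ i ∈ S, P i) := by
  classical
  induction S using Finset.induction_on with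
  | empty => simpa using BP.zero
  | insert a S ha ih =>
    rw [Finset.sum_insert ha]
    exact (h a (Finset.mem_insert_self _ _)).add (ih fun i hi => h i (Finset.mem_insert_of_mem hi))

lemma BP.mk {f : ℚ⟦X⟧} (hf : SDc f) (p : Polynomial ℂ) : BP (Polynomial.C (cx f) * p.map (C (R := ℂ))) := by
  obtain ⟨l, hl⟩ := hf
  obtain ⟨B, hB⟩ := coeff_bound p
  refine ⟨2 ^ l * (|B| + 1), fun k m => ?_⟩
  rw [Polynomial.coeff_C_mul, Polynomial.coeff_map, PowerSeries.coeff_mul_C, norm_mul, norm_coeff_cx, mul_pow]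
  refine mul_le_mul (hl.1 m) ((hB k).trans ?_) (norm_nonneg _) (by positivity)
  have h1 : (1 : ℝ) ≤ |B| + 1 := by linarith [abs_nonneg B]
  exact ((le_abs_self B).trans (by linarith)).trans (le_self_pow₀ h1 (by omega))

lemma BP.unif {ι : Type} [Fintype ι] {P : ι → Polynomial (PowerSeries ℂ)} (h : ∀ i, BP (P i)) :
    ∃ K : ℝ, ∀ i k m, ‖coeff m ((P i).coeff k)‖ ≤ K ^ (m + 1) := by
  choose K hK using h
  refine ⟨∑ i, |K i|, fun i k m => (hK i k m).trans (pow_mono_abs ?_ _)⟩
  exact Finset.single_le_sum (f := fun i => |K i|) (fun _ _ => abs_nonneg _) (Finset.mem_univ i)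

/-- the homogeneous solutions -/
noncomputable def Zs (n : ℕ) (Q : Polynomial ℚ) (i j : Fin n) : Polynomial (PowerSeries ℂ) :=
  ∑ c, Polynomial.C (cx (Hp n Q i c)) * (Ep (cm (Am n)) c j).map (C (R := ℂ))

lemma Zs_coeff (i j : Fin n) (k : ℕ) : (Zs n Q i j).coeff k = ∑ c, cx (Hp n Q i c) * C ((Ep (cm (Am n)) c j).coeff k) := by
  unfold Zs
  rw [Polynomial.finsetSum_coeff]
  refine Finset.sum_congr rfl fun c _ => ?_
  rw [Polynomial.coeff_C_mul, Polynomial.coeff_map]

lemma Zs_ode (hQ : QG n Q) {D : ℕ} {b : Fin n → Fin n → ℤ} (hb : ∀ i j, (b i j : ℚ) = D * Bm n Q i j) (i j : Fin n) (k : ℕ) :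
    cxR (T1 D) * ((X : PowerSeries ℂ) * PowerSeries.derivative ℂ ((Zs n Q i j).coeff k) +
      ((k : PowerSeries ℂ) + 1) * (Zs n Q i j).coeff (k + 1)) = ∑ l, cxR (Pool.Agent.Y119.HZ.A1 n D b i l) * (Zs n Q l j).coeff k := by
  have hN : cm (Am n) ^ n = 0 := Ac_nil
  set N := cm (Am n) with hNd
  -- the equation over the complex numbers
  have hode : ∀ i j, cxR (T1 D) * (X * PowerSeries.derivative ℂ (cx (Hp n Q i j)) + ∑ k, cx (Hp n Q i k) * C (N k j)) =
      ∑ k, cxR (Pool.Agent.Y119.HZ.A1 n D b i k) * cx (Hp n Q k j) := by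
    intro i j
    have h1 := congrArg cx (ode_int_g hQ hb i j)
    rw [map_mul, map_add, map_mul, map_sum, map_sum, cx_der] at h1
    have h2 : cx (X : ℚ⟦X⟧) = X := by rw [cx, map_X]
    rw [h2] at h1
    simp only [map_mul, cx_C] at h1
    exact h1
  have hE : ∀ c, ((k : ℂ) + 1) * (Ep N c j).coeff (k + 1) = ∑ d, N c d * (Ep N d j).coeff k := by
    intro c
    have h2 := congrArg (fun p => p.coeff k) (Ep_deriv hN c j)
    simp only [Polynomial.coeff_derivative, Polynomial.finsetSum_coeff, Polynomial.coeff_C_mul] at h2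
    rw [mul_comm]
    exact h2
  simp only [Zs_coeff]
  have hd : PowerSeries.derivative ℂ (∑ c, cx (Hp n Q i c) * C ((Ep N c j).coeff k)) =
      ∑ c, PowerSeries.derivative ℂ (cx (Hp n Q i c)) * C ((Ep N c j).coeff k) := by
    rw [map_sum]
    refine Finset.sum_congr rfl fun c _ => ?_
    rw [Derivation.leibniz, PowerSeries.derivative_C]
    simp only [smul_eq_mul]
    ring
  have hk : ((k : PowerSeries ℂ) + 1) * ∑ c, cx (Hp n Q i c) * C ((Ep N c j).coeff (k + 1)) =
      ∑ d, (∑ c, cx (Hp n Q i c) * C (N c d)) * C ((Ep N d j).coeff k) := by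
    have e1 : ((k : PowerSeries ℂ) + 1) = C ((k : ℂ) + 1) := by rw [map_add, map_one, map_natCast]
    have e2 : ∀ c, C ((k : ℂ) + 1) * (cx (Hp n Q i c) * C ((Ep N c j).coeff (k + 1))) =
        cx (Hp n Q i c) * ∑ d, C (N c d) * C ((Ep N d j).coeff k) := by
      intro c
      have e3 : C ((k : ℂ) + 1) * C ((Ep N c j).coeff (k + 1)) = ∑ d, C (N c d) * C ((Ep N d j).coeff k) := by
        rw [← map_mul, hE, map_sum]
        simp only [map_mul]
      rw [← e3]
      ring
    rw [e1, Finset.mul_sum, Finset.sum_congr rfl fun c _ => e2 c]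
    simp only [Finset.mul_sum, Finset.sum_mul]
    rw [Finset.sum_comm]
    exact Finset.sum_congr rfl fun c _ => Finset.sum_congr rfl fun d _ => by ring
  rw [hd, hk]
  have e1 : (X : PowerSeries ℂ) * ∑ c, PowerSeries.derivative ℂ (cx (Hp n Q i c)) * C ((Ep N c j).coeff k) +
      ∑ d, (∑ c, cx (Hp n Q i c) * C (N c d)) * C ((Ep N d j).coeff k) =
      ∑ c, (X * PowerSeries.derivative ℂ (cx (Hp n Q i c)) + ∑ d, cx (Hp n Q i d) * C (N d c)) * C ((Ep N c j).coeff k) := by
    rw [Finset.mul_sum, ← Finset.sum_add_distrib]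
    exact Finset.sum_congr rfl fun c _ => by ring
  rw [e1, Finset.mul_sum]
  have e2 : ∀ c, cxR (T1 D) * ((X * PowerSeries.derivative ℂ (cx (Hp n Q i c)) + ∑ d, cx (Hp n Q i d) * C (N d c)) *
        C ((Ep N c j).coeff k)) = ∑ k', cxR (Pool.Agent.Y119.HZ.A1 n D b i k') * (cx (Hp n Q k' c) * C ((Ep N c j).coeff k)) := by
    intro c
    rw [← mul_assoc, hode i c, Finset.sum_mul]
    exact Finset.sum_congr rfl fun k' _ => by ring
  rw [Finset.sum_congr rfl fun c _ => e2 c, Finset.sum_comm]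
  exact Finset.sum_congr rfl fun k' _ => by rw [Finset.mul_sum]

lemma rho_C_map (f : ℚ⟦X⟧) (p : Polynomial ℂ) : rho (Polynomial.C (cx f) * p.map (C (R := ℂ))) =
    ((coeff 0 f : ℚ) : ℂ) * p.eval 0 := by
  unfold rho
  rw [map_mul, RingHom.comp_apply, RingHom.comp_apply, Polynomial.coe_evalRingHom, Polynomial.eval_C]
  congr 1
  · rw [← coeff_zero_eq_constantCoeff_apply, coeff_cx]
  · have h3 : Polynomial.eval 0 (p.map (C (R := ℂ))) = C (p.eval 0) := by
      have := Polynomial.eval_map_apply (p := p) (C (R := ℂ)) 0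
      rw [map_zero] at this
      exact this
    rw [h3]
    simp

lemma rho_Zs (i j : Fin n) : rho (Zs n Q i j) = if i = j then 1 else 0 := by
  unfold Zs
  rw [map_sum]
  simp only [rho_C_map]
  have h2 : ∀ c, coeff 0 (Hp n Q i c) = Hq n Q 0 i c := fun c => congrFun (congrFun (cf_Hp (Q := Q) 0) i) c
  simp only [h2, Hq_zero, Ep_eval_zero Ac_nil]
  rw [Finset.sum_eq_single i]
  · rw [Matrix.one_apply_eq]
    simp
  · intro c _ hc
    rw [Matrix.one_apply_ne (Ne.symm hc)]
    simp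
  · intro h
    exact absurd (Finset.mem_univ _) h

/-- the block of an inhomogeneous equation -/
noncomputable def Pw (n : ℕ) (Q : Polynomial ℚ) (r : ℚ) (i j : Fin (n + 1)) : Polynomial (PowerSeries ℂ) :=
  if hi : (i : ℕ) < n then (if hj : (j : ℕ) < n then Zs n Q ⟨i, hi⟩ ⟨j, hj⟩ else Polynomial.C (cx (wps n Q r i)))
  else (if (j : ℕ) < n then 0 else 1)

lemma Pw_cc {r : ℚ} (i j : Fin n) : Pw n Q r i.castSucc j.castSucc = Zs n Q i j := by
  unfold Pw
  rw [dif_pos (by simp), dif_pos (by simp)]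
  rfl

lemma Pw_cl {r : ℚ} (i : Fin n) : Pw n Q r i.castSucc (Fin.last n) = Polynomial.C (cx (wps n Q r i)) := by
  unfold Pw
  rw [dif_pos (by simp), dif_neg (by simp)]
  rfl

lemma Pw_lc {r : ℚ} (j : Fin n) : Pw n Q r (Fin.last n) j.castSucc = 0 := by
  unfold Pw
  rw [dif_neg (by simp), if_pos (by simp)]

lemma Pw_ll {r : ℚ} : Pw n Q r (Fin.last n) (Fin.last n) = 1 := by
  unfold Pw
  rw [dif_neg (by simp), if_neg (by simp)]

lemma Pw_BP (hH : ∀ i j, SDc (Hp n Q i j)) {r : ℚ} (hws : ∀ i < n, SDc (wps n Q r i)) (i j : Fin (n + 1)) :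
    BP (Pw n Q r i j) := by
  refine Fin.lastCases ?_ (fun i => ?_) i
  · refine Fin.lastCases ?_ (fun j => ?_) j
    · rw [Pw_ll]
      exact BP.one
    · rw [Pw_lc]
      exact BP.zero
  · refine Fin.lastCases ?_ (fun j => ?_) j
    · rw [Pw_cl]
      have h1 := BP.mk (hws i i.2) 1
      rw [Polynomial.map_one, mul_one] at h1
      exact h1
    · rw [Pw_cc]
      exact BP.sum _ fun c _ => BP.mk (hH i c) _

lemma cxR_Rj {dr : ℤ} {D : ℕ} {r : ℚ} (h : (dr : ℚ) = D * r) : cxR (Rj dr) = cxR (T1 D) * C (r : ℂ) := by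
  have h1 : cxR (Rj dr) = cx (ps (Rj dr)) := rfl
  have h2 : cxR (T1 D) = cx (ps (T1 D)) := rfl
  rw [h1, h2, ps_Rj h, ps_T1, map_mul (cx) _ (C r), cx_C]

lemma Pw_ode (hQ : QG n Q) {r : ℚ} (hr : 0 < r) {D : ℕ} {b : Fin n → Fin n → ℤ} (hb : ∀ i j, (b i j : ℚ) = D * Bm n Q i j)
    {dr dn : ℤ} (hdr : (dr : ℚ) = D * r) (hdn : (dn : ℚ) = D * r ^ n) (i j : Fin (n + 1)) (k : ℕ) :
    cxR (T1 D) * ((X : PowerSeries ℂ) * PowerSeries.derivative ℂ ((Pw n Q r i j).coeff k) +
      ((k : PowerSeries ℂ) + 1) * (Pw n Q r i j).coeff (k + 1) - C (if (j : ℕ) < n then (r : ℂ) else 0) * (Pw n Q r i j).coeff k) =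
      ∑ l, cxR (Aw (Rj dr) (Pool.Agent.Y119.HZ.A1 n D b) (Sj n dn) i l) * (Pw n Q r l j).coeff k := by
  refine Fin.lastCases ?_ (fun i => ?_) i
  · -- the last row
    simp only [Aw_l, map_zero, zero_mul, Finset.sum_const_zero]
    refine Fin.lastCases ?_ (fun j => ?_) j
    · rw [Pw_ll, if_neg (by simp), Polynomial.coeff_one, Polynomial.coeff_one, if_neg (Nat.succ_ne_zero k)]
      by_cases hk : k = 0
      · rw [if_pos hk]
        simp
      · rw [if_neg hk]
        simp
    · rw [Pw_lc]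
      simp
  · rw [Fin.sum_univ_castSucc, Aw_cl]
    simp only [Aw_cc]
    have h1 : ∀ k' : Fin n, cxR (Pool.Agent.Y119.HZ.A1 n D b i k' - (if i = k' then Rj dr else 0)) = cxR (Pool.Agent.Y119.HZ.A1 n D b i k') -
        (if i = k' then cxR (Rj dr) else 0) := by
      intro k'
      rw [map_sub]
      split_ifs
      · rfl
      · rw [map_zero]
    simp only [h1]
    refine Fin.lastCases ?_ (fun j => ?_) j
    · rw [Pw_ll, if_neg (by simp)]
      simp only [Pw_cl, Polynomial.coeff_C, Polynomial.coeff_one]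
      rw [if_neg (Nat.succ_ne_zero k), mul_zero, add_zero, map_zero, zero_mul, sub_zero]
      by_cases hk : k = 0
      · subst hk
        simp only [if_true]
        have h2 := congrArg cx (w_ode hQ hr hb hdr hdn i)
        rw [map_mul, map_mul, cx_der, map_add, map_sub, map_sum, map_mul] at h2
        simp only [map_mul] at h2
        have h3 : cx (X : ℚ⟦X⟧) = X := by rw [cx, map_X]
        rw [h3] at h2
        simp only [sub_mul, Finset.sum_sub_distrib, ite_mul, zero_mul]
        rw [Finset.sum_ite_eq Finset.univ i, if_pos (Finset.mem_univ _), mul_one]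
        exact h2
      · simp only [if_neg hk, map_zero, mul_zero, Finset.sum_const_zero, add_zero]
    · rw [Pw_lc, Pw_cc, if_pos (by simp)]
      simp only [Pw_cc]
      rw [Polynomial.coeff_zero, mul_zero, add_zero, mul_sub, Zs_ode hQ hb]
      simp only [sub_mul, Finset.sum_sub_distrib, ite_mul, zero_mul]
      rw [Finset.sum_ite_eq Finset.univ i, if_pos (Finset.mem_univ _), cxR_Rj hdr]
      ring

/-- the matrix of the solutions -/
noncomputable def Ps (n : ℕ) (Q : Polynomial ℚ) (r : Fin s → ℚ) : Ti n s → Ti n s → Polynomial (PowerSeries ℂ)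
  | .inl p, .inl p' => Phi n Q p p'
  | .inr p, .inr p' => if p.1 = p'.1 then Pw n Q (r p.1) p.2 p'.2 else 0
  | .inl _, .inr _ => 0
  | .inr _, .inl _ => 0

/-- the exponents of the solutions -/
def rx (ρ : Fin s → ℕ) : Ti n s → ℕ
  | .inl _ => 0
  | .inr p => if (p.2 : ℕ) < n then ρ p.1 else 0

section tot

variable {r : Fin s → ℚ} {D : ℕ} {b : Fin n → Fin n → ℤ} {dr dn : Fin s → ℤ}

/-- the nilpotent part at the origin -/
noncomputable def Us (n : ℕ) (r : Fin s → ℚ) : Ti n s → Ti n s → ℂ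
  | .inr p, .inr p' => if p.1 = p'.1 ∧ (p.2 : ℕ) < n ∧ ¬ (p'.2 : ℕ) < n then ((r p.1 : ℚ) : ℂ) ^ (p.2 : ℕ) else 0
  | _, _ => 0

lemma rho_Ps (i i' : Ti n s) : rho (Ps n Q r i i') = (if i = i' then 1 else 0) + Us n r i i' := by
  rcases i with p | ⟨j, i⟩ <;> rcases i' with p' | ⟨j', i'⟩
  · show rho (Phi n Q p p') = _ + 0
    rw [rho_Phi, add_zero]
    congr 1
    simp
  · show rho 0 = _ + 0
    simp
  · show rho 0 = _ + 0
    simp
  · show rho (if j = j' then Pw n Q (r j) i i' else 0) = _ +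
      (if j = j' ∧ (i : ℕ) < n ∧ ¬ (i' : ℕ) < n then ((r j : ℚ) : ℂ) ^ (i : ℕ) else 0)
    by_cases hj : j = j'
    · subst hj
      rw [if_pos rfl]
      have e1 : ((Sum.inr (j, i) : Ti n s) = Sum.inr (j, i')) = (i = i') := by simp
      simp only [e1, true_and]
      refine Fin.lastCases ?_ (fun i => ?_) i
      · refine Fin.lastCases ?_ (fun i' => ?_) i'
        · rw [Pw_ll]
          simp
        · rw [Pw_lc]
          have h2 : Fin.last n ≠ i'.castSucc := (Fin.castSucc_lt_last i').ne'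
          simp [h2]
      · refine Fin.lastCases ?_ (fun i' => ?_) i'
        · rw [Pw_cl]
          have h1 := rho_C_map (wps n Q (r j) i) 1
          rw [Polynomial.map_one, mul_one, Polynomial.eval_one, mul_one, coeff_wps] at h1
          rw [h1]
          unfold wq
          rw [gq_zero, mul_one]
          have h2 : i.castSucc ≠ Fin.last n := (Fin.castSucc_lt_last i).ne
          rw [if_neg h2, if_pos ⟨by simp, by simp⟩]
          push_cast
          simp
        · rw [Pw_cc, rho_Zs]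
          simp
    · rw [if_neg hj, map_zero]
      have e1 : ¬ ((Sum.inr (j, i) : Ti n s) = Sum.inr (j', i')) := by
        intro h
        simp only [Sum.inr.injEq, Prod.mk.injEq] at h
        exact hj h.1
      rw [if_neg e1, if_neg (fun h => hj h.1), add_zero]

lemma Us_sq (i i' : Ti n s) : ∑ l, Us n r i l * Us n r l i' = 0 := by
  refine Finset.sum_eq_zero fun l _ => ?_
  rcases i with p | ⟨j, i⟩ <;> rcases l with q | ⟨k, l⟩ <;> rcases i' with p' | ⟨j', i'⟩
  all_goals try (show (0 : ℂ) * _ = 0; rw [zero_mul])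
  all_goals try (show _ * (0 : ℂ) = 0; rw [mul_zero])
  show (if j = k ∧ (i : ℕ) < n ∧ ¬ (l : ℕ) < n then ((r j : ℚ) : ℂ) ^ (i : ℕ) else 0) *
    (if k = j' ∧ (l : ℕ) < n ∧ ¬ (i' : ℕ) < n then ((r k : ℚ) : ℂ) ^ (l : ℕ) else 0) = 0
  by_cases h : (l : ℕ) < n
  · rw [if_neg (fun h1 => h1.2.2 h), zero_mul]
  · rw [if_neg (c := k = j' ∧ (l : ℕ) < n ∧ ¬ (i' : ℕ) < n) (fun h1 => h h1.2.1), mul_zero]

lemma Ps_det : (Matrix.of (Ps n Q r) : Matrix (Ti n s) (Ti n s) _).det ≠ 0 := by
  intro h0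
  have h1 := congrArg rho h0
  rw [RingHom.map_det, map_zero] at h1
  have h2 : rho.mapMatrix (Matrix.of (Ps n Q r) : Matrix (Ti n s) (Ti n s) _) = 1 + Matrix.of (Us n r) := by
    ext i i'
    rw [RingHom.mapMatrix_apply, Matrix.map_apply, Matrix.of_apply, rho_Ps, Matrix.add_apply, Matrix.one_apply, Matrix.of_apply]
  have h3 : (1 + Matrix.of (Us n r) : Matrix (Ti n s) (Ti n s) ℂ) * (1 - Matrix.of (Us n r)) = 1 := by
    have h4 : (Matrix.of (Us n r) : Matrix (Ti n s) (Ti n s) ℂ) * Matrix.of (Us n r) = 0 := by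
      ext i i'
      rw [Matrix.mul_apply]
      exact Us_sq i i'
    rw [add_mul, mul_sub, mul_sub, h4]
    simp
  rw [h2] at h1
  have h5 := congrArg Matrix.det h3
  rw [Matrix.det_mul, h1, zero_mul, Matrix.det_one] at h5
  exact zero_ne_one h5

/-- **the hypothesis at the origin** -/
theorem tot_qu (hQ : QG n Q) (hH : ∀ i j, SDc (Hp n Q i j)) {q : ℕ} (hq : 1 ≤ q) {ρ : Fin s → ℕ}
    (hrρ : ∀ j, r j = (ρ j : ℚ) / q) (hρ : ∀ j, 0 < ρ j ∧ ρ j < q) (hws : ∀ j, ∀ i < n, SDc (wps n Q (r j) i))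
    (hb : ∀ i j, (b i j : ℚ) = D * Bm n Q i j)
    (hdr : ∀ j, (dr j : ℚ) = D * r j) (hdn : ∀ j, (dn j : ℚ) = D * r j ^ n) :
    QU0 (Polynomial.X * T1 D) (At n D b dr dn) := by
  classical
  have hq0 : (0 : ℚ) < q := by exact_mod_cast hq
  have hr0 : ∀ j, 0 < r j := fun j => by
    rw [hrρ j]
    have : (0 : ℚ) < ρ j := by exact_mod_cast (hρ j).1
    positivity
  have hrc : ∀ j, ((ρ j : ℂ) / q) = ((r j : ℚ) : ℂ) := fun j => by
    rw [hrρ j]
    push_cast
    rfl
  refine qu_of (q := q) (by omega) (ρ := rx ρ) (fun c => ?_) (Matrix.of (Ps n Q r)) ?_ (fun i c k => ?_) Ps_det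
  · rcases c with p | p
    · exact Nat.zero_le _
    · show (if (p.2 : ℕ) < n then ρ p.1 else 0) ≤ q
      split_ifs
      · exact (hρ p.1).2.le
      · exact Nat.zero_le _
  · obtain ⟨K, hK⟩ := BP.unif (P := fun x : Ti n s × Ti n s => Ps n Q r x.1 x.2) fun x => by
      obtain ⟨i, i'⟩ := x
      rcases i with p | ⟨j, i⟩ <;> rcases i' with p' | ⟨j', i'⟩
      · show BP (Phi n Q p p')
        unfold Phi
        exact BP.sum _ fun c _ => BP.mk (hH p.1 c) _
      · exact BP.zero
      · exact BP.zero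
      · show BP (if j = j' then Pw n Q (r j) i i' else 0)
        split_ifs
        · exact Pw_BP hH (hws j) i i'
        · exact BP.zero
    exact ⟨K, fun i j k m => hK (i, j) k m⟩
  · simp only [Matrix.of_apply]
    rw [Fintype.sum_sum_type]
    rcases i with p | ⟨j, i⟩ <;> rcases c with p' | ⟨j', i'⟩
    · have h1 : ∑ x : Fin s × Fin (n + 1), cxR (At n D b dr dn (Sum.inl p) (Sum.inr x)) * (Ps n Q r (Sum.inr x) (Sum.inl p')).coeff k = 0 :=
        Finset.sum_eq_zero fun x _ => by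
          show cxR 0 * _ = 0
          rw [map_zero, zero_mul]
      rw [h1, add_zero]
      show cxR (T1 D) * (X * PowerSeries.derivative ℂ ((Phi n Q p p').coeff k) + ((k : PowerSeries ℂ) + 1) *
        (Phi n Q p p').coeff (k + 1) - C (((0 : ℕ) : ℂ) / q) * (Phi n Q p p').coeff k) =
        ∑ l, cxR (A2 n D b p l) * (Phi n Q l p').coeff k
      rw [Nat.cast_zero, zero_div, map_zero, zero_mul, sub_zero]
      exact Phi_ode_g hQ hb p p' k
    · have h1 : ∀ x : Fin n × Fin n, cxR (At n D b dr dn (Sum.inl p) (Sum.inl x)) *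
          (Ps n Q r (Sum.inl x) (Sum.inr (j', i'))).coeff k = 0 := fun x => by
        show _ * (0 : Polynomial (PowerSeries ℂ)).coeff k = 0
        rw [Polynomial.coeff_zero, mul_zero]
      have h2 : ∀ x : Fin s × Fin (n + 1), cxR (At n D b dr dn (Sum.inl p) (Sum.inr x)) *
          (Ps n Q r (Sum.inr x) (Sum.inr (j', i'))).coeff k = 0 := fun x => by
        show cxR 0 * _ = 0
        rw [map_zero, zero_mul]
      simp only [h1, h2, Finset.sum_const_zero, add_zero]
      show cxR (T1 D) * (X * PowerSeries.derivative ℂ ((0 : Polynomial (PowerSeries ℂ)).coeff k) + ((k : PowerSeries ℂ) + 1) *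
        (0 : Polynomial (PowerSeries ℂ)).coeff (k + 1) - _ * (0 : Polynomial (PowerSeries ℂ)).coeff k) = 0
      simp
    · have h1 : ∀ x : Fin n × Fin n, cxR (At n D b dr dn (Sum.inr (j, i)) (Sum.inl x)) *
          (Ps n Q r (Sum.inl x) (Sum.inl p')).coeff k = 0 := fun x => by
        show cxR 0 * _ = 0
        rw [map_zero, zero_mul]
      have h2 : ∀ x : Fin s × Fin (n + 1), cxR (At n D b dr dn (Sum.inr (j, i)) (Sum.inr x)) *
          (Ps n Q r (Sum.inr x) (Sum.inl p')).coeff k = 0 := fun x => by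
        show _ * (0 : Polynomial (PowerSeries ℂ)).coeff k = 0
        rw [Polynomial.coeff_zero, mul_zero]
      simp only [h1, h2, Finset.sum_const_zero, add_zero]
      show cxR (T1 D) * (X * PowerSeries.derivative ℂ ((0 : Polynomial (PowerSeries ℂ)).coeff k) + ((k : PowerSeries ℂ) + 1) *
        (0 : Polynomial (PowerSeries ℂ)).coeff (k + 1) - _ * (0 : Polynomial (PowerSeries ℂ)).coeff k) = 0
      simp
    · have h1 : ∀ x : Fin n × Fin n, cxR (At n D b dr dn (Sum.inr (j, i)) (Sum.inl x)) *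
          (Ps n Q r (Sum.inl x) (Sum.inr (j', i'))).coeff k = 0 := fun x => by
        show cxR 0 * _ = 0
        rw [map_zero, zero_mul]
      simp only [h1, Finset.sum_const_zero, zero_add]
      rw [Fintype.sum_prod_type, Finset.sum_eq_single j]
      · show cxR (T1 D) * (X * PowerSeries.derivative ℂ ((if j = j' then Pw n Q (r j) i i' else 0).coeff k) +
          ((k : PowerSeries ℂ) + 1) * (if j = j' then Pw n Q (r j) i i' else 0).coeff (k + 1) -
          C (((if (i' : ℕ) < n then ρ j' else 0 : ℕ) : ℂ) / q) * (if j = j' then Pw n Q (r j) i i' else 0).coeff k) =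
          ∑ l, cxR (if j = j then Aw (Rj (dr j)) (Pool.Agent.Y119.HZ.A1 n D b) (Sj n (dn j)) i l else 0) *
            (if j = j' then Pw n Q (r j) l i' else 0).coeff k
        by_cases hj : j = j'
        · subst hj
          simp only [if_true]
          have h2 := Pw_ode hQ (hr0 j) hb (hdr j) (hdn j) i i' k
          rw [← h2]
          congr 4
          split_ifs
          · exact hrc j
          · simp
        · simp only [if_neg hj, Polynomial.coeff_zero, mul_zero, Finset.sum_const_zero, map_zero, add_zero, sub_zero]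
      · intro j'' _ hj''
        refine Finset.sum_eq_zero fun l _ => ?_
        show cxR (if j = j'' then _ else 0) * _ = 0
        rw [if_neg (Ne.symm hj''), map_zero, zero_mul]
      · intro h3
        exact absurd (Finset.mem_univ _) h3

end tot

end Run7.h893.MX
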