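import Pool.Agent.Run7.h893.MX.Nrm

/-!
# For almost all tuples of fibres all relations between the values of the homogeneous and inhomogeneous solutions vanish on
the products of the torsors and of the vector spaces
-/

set_option autoImplicit false

open PowerSeries
open Pool.Agent.Y113 hiding Bm
open Pool.Agent.Y120.GF Pool.Agent.Y120.GH Pool.Agent.Y119.HZ
open Pool.Agent.Y119.HY (Am Bm Hq hq Hq_zero Am_nil cm Ep E Ac_nil Hf Hc Yf E_isom E_mul_neg)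

namespace Run7.h893.MX

open Run7.h893.HO

/-! ### the coordinates -/

variable {k : ℕ} {n s : Fin k → ℕ}

/-- the coordinates: a number, a matrix and vectors for every `i` -/
abbrev Kx {k : ℕ} (n s : Fin k → ℕ) : Type := Σ i : Fin k, Option ((Fin (n i) × Fin (n i)) ⊕ (Fin (s i) × Fin (n i)))

/-- the point given by numbers, matrices and vectors -/
def pz (l : Fin k → ℂ) (X : ∀ i, Matrix (Fin (n i)) (Fin (n i)) ℂ) (y : ∀ i, Fin (s i) → Fin (n i) → ℂ) : Kx n s → ℂ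
  | ⟨i, none⟩ => l i
  | ⟨i, some (.inl p)⟩ => X i p.1 p.2
  | ⟨i, some (.inr p)⟩ => y i p.1 p.2

/-- the variables -/
abbrev Wx {k : ℕ} (n s : Fin k → ℕ) : Type := Σ i : Fin k, Option (Fin (Fintype.card (Ti (n i) (s i))))

/-- the part with rational coefficients -/
noncomputable def rpx (i : Fin k) (a c d : Fin (n i)) : MvPolynomial (Wx n s) ℚ :=
  MvPolynomial.X ⟨i, some ((et (n i) (s i)).symm (.inl (a, c)))⟩ *
    ∑ l ∈ Finset.range (n i), MvPolynomial.C (qe (n i) l c d) * MvPolynomial.X ⟨i, none⟩ ^ l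

/-- the constants -/
abbrev Cx {k : ℕ} (n s : Fin k → ℕ) : Type := Option (Ix n ⊕ (Σ i : Fin k, Fin (s i) × Option (Fin (n i))))

/-- the values of the constants -/
noncomputable def foc (Ω : ∀ i, Matrix (Fin (n i)) (Fin (n i)) ℂ) (a : ∀ i, Fin (s i) → ℂ) (c : ∀ i, Fin (s i) → Fin (n i) → ℂ) :
    Cx n s → ℂ
  | none => 1
  | some (.inl v) => Ω v.1 v.2.1 v.2.2
  | some (.inr ⟨i, j, none⟩) => a i j
  | some (.inr ⟨i, j, some b⟩) => c i j b

/-- the substitution -/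
noncomputable def sbx (Ω : ∀ i, Matrix (Fin (n i)) (Fin (n i)) ℂ) (a : ∀ i, Fin (s i) → ℂ)
    (c : ∀ i, Fin (s i) → Fin (n i) → ℂ) : Kx n s → MvPolynomial (Wx n s) ℂ
  | ⟨i, none⟩ => MvPolynomial.X ⟨i, none⟩
  | ⟨i, some (.inl p)⟩ => ∑ b, ∑ d, MvPolynomial.C (Ω i d p.2) * MvPolynomial.map (algebraMap ℚ ℂ) (rpx i p.1 b d)
  | ⟨i, some (.inr p)⟩ => MvPolynomial.C (a i p.1) *
      MvPolynomial.map (algebraMap ℚ ℂ) (MvPolynomial.X ⟨i, some ((et (n i) (s i)).symm (.inr (p.1, p.2.castSucc)))⟩) +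
      ∑ b, ∑ d, MvPolynomial.C (c i p.1 d) * MvPolynomial.map (algebraMap ℚ ℂ) (rpx i p.2 b d)

/-- the point of the variables -/
noncomputable def px (Z : ∀ i, Matrix (Fin (n i)) (Fin (n i)) ℂ) (y : ∀ i, Fin (s i) → Fin (n i) → ℂ) (l : Fin k → ℂ) :
    Wx n s → ℂ := pt (fun i j => vX (Z i) (y i) (et (n i) (s i) j)) l

lemma aeval_rpx (Z : ∀ i, Matrix (Fin (n i)) (Fin (n i)) ℂ) (y : ∀ i, Fin (s i) → Fin (n i) → ℂ) (l : Fin k → ℂ) (i : Fin k)
    (a c d : Fin (n i)) :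
    MvPolynomial.aeval (px Z y l) (MvPolynomial.map (algebraMap ℚ ℂ) (rpx (s := s) i a c d)) =
      Z i a c * E (cm (Am (n i))) (-l i) c d := by
  unfold rpx
  rw [map_mul, map_mul, MvPolynomial.map_X, MvPolynomial.aeval_X, map_sum, map_sum, E_qe]
  congr 1
  · show vX (Z i) (y i) (et (n i) (s i) ((et (n i) (s i)).symm (.inl (a, c)))) = _
    rw [Equiv.apply_symm_apply]
    rfl
  · refine Finset.sum_congr rfl fun e _ => ?_
    rw [map_mul, map_mul, map_pow, map_pow, MvPolynomial.map_X, MvPolynomial.aeval_X, MvPolynomial.map_C, MvPolynomial.aeval_C]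
    rfl

lemma vX_inr {m σ : ℕ} (M : Matrix (Fin m) (Fin m) ℂ) (y : Fin σ → Fin m → ℂ) (j : Fin σ) (b : Fin m) :
    vX M y (.inr (j, b.castSucc)) = y j b := by
  show (if hi : ((b.castSucc : Fin (m + 1)) : ℕ) < m then y j ⟨b.castSucc, hi⟩ else 1) = _
  rw [dif_pos (by simp)]
  rfl

lemma sbx_inr (Ω : ∀ i, Matrix (Fin (n i)) (Fin (n i)) ℂ) (a : ∀ i, Fin (s i) → ℂ) (c : ∀ i, Fin (s i) → Fin (n i) → ℂ)
    (i : Fin k) (j : Fin (s i)) (b : Fin (n i)) : sbx Ω a c (⟨i, some (.inr (j, b))⟩ : Kx n s) = MvPolynomial.C (a i j) *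
      MvPolynomial.map (algebraMap ℚ ℂ)
        (MvPolynomial.X (⟨i, some ((et (n i) (s i)).symm (.inr (j, b.castSucc)))⟩ : Wx n s) : MvPolynomial (Wx n s) ℚ) +
      ∑ b', ∑ d, MvPolynomial.C (c i j d) * MvPolynomial.map (algebraMap ℚ ℂ) (rpx i b b' d) := rfl

lemma aeval_sbx (Ω : ∀ i, Matrix (Fin (n i)) (Fin (n i)) ℂ) (a : ∀ i, Fin (s i) → ℂ) (c : ∀ i, Fin (s i) → Fin (n i) → ℂ)
    (Z : ∀ i, Matrix (Fin (n i)) (Fin (n i)) ℂ)
    (y : ∀ i, Fin (s i) → Fin (n i) → ℂ) (l : Fin k → ℂ) (v : Kx n s) :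
    MvPolynomial.aeval (px Z y l) (sbx Ω a c v) = pz l (fun i => Z i * E (cm (Am (n i))) (-l i) * Ω i)
      (fun i j b => a i j * y i j b + ∑ d, (Z i * E (cm (Am (n i))) (-l i)) b d * c i j d) v := by
  obtain ⟨i, _ | p | ⟨j, b⟩⟩ := v
  · show MvPolynomial.aeval _ (MvPolynomial.X _) = _
    rw [MvPolynomial.aeval_X]
    rfl
  · show MvPolynomial.aeval _ (∑ c, ∑ d, MvPolynomial.C (Ω i d p.2) * MvPolynomial.map (algebraMap ℚ ℂ) (rpx i p.1 c d)) =
      (Z i * E (cm (Am (n i))) (-l i) * Ω i) p.1 p.2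
    rw [map_sum, Matrix.mul_apply]
    simp only [map_sum, map_mul, aeval_rpx, Matrix.mul_apply, Finset.sum_mul]
    rw [Finset.sum_comm]
    refine Finset.sum_congr rfl fun d _ => Finset.sum_congr rfl fun c _ => ?_
    rw [MvPolynomial.aeval_C, mul_comm]
    rfl
  · have hr : pz l (fun i => Z i * E (cm (Am (n i))) (-l i) * Ω i)
        (fun i j b => a i j * y i j b + ∑ d, (Z i * E (cm (Am (n i))) (-l i)) b d * c i j d)
        (⟨i, some (.inr (j, b))⟩ : Kx n s) = a i j * y i j b + ∑ d, (Z i * E (cm (Am (n i))) (-l i)) b d * c i j d := rfl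
    rw [sbx_inr, hr, map_add, map_mul, MvPolynomial.map_X, MvPolynomial.aeval_X, MvPolynomial.aeval_C]
    congr 1
    · show a i j * vX (Z i) (y i) (et (n i) (s i) ((et (n i) (s i)).symm (.inr (j, b.castSucc)))) = a i j * y i j b
      rw [Equiv.apply_symm_apply, vX_inr]
    · rw [map_sum]
      simp only [map_sum, map_mul, aeval_rpx, Matrix.mul_apply, Finset.sum_mul]
      rw [Finset.sum_comm]
      refine Finset.sum_congr rfl fun d _ => Finset.sum_congr rfl fun b' _ => ?_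
      rw [MvPolynomial.aeval_C, mul_comm]
      rfl

lemma deg_rpx (i : Fin k) (b c d : Fin (n i)) (z : ℂ) :
    (MvPolynomial.C z * MvPolynomial.map (algebraMap ℚ ℂ) (rpx (s := s) i b c d)).totalDegree ≤ dg n := by
  refine (MvPolynomial.totalDegree_mul _ _).trans ?_
  rw [MvPolynomial.totalDegree_C, zero_add]
  have h0 : (MvPolynomial.map (algebraMap ℚ ℂ) (rpx (n := n) (s := s) i b c d)).totalDegree ≤
      (rpx (n := n) (s := s) i b c d).totalDegree :=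
    Finset.sup_mono (MvPolynomial.support_map_subset _ _)
  refine h0.trans ?_
  unfold rpx
  refine (MvPolynomial.totalDegree_mul _ _).trans ?_
  rw [MvPolynomial.totalDegree_X]
  have h1 : n i ≤ ∑ i, n i := Finset.single_le_sum (f := n) (fun _ _ => Nat.zero_le _) (Finset.mem_univ _)
  have h2 : (∑ l ∈ Finset.range (n i), MvPolynomial.C (qe (n i) l c d) *
      (MvPolynomial.X ⟨i, none⟩ : MvPolynomial (Wx n s) ℚ) ^ l).totalDegree ≤ n i := by
    refine (MvPolynomial.totalDegree_finsetSum _ _).trans (Finset.sup_le fun l hl => ?_)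
    refine (MvPolynomial.totalDegree_mul _ _).trans ?_
    rw [MvPolynomial.totalDegree_C, zero_add, MvPolynomial.totalDegree_X_pow]
    exact (Finset.mem_range.1 hl).le
  unfold dg
  omega

lemma deg_sbx (Ω : ∀ i, Matrix (Fin (n i)) (Fin (n i)) ℂ) (a : ∀ i, Fin (s i) → ℂ) (c : ∀ i, Fin (s i) → Fin (n i) → ℂ)
    (v : Kx n s) : (sbx Ω a c v).totalDegree ≤ dg n := by
  have hdg : 1 ≤ dg n := by
    unfold dg
    omega
  obtain ⟨i, _ | p | ⟨j, b⟩⟩ := v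
  · show (MvPolynomial.X _ : MvPolynomial (Wx n s) ℂ).totalDegree ≤ _
    rw [MvPolynomial.totalDegree_X]
    exact hdg
  · show (∑ c, ∑ d, MvPolynomial.C (Ω i d p.2) * MvPolynomial.map (algebraMap ℚ ℂ) (rpx i p.1 c d) :
      MvPolynomial (Wx n s) ℂ).totalDegree ≤ _
    refine (MvPolynomial.totalDegree_finsetSum _ _).trans (Finset.sup_le fun c _ => ?_)
    refine (MvPolynomial.totalDegree_finsetSum _ _).trans (Finset.sup_le fun d _ => ?_)
    exact deg_rpx _ _ _ _ _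
  · rw [sbx_inr]
    refine (MvPolynomial.totalDegree_add _ _).trans (max_le ?_ ?_)
    · refine (MvPolynomial.totalDegree_mul _ _).trans ?_
      rw [MvPolynomial.totalDegree_C, zero_add, MvPolynomial.map_X, MvPolynomial.totalDegree_X]
      exact hdg
    · refine (MvPolynomial.totalDegree_finsetSum _ _).trans (Finset.sup_le fun b' _ => ?_)
      refine (MvPolynomial.totalDegree_finsetSum _ _).trans (Finset.sup_le fun d _ => ?_)
      exact deg_rpx _ _ _ _ _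

lemma Lc.add {κ O : Type} [Fintype O] {ω : O → ℂ} {p p' : MvPolynomial κ ℂ} (h : Lc ω p) (h' : Lc ω p') : Lc ω (p + p') := by
  obtain ⟨a, rfl⟩ := h
  obtain ⟨a', rfl⟩ := h'
  refine ⟨fun o => a o + a' o, ?_⟩
  rw [← Finset.sum_add_distrib]
  exact Finset.sum_congr rfl fun o _ => by rw [map_add, mul_add]

lemma lc_sbx (Ω : ∀ i, Matrix (Fin (n i)) (Fin (n i)) ℂ) (a : ∀ i, Fin (s i) → ℂ) (c : ∀ i, Fin (s i) → Fin (n i) → ℂ)
    (v : Kx n s) : Lc (foc Ω a c) (sbx Ω a c v) := by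
  obtain ⟨i, _ | p | ⟨j, b⟩⟩ := v
  · have h1 := Lc.one (ω := foc Ω a c) (o := none) rfl (MvPolynomial.X (⟨i, none⟩ : Wx n s))
    rw [MvPolynomial.map_X] at h1
    exact h1
  · exact Lc.sum _ fun b _ => Lc.sum _ fun d _ => Lc.single (ω := foc Ω a c) (some (.inl ⟨i, d, p.2⟩)) _
  · rw [sbx_inr]
    refine Lc.add ?_ ?_
    · exact Lc.single (ω := foc Ω a c) (some (.inr ⟨i, j, none⟩)) _
    · exact Lc.sum _ fun b' _ => Lc.sum _ fun d _ => Lc.single (ω := foc Ω a c) (some (.inr ⟨i, j, some d⟩)) _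

/-! ### the families -/

/-- self-dual families with exponents of inhomogeneous equations -/
structure FamR (n : ℕ) (Q : Polynomial ℚ) (J0 : Matrix (Fin n) (Fin n) ℂ) (B : ℂ → Matrix (Fin n) (Fin n) ℂ) {s : ℕ}
    (r : Fin s → ℚ) : Prop extends FamX n Q J0 B where
  pos : ∀ j, 0 < r j ∧ r j < 1
  inj : Function.Injective r
  ne : ∀ j, ∀ l : ℕ, Q.eval ((l : ℚ) + r j) ≠ 0
  wsd : ∀ j, ∀ i < n, SDc (wps n Q (r j) i)

variable {Q : Fin k → Polynomial ℚ} {J0 : ∀ i, Matrix (Fin (n i)) (Fin (n i)) ℂ}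
  {B : ∀ i, ℂ → Matrix (Fin (n i)) (Fin (n i)) ℂ} {r : ∀ i, Fin (s i) → ℚ}

theorem relI_vanish_x (hQ : ∀ i, FamR (n i) (Q i) (J0 i) (B i) (r i)) {δ : ℕ} {t : Fin k → ℕ} (ht : ∀ i, 2 ≤ t i)
    {κ : ∀ i, Matrix (Fin (n i)) (Fin (n i)) ℂ}
    (hκ : ∀ i, (κ i).transpose * J0 i * κ i = J0 i) (y : ∀ i, Fin (s i) → Fin (n i) → ℂ) (l : Fin k → ℂ)
    {P : MvPolynomial (Wx n s) ℂ} (hP : P ∈ relI δ (fun i => hX (n i) (Q i) (r i)) t) :
    MvPolynomial.aeval (px (fun i => Hf (Hc (n i) (Q i)) (((1 / (t i : ℝ) : ℝ)) : ℂ) * κ i) y l) P = 0 := by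
  set θ := px (fun i => Hf (Hc (n i) (Q i)) (((1 / (t i : ℝ) : ℝ)) : ℂ) * κ i) y l with hθ
  have h1 : relI δ (fun i => hX (n i) (Q i) (r i)) t ≤ RingHom.ker (MvPolynomial.aeval (R := ℂ) θ).toRingHom := by
    unfold relI
    rw [Ideal.span_le]
    rintro _ ⟨i, R, -, hR, rfl⟩
    show (MvPolynomial.aeval θ) (MvPolynomial.rename (fun j => (⟨i, some j⟩ : Wx n s)) (MvPolynomial.map (spec (t i)) R)) = 0
    rw [MvPolynomial.aeval_rename, MvPolynomial.aeval_def, MvPolynomial.eval₂_map]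
    have h2 : (algebraMap ℂ ℂ).comp (spec (t i)) = evq (((1 / (t i : ℝ) : ℝ)) : ℂ) := by
      rw [← spec_eq]
      rfl
    rw [h2]
    have h3 : (2 : ℝ) ≤ t i := by exact_mod_cast ht i
    exact (hQ i).toFamX.rel_inv (hQ i).pos (hQ i).inj (hQ i).ne hR (x := 1 / (t i : ℝ)) (by positivity)
      (by rw [div_lt_one (by linarith)]; linarith) (hκ i) (y i)
  exact h1 hP

/-- the exponents of the coordinates -/
noncomputable def ex (ρ : (Σ i : Fin k, Fin (s i)) → ℕ) (v : Wx n s) (i : Fin k) : ℕ :=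
  if v.1 = i then v.2.elim 0 fun b => rx (fun j => ρ ⟨v.1, j⟩) (et (n v.1) (s v.1) b) else 0

lemma prod_ex (ρ : (Σ i : Fin k, Fin (s i)) → ℕ) (u : Fin k → ℂ) (v : Wx n s) :
    ∏ i, u i ^ ex ρ v i = u v.1 ^ (v.2.elim 0 fun b => rx (fun j => ρ ⟨v.1, j⟩) (et (n v.1) (s v.1) b)) := by
  rw [Finset.prod_eq_single v.1]
  · unfold ex
    rw [if_pos rfl]
  · intro i _ hi
    unfold ex
    rw [if_neg (Ne.symm hi), pow_zero]
  · intro h
    exact absurd (Finset.mem_univ _) h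

lemma scl_px (ρ : (Σ i : Fin k, Fin (s i)) → ℕ) (u : Fin k → ℂ) (Z : ∀ i, Matrix (Fin (n i)) (Fin (n i)) ℂ)
    (y : ∀ i, Fin (s i) → Fin (n i) → ℂ) (l : Fin k → ℂ) :
    scl (ex ρ) u (px Z y l) = px Z (fun i j b => u i ^ ρ ⟨i, j⟩ * y i j b) l := by
  funext v
  unfold scl
  rw [prod_ex]
  obtain ⟨i, _ | b⟩ := v
  · show u i ^ 0 * l i = l i
    rw [pow_zero, one_mul]
  · show u i ^ rx (fun j => ρ ⟨i, j⟩) (et (n i) (s i) b) * vX (Z i) (y i) (et (n i) (s i) b) =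
      vX (Z i) (fun j b => u i ^ ρ ⟨i, j⟩ * y i j b) (et (n i) (s i) b)
    rcases et (n i) (s i) b with p | p
    · show u i ^ 0 * _ = _
      rw [pow_zero, one_mul]
      rfl
    · show u i ^ (if (p.2 : ℕ) < n i then ρ ⟨i, p.1⟩ else 0) * (if hi : (p.2 : ℕ) < n i then y i p.1 ⟨p.2, hi⟩ else 1) =
        if hi : (p.2 : ℕ) < n i then u i ^ ρ ⟨i, p.1⟩ * y i p.1 ⟨p.2, hi⟩ else 1
      split_ifs
      · rfl
      · rw [pow_zero, one_mul]

/-- the coordinates of the inhomogeneous solutions -/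
def Sx (n s : Fin k → ℕ) : Set (Wx n s) := {v | ∃ (i : Fin k) (j : Fin (s i)) (b : Fin (n i)),
  v = ⟨i, some ((et (n i) (s i)).symm (.inr (j, b.castSucc)))⟩}

lemma ex_Sx (ρ : (Σ i : Fin k, Fin (s i)) → ℕ) {v : Wx n s} (hv : v ∉ Sx n s) (i : Fin k) : ex ρ v i = 0 := by
  unfold ex
  split_ifs with h
  · obtain ⟨i', _ | b⟩ := v
    · rfl
    · show rx (fun j => ρ ⟨i', j⟩) (et (n i') (s i') b) = 0
      rcases hb : et (n i') (s i') b with p | ⟨j, a⟩
      · rfl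
      · show (if (a : ℕ) < n i' then ρ ⟨i', j⟩ else 0) = 0
        rw [if_neg]
        intro ha
        apply hv
        refine ⟨i', j, ⟨a, ha⟩, ?_⟩
        have h1 : b = (et (n i') (s i')).symm (.inr (j, a)) := by rw [← hb, Equiv.symm_apply_apply]
        rw [h1]
        rfl
  · rfl

lemma px_of {Z : ∀ i, Matrix (Fin (n i)) (Fin (n i)) ℂ} {y : ∀ i, Fin (s i) → Fin (n i) → ℂ} {l : Fin k → ℂ}
    {x : Wx n s → ℂ} (hx : ∀ v ∉ Sx n s, x v = px Z y l v) :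
    x = px Z (fun i j b => x ⟨i, some ((et (n i) (s i)).symm (.inr (j, b.castSucc)))⟩) l := by
  funext v
  by_cases hv : v ∈ Sx n s
  · obtain ⟨i, j, b, rfl⟩ := hv
    show _ = vX (Z i) (fun j b => x ⟨i, some ((et (n i) (s i)).symm (.inr (j, b.castSucc)))⟩)
      (et (n i) (s i) ((et (n i) (s i)).symm (.inr (j, b.castSucc))))
    rw [Equiv.apply_symm_apply, vX_inr]
  · rw [hx v hv]
    obtain ⟨i, _ | b⟩ := v
    · rfl
    · show vX (Z i) (y i) (et (n i) (s i) b) =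
        vX (Z i) (fun j b => x ⟨i, some ((et (n i) (s i)).symm (.inr (j, b.castSucc)))⟩) (et (n i) (s i) b)
      rcases hb : et (n i) (s i) b with p | ⟨j, a⟩
      · rfl
      · have ha : ¬ (a : ℕ) < n i := by
          intro ha
          apply hv
          refine ⟨i, j, ⟨a, ha⟩, ?_⟩
          have h1 : b = (et (n i) (s i)).symm (.inr (j, a)) := by rw [← hb, Equiv.symm_apply_apply]
          rw [h1]
          rfl
        have h2 : ∀ y' : Fin (s i) → Fin (n i) → ℂ, vX (Z i) y' (.inr (j, a)) = 1 := fun y' => dif_neg ha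
        rw [h2, h2]

/-- **Few exceptional tuples.** -/
theorem tuples_mix (k δ D : ℕ) (n s : Fin k → ℕ) (Q : Fin k → Polynomial ℚ) (J0 : ∀ i, Matrix (Fin (n i)) (Fin (n i)) ℂ)
    (B : ∀ i, ℂ → Matrix (Fin (n i)) (Fin (n i)) ℂ) (r : ∀ i, Fin (s i) → ℚ)
    (hQ : ∀ i, FamR (n i) (Q i) (J0 i) (B i) (r i)) :
    ∃ c₀ C : ℝ, 0 < c₀ ∧ 0 ≤ C ∧ ∀ (V : Submodule ℚ ℂ) [Module.Finite ℚ V], Module.finrank ℚ V ≤ D →
      ∀ (Ω : ∀ i, Matrix (Fin (n i)) (Fin (n i)) ℂ) (a : ∀ i, Fin (s i) → ℂ) (c : ∀ i, Fin (s i) → Fin (n i) → ℂ),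
      ∀ (x : Fin k → ℕ) (N : ℕ), (∀ i, 1 ≤ x i) → 1 ≤ N →
      ∀ S : Finset (Fin k → ℕ), (∀ t ∈ S, (∀ i, x i < t i ∧ t i ≤ x i + N) ∧ ∃ P : MvPolynomial (Kx n s) ℂ,
        P.totalDegree ≤ δ ∧ (∀ m, P.coeff m ∈ V) ∧
        MvPolynomial.aeval (pz (fun i => ((Real.log (t i) : ℝ) : ℂ)) (fun i => Yt (n i) (Q i) (t i) * Ω i)
          fun i j b => a i j * ((((1 / (t i : ℝ)) ^ ((r i j : ℚ) : ℝ) : ℝ) : ℂ) * wf (n i) (Q i) (r i j) b (((1 / (t i : ℝ) : ℝ)) : ℂ)) +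
            ∑ d, Yt (n i) (Q i) (t i) b d * c i j d) P = 0 ∧
        ∃ (l : Fin k → ℂ) (g : ∀ i, Matrix (Fin (n i)) (Fin (n i)) ℂ) (y : ∀ i, Fin (s i) → Fin (n i) → ℂ),
          (∀ i, (g i).transpose * B i (((1 / (t i : ℝ) : ℝ)) : ℂ) * g i = J0 i) ∧
          MvPolynomial.aeval (pz l (fun i => g i * Ω i) fun i j b => a i j * y i j b + ∑ d, g i b d * c i j d) P ≠ 0) →
      (S.card : ℝ) ≤ C * (N : ℝ) ^ (k - 1) * ∑ i, (1 + N / ((x i : ℝ) + N) ^ c₀) := by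
  classical
  obtain ⟨q, ρ, hq, hrρ, hρ⟩ := exists_rho (J := Σ i : Fin k, Fin (s i)) (fun p => r p.1 p.2) fun p => (hQ p.1).pos p.2
  obtain ⟨c₀, C, hc, hC, hmain⟩ := tuples k (q ^ k * (δ * dg n)) (((Fintype.card (Cx n s)) ^ δ * D) ^ (q ^ k))
    (fun i => Fintype.card (Ti (n i) (s i)))
    (fun i => hX (n i) (Q i) (r i)) (fun i => by
      obtain ⟨C₁, -, hs, -⟩ := Pool.Agent.Y119.HY.SDc.unif
        (y := fun p : Ti (n i) (s i) => hT (n i) (Q i) (r i) p) fun p => sdc_hT (hQ i).sdc (hQ i).wsd p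
      exact ⟨C₁, fun j m => hs (et (n i) (s i) j) m⟩) (fun i => by
      obtain ⟨W, hW1, hW2⟩ := (hQ i).wex
      exact hfam_hX (hQ i).g (hQ i).sdc hW1 hW2 (hQ i).pos (hQ i).wsd _)
  refine ⟨c₀, C, hc, hC, ?_⟩
  intro V _ hV Ω a c x N hx hN S hS
  obtain ⟨hfin, hrank⟩ := Wn_fin (foc Ω a c) V δ
  obtain ⟨hfin', hrank'⟩ := pow_fin (Wn (foc Ω a c) V δ) (q ^ k)
  refine hmain ((Wn (foc Ω a c) V δ) ^ (q ^ k)) (hrank'.trans (Nat.pow_le_pow_left (hrank.trans (Nat.mul_le_mul_left _ hV)) _))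
    x N hN S fun t htS => ?_
  obtain ⟨hbox, P, hPd, hPV, hP0, l, g, y, hg, hPg⟩ := hS t htS
  have ht2 : ∀ i, 2 ≤ t i := fun i => by
    have := (hbox i).1
    have := hx i
    omega
  have ht0 : ∀ i, (0 : ℝ) < t i := fun i => by
    have : (2 : ℝ) ≤ t i := by exact_mod_cast ht2 i
    linarith
  have hbd := aeval_CV (ω := foc Ω a c) (o := none) rfl (lc_sbx Ω a c) (deg_sbx Ω a c) hPd hPV
  set P' := MvPolynomial.aeval (sbx Ω a c) P with hP'
  have hτ : ∀ i, (1 / (t i : ℚ)) ≠ 0 := fun i => by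
    have : (t i : ℚ) ≠ 0 := by
      have := ht2 i
      exact_mod_cast (by omega : t i ≠ 0)
    positivity
  obtain ⟨Nm, hNd, hNV, hNm⟩ := nrm_exists (e := ex ρ) (τ := fun i => 1 / (t i : ℚ)) (P := P') hq hτ hbd.2 hbd.1
  have hsub : ∀ (Z : ∀ i, Matrix (Fin (n i)) (Fin (n i)) ℂ) (y : ∀ i, Fin (s i) → Fin (n i) → ℂ) (l : Fin k → ℂ),
      MvPolynomial.eval (px Z y l) P' = MvPolynomial.aeval (pz l (fun i => Z i * E (cm (Am (n i))) (-l i) * Ω i)
      (fun i j b => a i j * y i j b + ∑ d, (Z i * E (cm (Am (n i))) (-l i)) b d * c i j d)) P := by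
    intro Z y l
    rw [← ae, hP']
    have h2 : MvPolynomial.aeval (px Z y l) (MvPolynomial.aeval (sbx Ω a c) P) =
        MvPolynomial.aeval (fun v => MvPolynomial.aeval (px Z y l) (sbx Ω a c v)) P := MvPolynomial.aeval_bind₁ _ _ _
    rw [h2]
    simp only [aeval_sbx]
  refine ⟨hbox, Nm, hNd, hNV, ?_, ?_⟩
  · -- the value
    have h1 : valpt (fun i => hX (n i) (Q i) (r i)) t =
        px (fun i => Hf (Hc (n i) (Q i)) (((1 / (t i : ℝ) : ℝ)) : ℂ))
          (fun i j a => wf (n i) (Q i) (r i j) a (((1 / (t i : ℝ) : ℝ)) : ℂ)) (fun i => ((Real.log (t i) : ℝ) : ℂ)) := by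
      unfold valpt px
      congr 1
      funext i j
      exact ev_hT _ _ _
    rw [ae, h1]
    refine (hNm _).1 ⟨fun i => (((1 / (t i : ℝ)) ^ (1 / (q : ℝ)) : ℝ) : ℂ), fun i => ?_, ?_⟩
    · have h2 : ((1 / (t i : ℝ)) ^ (1 / (q : ℝ))) ^ q = 1 / (t i : ℝ) := by
        have hq0 : (q : ℝ) ≠ 0 := by
          have : (0 : ℝ) < q := by exact_mod_cast hq
          exact this.ne'
        rw [← Real.rpow_natCast, ← Real.rpow_mul (by have := ht0 i; positivity), one_div (q : ℝ), inv_mul_cancel₀ hq0,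
          Real.rpow_one]
      rw [← Complex.ofReal_pow, h2]
      push_cast
      rfl
    · rw [scl_px, hsub]
      have h3 : ∀ i (j : Fin (s i)), ((((1 / (t i : ℝ)) ^ (1 / (q : ℝ)) : ℝ) : ℂ)) ^ ρ ⟨i, j⟩ =
          (((1 / (t i : ℝ)) ^ ((r i j : ℚ) : ℝ) : ℝ) : ℂ) := by
        intro i j
        rw [← Complex.ofReal_pow]
        congr 1
        rw [← Real.rpow_natCast, ← Real.rpow_mul (by have := ht0 i; positivity)]
        congr 1
        have h4 := hrρ ⟨i, j⟩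
        simp only at h4
        rw [h4]
        push_cast
        ring
      simp only [h3]
      exact hP0
  · intro hmem
    apply hPg
    set N' := fun i => cm (Am (n i)) with hN'
    have hN : ∀ i, (N' i) ^ n i = 0 := fun i => Pool.Agent.Y119.HY.Ac_nil
    have hEiso : ∀ i (s : ℂ), (E (N' i) s).transpose * J0 i * E (N' i) s = J0 i :=
      fun i s => E_isom (hN i) (hQ i).zero s
    have hinv := fun i => torsor_inv (hQ i).det ((hQ i).toFam.Hf_form (ht2 i)) (hg i)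
    choose κ₀ hκ₀ hκ₀g using hinv
    let κ : ∀ i, Matrix (Fin (n i)) (Fin (n i)) ℂ := fun i => κ₀ i * E (N' i) (l i)
    have hκ : ∀ i, (κ i).transpose * J0 i * κ i = J0 i := fun i => isom_mul (hκ₀ i) (hEiso i (l i))
    have h4 : ∀ i, Hf (Hc (n i) (Q i)) (((1 / (t i : ℝ) : ℝ)) : ℂ) * κ i * E (cm (Am (n i))) (-l i) = g i := by
      intro i
      have e1 : E (N' i) (l i) * E (N' i) (-l i) = 1 := E_mul_neg (hN i) (l i)
      calc Hf (Hc (n i) (Q i)) (((1 / (t i : ℝ) : ℝ)) : ℂ) * κ i * E (N' i) (-l i) =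
          (Hf (Hc (n i) (Q i)) (((1 / (t i : ℝ) : ℝ)) : ℂ) * κ₀ i) * (E (N' i) (l i) * E (N' i) (-l i)) := by
            show Hf (Hc (n i) (Q i)) (((1 / (t i : ℝ) : ℝ)) : ℂ) * (κ₀ i * E (N' i) (l i)) * E (N' i) (-l i) = _
            simp only [Matrix.mul_assoc]
        _ = g i := by rw [e1, mul_one, hκ₀g]
    by_contra hne
    have h5 := hsub (fun i => Hf (Hc (n i) (Q i)) (((1 / (t i : ℝ) : ℝ)) : ℂ) * κ i) y l
    simp only [h4] at h5
    rw [← h5] at hne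
    obtain ⟨x', hx', hxu⟩ := scl_choice (e := ex ρ) (τ := fun i => 1 / (t i : ℚ)) (S := Sx n s) hq hτ
      (fun v hv i => ex_Sx ρ hv i) hne
    have h6 := (hNm x').2 hxu
    rw [px_of hx'] at h6
    apply h6
    rw [← ae]
    exact relI_vanish_x hQ ht2 hκ _ l hmem

end Run7.h893.MX
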